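import Pool.Agent.Q56.PC.Main

/-!
# The even and the odd part
-/

set_option autoImplicit false
set_option linter.unusedSectionVars false
set_option linter.unusedSimpArgs false
set_option backward.isDefEq.respectTransparency false
set_option backward.defeqAttrib.useBackward true

open CategoryTheory Limits MonoidalCategory
open Pool.Agent.Y112.SR Pool.Agent.Y112.KD Pool.Agent.Y112.SC Q20.Cp

namespace Q56.PC

universe v u w

section

variable {C : Type u} [Category.{v} C] [Preadditive C] [MonoidalCategory C]
  [SymmetricCategory C] {K : Type w} [Field K] (R : SuperRealisation C K)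

/-- The decomposition into the even and the odd part. -/
noncomputable def evenOdd (h2 : (2 : K) ≠ 0) (M : C) : Decomposition R M Bool where
  proj b := if b then pe R M else po R M
  sgn b := if b then 1 else -1
  proj_comp_self b := by
    cases b
    · exact po_po R h2 M
    · exact pe_pe R h2 M
  proj_comp a b h := by
    cases a <;> cases b <;> simp at h
    · exact po_pe R M
    · exact pe_po R M
  sum_proj := by
    simp only [Fintype.sum_bool, if_true, Bool.false_eq_true, if_false]
    exact pe_add_po R h2 M
  proj_par b := by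
    cases b
    · have h : po R M ≫ R.par M = -po R M := by
        rw [po, Linear.smul_comp, Preadditive.sub_comp, Category.id_comp, R.par_sq, ← smul_neg,
          neg_sub]
      simp [h]
    · have h : pe R M ≫ R.par M = pe R M := by
        rw [pe, Linear.smul_comp, Preadditive.add_comp, Category.id_comp, R.par_sq, add_comm]
      simp [h]

/-- The type with `k` odd factors among `n` factors. -/
def oddType (n k : ℤ) (b : Bool) : ℤ := if b then n - k else k

lemma EE_eq_typeProj (h2 : (2 : K) ≠ 0) (M : C) (n : ℕ) (k : ℤ) :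
    EE R M n k = (evenOdd R h2 M).typeProj n (oddType n k) := by
  induction n generalizing k with
  | zero =>
    rw [EE_zero, Decomposition.typeProj_zero]
    have h : (oddType ((0 : ℕ) : ℤ) k = 0) ↔ k = 0 := by
      constructor
      · intro h
        have h1 := congrFun h false
        simpa [oddType] using h1
      · rintro rfl
        funext b
        cases b <;> simp [oddType]
    simp only [h]
  | succ n ih =>
    rw [EE_succ, Decomposition.typeProj_succ, Fintype.sum_bool, ih, ih]
    have h1 : oddType ((n + 1 : ℕ) : ℤ) k - Pi.single true 1 = oddType n k := by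
      funext b
      cases b <;> simp [oddType]
      ring
    have h3 : oddType ((n + 1 : ℕ) : ℤ) k - Pi.single false 1 = oddType n (k - 1) := by
      funext b
      cases b <;> simp [oddType]
      ring
    rw [h1, h3]
    rfl

end

section

variable {C : Type u} [Category.{v} C] [Preadditive C] [Linear ℚ C] [MonoidalCategory C]
  [MonoidalPreadditive C] [MonoidalLinear ℚ C] [SymmetricCategory C]
  [RightRigidCategory C] {K : Type w} [Field K] (R : SuperRealisation C K)

lemma falg_top {X : C} {x : R.H.obj X ⟶ R.H.obj X} : x ∈ FAlg R ⊤ X ↔ x ∈ KAlg R X := by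
  constructor
  · intro h
    refine falg_ind (p := fun y => y ∈ KAlg R X) ?_ (zero_mem _) (fun _ _ => add_mem) h
    intro c _ f
    exact Submodule.smul_mem _ c (Submodule.subset_span ⟨f, rfl⟩)
  · intro h
    refine Submodule.span_induction (p := fun y _ => y ∈ FAlg R ⊤ X) ?_ (zero_mem _)
      (fun _ _ _ _ => add_mem) (fun c y _ h => falg_smul (Subfield.mem_top c) h) h
    rintro _ ⟨f, rfl⟩
    exact falg_map f

lemma exists_of_falg_bot {X : C} {x : R.H.obj X ⟶ R.H.obj X} (h : x ∈ FAlg R ⊥ X) :
    ∃ f : X ⟶ X, R.H.map f = x := by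
  have hK := R_charZero R
  refine falg_ind (p := fun y => ∃ f : X ⟶ X, R.H.map f = y) ?_ ⟨0, R.H.map_zero _ _⟩ ?_ h
  · intro c hc f
    have h1 : ∃ q : ℚ, (q : K) = c := by
      have h2 : (⊥ : Subfield K) ≤ (algebraMap ℚ K).fieldRange := bot_le
      obtain ⟨q, hq⟩ := h2 hc
      exact ⟨q, by rw [← hq]; simp⟩
    obtain ⟨q, rfl⟩ := h1
    exact ⟨q • f, R_smul R q f⟩
  · rintro _ _ ⟨f, rfl⟩ ⟨g, rfl⟩
    exact ⟨f + g, R.H.map_add⟩

lemma exists_pe_of_not (hC : RationalUnit C) {M : C} (hC' : ¬ R.CPlus M) :
    pe R M ∉ KAlg R M := by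
  have hK := R_charZero R
  have h2 : (2 : K) ≠ 0 := two_ne_zero
  have hpar : R.par M ∉ KAlg R M := fun h => hC' (((main_tfae R hC M).out 0 1).2 h)
  intro h
  apply hpar
  have h3 : R.par M = (2 : K) • pe R M - 𝟙 _ := by
    rw [pe, smul_smul, mul_inv_cancel₀ h2, one_smul]
    abel
  rw [h3]
  refine sub_mem (Submodule.smul_mem _ _ h) ?_
  exact Submodule.subset_span ⟨𝟙 M, CategoryTheory.Functor.map_id R.H M⟩

/-- The dimension of the even part of the realisation. -/
noncomputable def evenDim (M : C) : ℕ := Module.finrank K (LinearMap.range (pe R M).hom)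

/-- The dimension of the odd part of the realisation. -/
noncomputable def oddDim (M : C) : ℕ := Module.finrank K (LinearMap.range (po R M).hom)

/-- The dimension of the part with `k` odd factors of the image of `e`. -/
noncomputable def oddRank {M : C} {n : ℕ} (e : End (tp M n)) (k : ℕ) : ℕ :=
  Module.finrank K (LinearMap.range (R.H.map e ≫ EE R M n k).hom)

/-- The type with `k` odd factors. -/
def oddTypeN (n k : ℕ) (b : Bool) : ℕ := if b then n - k else k

lemma EE_piece (h2 : (2 : K) ≠ 0) {M : C} {n k : ℕ} (hk : k ≤ n) (e : End (tp M n)) :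
    R.H.map e ≫ EE R M n (k : ℤ) = (evenOdd R h2 M).piece n (oddTypeN n k) e := by
  rw [EE_eq_typeProj R h2, Decomposition.piece]
  congr 2
  funext b
  cases b
  · rfl
  · simp [oddType, oddTypeN, Nat.cast_sub hk]

/-- **One algebraic combination of the pieces of one Young idempotent gives the sign conjecture.** -/
theorem cplus_of_comb (hC : RationalUnit C) {M : C} {n : ℕ} {e : End (tp M n)}
    (he : e ∈ Young M n) (f : ℕ → ℚ)
    (h : (∑ k ∈ Finset.range (n + 1), ((f k : ℚ) : K) • (R.H.map e ≫ EE R M n (k : ℤ))) ∈
      KAlg R (tp M n))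
    (h0 : ∑ k ∈ Finset.range (n + 1), (-1 : ℚ) ^ k * f k *
      (((n : ℚ) - k) * oddDim R M + k * evenDim R M) * oddRank R e k ≠ 0) : R.CPlus M := by
  have hK := R_charZero R
  have h2 : (2 : K) ≠ 0 := two_ne_zero
  by_contra hC'
  have hpe := exists_pe_of_not R hC hC'
  set D := evenOdd R h2 M with hD
  have hinj : Set.InjOn (oddTypeN n) (Finset.range (n + 1) : Set ℕ) := by
    intro a _ b _ hab
    exact congrFun hab false
  have hsumQ : ∀ g : (Bool → ℕ) → ℚ,
      ∑ m ∈ (Finset.range (n + 1)).image (oddTypeN n), g m =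
        ∑ k ∈ Finset.range (n + 1), g (oddTypeN n k) := fun g => Finset.sum_image hinj
  have h1 : (∑ m ∈ (Finset.range (n + 1)).image (oddTypeN n), ((f (m false) : ℚ) : K) •
      D.piece n m e) ∈ FAlg R ⊤ (tp M n) := by
    rw [falg_top, Finset.sum_image hinj]
    refine (Finset.sum_congr rfl fun k hk => ?_ : _ = (∑ k ∈ Finset.range (n + 1),
      ((f k : ℚ) : K) • (R.H.map e ≫ EE R M n (k : ℤ)))) ▸ h
    rw [EE_piece R h2 (by have := Finset.mem_range.1 hk; omega)]
    rfl
  have hcm := D.level_of_comb he _ (fun m => f (m false)) h1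
    (D.weight n e ((Finset.range (n + 1)).image (oddTypeN n)) (fun m => f (m false)) true)
  have hd2 : D.dim true ≠ 0 := by
    intro h
    have h3 : pe R M = 0 := D.proj_of_dim h
    apply hpe
    rw [h3]
    exact zero_mem _
  have hd1 : D.dim false ≠ 0 := by
    intro h
    have h3 : po R M = 0 := D.proj_of_dim h
    apply hpe
    have h4 : pe R M = 𝟙 _ := by rw [← pe_add_po R h2 M, h3, add_zero]
    rw [h4]
    exact Submodule.subset_span ⟨𝟙 M, CategoryTheory.Functor.map_id R.H M⟩
  have hsgn : ∀ k, k ≤ n → ((D.typeSgn fun i => ((oddTypeN n k i : ℕ) : ℤ) : ℤˣ) : ℤ) =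
      (-1) ^ k := by
    intro k _
    rw [Decomposition.typeSgn, Fintype.prod_bool]
    have e1 : D.sgn true = 1 := rfl
    have e2 : D.sgn false = -1 := rfl
    rw [e1, e2, one_zpow, one_mul]
    change (((-1 : ℤˣ) ^ ((k : ℕ) : ℤ) : ℤˣ) : ℤ) = (-1) ^ k
    rw [zpow_natCast]
    push_cast
    rfl
  have hwt : D.weight n e ((Finset.range (n + 1)).image (oddTypeN n)) (fun m => f (m false)) true =
      (∑ k ∈ Finset.range (n + 1), (-1 : ℚ) ^ k * f k * ((n : ℚ) - k) * oddRank R e k) /
        D.dim true := by
    rw [Decomposition.weight, hsumQ]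
    have e1 : D.sgn true = 1 := rfl
    rw [e1]
    congr 1
    rw [Units.val_one, Int.cast_one, one_mul]
    refine Finset.sum_congr rfl fun k hk => ?_
    have hk' : k ≤ n := by have := Finset.mem_range.1 hk; omega
    rw [hsgn k hk', Decomposition.rank, ← EE_piece R h2 hk']
    have e3 : ((oddTypeN n k true : ℕ) : ℚ) = (n : ℚ) - k := by
      change ((n - k : ℕ) : ℚ) = _
      rw [Nat.cast_sub hk']
    have e4 : oddTypeN n k false = k := rfl
    rw [e3, e4]
    push_cast
    rw [oddRank]
    ring
  have hwf : D.weight n e ((Finset.range (n + 1)).image (oddTypeN n)) (fun m => f (m false)) false =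
      -((∑ k ∈ Finset.range (n + 1), (-1 : ℚ) ^ k * f k * k * oddRank R e k) /
        D.dim false) := by
    rw [Decomposition.weight, hsumQ]
    have e1 : D.sgn false = -1 := rfl
    rw [e1, ← neg_div]
    congr 1
    rw [Units.val_neg, Units.val_one, Int.cast_neg, Int.cast_one, neg_one_mul]
    congr 1
    refine Finset.sum_congr rfl fun k hk => ?_
    have hk' : k ≤ n := by have := Finset.mem_range.1 hk; omega
    rw [hsgn k hk', Decomposition.rank, ← EE_piece R h2 hk']
    have e4 : oddTypeN n k false = k := rfl
    rw [e4]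
    push_cast
    rw [oddRank]
    ring
  apply h0
  have hp : (0 : ℚ) < D.dim true := by
    have : 0 < D.dim true := Nat.pos_of_ne_zero hd2
    exact_mod_cast this
  have hq : (0 : ℚ) < D.dim false := by
    have : 0 < D.dim false := Nat.pos_of_ne_zero hd1
    exact_mod_cast this
  by_contra hne
  have hdist : D.weight n e ((Finset.range (n + 1)).image (oddTypeN n)) (fun m => f (m false))
      false ≠ D.weight n e ((Finset.range (n + 1)).image (oddTypeN n)) (fun m => f (m false))
      true := by
    intro heq
    apply hne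
    rw [hwt, hwf] at heq
    have e5 : evenDim R M = D.dim true := rfl
    have e6 : oddDim R M = D.dim false := rfl
    rw [e5, e6]
    have h3 : (∑ k ∈ Finset.range (n + 1), (-1 : ℚ) ^ k * f k * ((n : ℚ) - k) * oddRank R e k) *
        D.dim false + (∑ k ∈ Finset.range (n + 1), (-1 : ℚ) ^ k * f k * k * oddRank R e k) *
        D.dim true = 0 := by
      have h4 := heq.symm
      rw [div_eq_iff hp.ne', neg_mul, div_mul_eq_mul_div] at h4
      rw [h4]
      field_simp
      ring
    rw [← h3, Finset.sum_mul, Finset.sum_mul, ← Finset.sum_add_distrib]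
    exact Finset.sum_congr rfl fun k _ => by ring
  rw [Finset.sum_eq_single true, falg_top] at hcm
  · exact hpe hcm
  · intro j hj hj1
    cases j
    · exact absurd (Finset.mem_filter.1 hj).2 hdist
    · exact absurd rfl hj1
  · intro hi
    simp at hi

/-- **One nonzero algebraic piece decides the sign conjecture.** -/
theorem cplus_tfae (hC : RationalUnit C) (M : C) (h0 : ¬ IsZero (R.H.obj M)) : List.TFAE [
    R.CPlus M,
    ∀ (n k : ℕ), ∀ e ∈ Young M n, ∃ f : tp M n ⟶ tp M n, R.H.map f = R.H.map e ≫ EE R M n k,
    ∃ (n k : ℕ), 1 ≤ n ∧ ∃ e ∈ Young M n, R.H.map e ≫ EE R M n k ≠ 0 ∧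
      R.H.map e ≫ EE R M n k ∈ KAlg R (tp M n)] := by
  have hK := R_charZero R
  have h2 : (2 : K) ≠ 0 := two_ne_zero
  have hcp : R.CPlus M → pe R M ∈ FAlg R ⊥ M := by
    intro h
    rw [cplus_iff] at h
    obtain ⟨g, hg⟩ := h
    have h3 : pe R M = R.H.map ((2 : ℚ)⁻¹ • (𝟙 M + g)) := by
      rw [R_smul, Functor.map_add, hg, CategoryTheory.Functor.map_id, pe]
      push_cast
      rfl
    rw [h3]
    exact falg_map _
  tfae_have 1 → 2 := by
    intro h n k e he
    apply exists_of_falg_bot
    refine falg_comp (falg_map e) ?_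
    rw [EE_eq_typeProj R h2]
    apply Decomposition.falg_typeProj
    intro b _
    cases b
    · have h3 : po R M = 𝟙 _ - pe R M := by rw [← pe_add_po R h2 M]; abel
      change po R M ∈ _
      rw [h3]
      exact sub_mem falg_one (hcp h)
    · exact hcp h
  tfae_have 2 → 3 := by
    intro h
    have hone : (1 : End (tp M 1)) ∈ Young M 1 := ⟨one_mem _, one_mul 1⟩
    have hmap : R.H.map (1 : End (tp M 1)) = 𝟙 _ := CategoryTheory.Functor.map_id R.H _
    have hsum : EE R M 1 ((0 : ℕ) : ℤ) + EE R M 1 ((1 : ℕ) : ℤ) = 𝟙 _ := by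
      have h3 := EE_one R h2 M 1
      rwa [Finset.sum_range_succ, Finset.sum_range_one] at h3
    have hne : 𝟙 (R.H.obj (tp M 1)) ≠ 0 := by
      intro h3
      apply h0
      refine IsZero.of_iso ?_ (R.H.mapIso (λ_ M)).symm
      exact (IsZero.iff_id_eq_zero _).2 h3
    have hex : ∃ k : ℕ, EE R M 1 (k : ℤ) ≠ 0 := by
      by_contra h3
      push Not at h3
      apply hne
      rw [← hsum, h3, h3, add_zero]
    obtain ⟨k, hk⟩ := hex
    refine ⟨1, k, le_refl 1, 1, hone, ?_, ?_⟩
    · rwa [hmap, Category.id_comp]
    · obtain ⟨f, hf⟩ := h 1 k 1 hone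
      rw [← hf]
      exact Submodule.subset_span ⟨f, rfl⟩
  tfae_have 3 → 1 := by
    rintro ⟨n, k, hn, e, he, hne, hmem⟩
    set D := evenOdd R h2 M with hD
    by_contra hC'
    have hpar : R.par M ∉ KAlg R M := fun h => hC' (((main_tfae R hC M).out 0 1).2 h)
    have hpe : pe R M ∉ KAlg R M := by
      intro h
      apply hpar
      have h3 : R.par M = (2 : K) • pe R M - 𝟙 _ := by
        rw [pe, smul_smul, mul_inv_cancel₀ h2, one_smul]
        abel
      rw [h3]
      refine sub_mem (Submodule.smul_mem _ _ h) ?_
      exact Submodule.subset_span ⟨𝟙 M, CategoryTheory.Functor.map_id R.H M⟩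
    have hk : k ≤ n := by
      by_contra hk
      apply hne
      rw [EE_gt R M n k (by omega), comp_zero]
    have hEE : R.H.map e ≫ EE R M n (k : ℤ) =
        D.piece n (fun b => if b then n - k else k) e := by
      rw [EE_eq_typeProj R h2, Decomposition.piece]
      congr 2
      funext b
      cases b
      · rfl
      · simp [oddType, Nat.cast_sub hk]
    rw [hEE] at hne hmem
    have h1 := D.level_of_piece (F := ⊤) he hne ((falg_top R).2 hmem)
      (D.ratio (fun b => if b then n - k else k) true)
    rw [D.level_single true rfl, falg_top] at h1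
    · exact hpe h1
    · intro j hj hj0 hr
      have hjf : j = false := by
        cases j
        · rfl
        · exact absurd rfl hj
      subst hjf
      have hd1 : D.dim false ≠ 0 := fun h => hj0 (D.proj_of_dim h)
      have hd2 : D.dim true ≠ 0 := by
        intro h
        have h3 : pe R M = 0 := D.proj_of_dim h
        apply hpe
        rw [h3]
        exact zero_mem _
      have e1 : D.ratio (fun b => if b then n - k else k) false = -((k : ℚ) / D.dim false) := by
        rw [Decomposition.ratio]
        have : D.sgn false = -1 := rfl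
        rw [this]
        simp [neg_div]
      have e2 : D.ratio (fun b => if b then n - k else k) true =
          ((n - k : ℕ) : ℚ) / D.dim true := by
        rw [Decomposition.ratio]
        have : D.sgn true = 1 := rfl
        rw [this]
        simp
      rw [e1, e2] at hr
      have p1 : (0 : ℚ) < D.dim false := by
        have : 0 < D.dim false := Nat.pos_of_ne_zero hd1
        exact_mod_cast this
      have p2 : (0 : ℚ) < D.dim true := by
        have : 0 < D.dim true := Nat.pos_of_ne_zero hd2
        exact_mod_cast this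
      have q1 : (0 : ℚ) ≤ (k : ℚ) / D.dim false := by positivity
      have q2 : (0 : ℚ) ≤ ((n - k : ℕ) : ℚ) / D.dim true := by positivity
      have z1 : (k : ℚ) / D.dim false = 0 := by linarith
      have z2 : ((n - k : ℕ) : ℚ) / D.dim true = 0 := by linarith
      rw [div_eq_zero_iff] at z1 z2
      have w1 : (k : ℚ) = 0 := z1.resolve_right p1.ne'
      have w2 : ((n - k : ℕ) : ℚ) = 0 := z2.resolve_right p2.ne'
      have w3 : k = 0 := by exact_mod_cast w1
      have w4 : n - k = 0 := by exact_mod_cast w2
      omega
  tfae_finish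

end

end Q56.PC
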