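import Pool.Agent.Q56.PC.Word

/-!
# Exterior and symmetric powers
-/

set_option autoImplicit false
set_option linter.unusedSectionVars false
set_option linter.unusedSimpArgs false
set_option backward.isDefEq.respectTransparency false
set_option backward.defeqAttrib.useBackward true

open CategoryTheory Limits MonoidalCategory
open Pool.Agent.Y112.SR Pool.Agent.Y112.KD Pool.Agent.Y112.SC Q20.Cp

namespace Q56.PC

universe v u w

open Functor.LaxMonoidal Functor.OplaxMonoidal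

section

variable {C : Type u} [Category.{v} C] [Preadditive C] [Linear ℚ C] [MonoidalCategory C]
  [MonoidalPreadditive C] [MonoidalLinear ℚ C] [SymmetricCategory C]
  [RightRigidCategory C] {K : Type w} [Field K]

/-- The operator on `H(M ^ n)` which is `f k` on the tensors with exactly `k` odd factors. -/
noncomputable def oddOp (R : SuperRealisation C K) (M : C) : ∀ n : ℕ, (ℕ → K) →
    (R.H.obj (tp M n) ⟶ R.H.obj (tp M n))
  | 0, f => f 0 • 𝟙 _
  | n + 1, f => bx R (oddOp R M n f) (pe R M) + bx R (oddOp R M n fun k => f (k + 1)) (po R M)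

/-- The (anti)symmetrizer in the realisation. -/
noncomputable def sy (R : SuperRealisation C K) (M : C) (η : ℚ) (n : ℕ) :
    R.H.obj (tp M n) ⟶ R.H.obj (tp M n) := R.H.map (asym η M n)

variable {R : SuperRealisation C K} {M : C}

lemma oddOp_zero (f : ℕ → K) : oddOp R M 0 f = f 0 • 𝟙 _ := rfl

lemma oddOp_succ (n : ℕ) (f : ℕ → K) : oddOp R M (n + 1) f =
    bx R (oddOp R M n f) (pe R M) + bx R (oddOp R M n fun k => f (k + 1)) (po R M) := rfl

lemma oddOp_add (n : ℕ) (f g : ℕ → K) :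
    oddOp R M n (fun k => f k + g k) = oddOp R M n f + oddOp R M n g := by
  induction n generalizing f g with
  | zero => simp only [oddOp_zero, add_smul]
  | succ n ih =>
    rw [oddOp_succ, oddOp_succ, oddOp_succ, ih, ih fun k => f (k + 1), bx_add_left, bx_add_left]
    abel

lemma oddOp_smul (n : ℕ) (c : K) (f : ℕ → K) :
    oddOp R M n (fun k => c * f k) = c • oddOp R M n f := by
  induction n generalizing f with
  | zero => simp only [oddOp_zero, smul_smul]
  | succ n ih =>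
    rw [oddOp_succ, oddOp_succ, ih, ih fun k => f (k + 1), bx_smul_left, bx_smul_left, smul_add]

lemma oddOp_comp (h2 : (2 : K) ≠ 0) (n : ℕ) (f g : ℕ → K) :
    oddOp R M n f ≫ oddOp R M n g = oddOp R M n fun k => f k * g k := by
  induction n generalizing f g with
  | zero => simp only [oddOp_zero, Linear.smul_comp, Category.id_comp, smul_smul]
  | succ n ih =>
    rw [oddOp_succ, oddOp_succ, oddOp_succ, Preadditive.add_comp, Preadditive.comp_add,
      Preadditive.comp_add, bx_comp, bx_comp, bx_comp, bx_comp, pe_pe R h2, po_po R h2, pe_po,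
      po_pe, bx_zero_right, bx_zero_right, ih, ih, add_zero, zero_add]

lemma oddOp_const (h2 : (2 : K) ≠ 0) (n : ℕ) (c : K) :
    oddOp R M n (fun _ => c) = c • 𝟙 _ := by
  induction n with
  | zero => rfl
  | succ n ih =>
    rw [oddOp_succ, ih, ← bx_add_right, pe_add_po R h2, bx_smul_left, bx_one]

lemma pe_box (h2 : (2 : K) ≠ 0) : (evenOdd R h2 M).Box (pe R M) :=
  (evenOdd R h2 M).box_proj true

lemma po_box (h2 : (2 : K) ≠ 0) : (evenOdd R h2 M).Box (po R M) :=
  (evenOdd R h2 M).box_proj false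

/-- Exchanges commute with the number of odd factors. -/
lemma oddOp_Sg (h2 : (2 : K) ≠ 0) (n : ℕ) (f : ℕ → K) :
    Sg R M n ≫ oddOp R M (n + 2) f = oddOp R M (n + 2) f ≫ Sg R M n := by
  have hB := (evenOdd R h2 M).boxClass
  have h1 : ∀ a : R.H.obj (tp M n) ⟶ R.H.obj (tp M n),
      bx R (bx R a (pe R M)) (pe R M) ≫ Sg R M n =
        Sg R M n ≫ bx R (bx R a (pe R M)) (pe R M) :=
    fun a => Sg_natB h2 hB a (pe_box h2) (pe_box h2)
  have h3 : ∀ a : R.H.obj (tp M n) ⟶ R.H.obj (tp M n),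
      bx R (bx R a (po R M)) (po R M) ≫ Sg R M n =
        Sg R M n ≫ bx R (bx R a (po R M)) (po R M) :=
    fun a => Sg_natB h2 hB a (po_box h2) (po_box h2)
  have h4 : ∀ a : R.H.obj (tp M n) ⟶ R.H.obj (tp M n),
      bx R (bx R a (pe R M)) (po R M) ≫ Sg R M n =
        Sg R M n ≫ bx R (bx R a (po R M)) (pe R M) :=
    fun a => Sg_natB h2 hB a (pe_box h2) (po_box h2)
  have h5 : ∀ a : R.H.obj (tp M n) ⟶ R.H.obj (tp M n),
      bx R (bx R a (po R M)) (pe R M) ≫ Sg R M n =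
        Sg R M n ≫ bx R (bx R a (pe R M)) (po R M) :=
    fun a => Sg_natB h2 hB a (po_box h2) (pe_box h2)
  have e1 : oddOp R M (n + 2) f = bx R (bx R (oddOp R M n f) (pe R M)) (pe R M) +
      bx R (bx R (oddOp R M n fun k => f (k + 1)) (po R M)) (pe R M) +
      (bx R (bx R (oddOp R M n fun k => f (k + 1)) (pe R M)) (po R M) +
      bx R (bx R (oddOp R M n fun k => f (k + 1 + 1)) (po R M)) (po R M)) := by
    rw [oddOp_succ, oddOp_succ, oddOp_succ, bx_add_left, bx_add_left]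
  rw [e1]
  simp only [Preadditive.add_comp, Preadditive.comp_add, h1, h3, h4, h5]
  abel

lemma sy_zero (η : ℚ) : sy R M η 0 = 𝟙 _ := CategoryTheory.Functor.map_id R.H _

lemma sy_one (η : ℚ) : sy R M η 1 = 𝟙 _ := CategoryTheory.Functor.map_id R.H _

lemma sy_succ (η : ℚ) (n : ℕ) : sy R M η (n + 2) = (((((n + 1 : ℕ) : ℚ) + 1)⁻¹ : ℚ) : K) •
    (bx R (sy R M η (n + 1)) (𝟙 (R.H.obj M)) + ((η * ((n + 1 : ℕ) : ℚ) : ℚ) : K) •
      (bx R (sy R M η (n + 1)) (𝟙 (R.H.obj M)) ≫ Sg R M n ≫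
        bx R (sy R M η (n + 1)) (𝟙 (R.H.obj M)))) := by
  have hK := R_charZero R
  have h1 : R.H.map (asym η M (n + 1) ▷ M) = bx R (sy R M η (n + 1)) (𝟙 (R.H.obj M)) :=
    map_whiskerRight_eq R _
  rw [sy, asym_succ]
  refine (R_smul R _ _).trans ?_
  congr 1
  refine R.H.map_add.trans ?_
  rw [h1]
  congr 1
  refine (R_smul R _ _).trans ?_
  rw [Functor.map_comp, Functor.map_comp, h1]
  rfl

lemma sy_idem {η : ℚ} (hη : η * η = 1) (n : ℕ) : sy R M η n ≫ sy R M η n = sy R M η n := by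
  rw [sy, ← Functor.map_comp, asym_idem hη]

lemma sy_absorb {η : ℚ} (hη : η * η = 1) (n : ℕ) :
    bx R (sy R M η n) (𝟙 (R.H.obj M)) ≫ sy R M η (n + 1) = sy R M η (n + 1) ∧
    sy R M η (n + 1) ≫ bx R (sy R M η n) (𝟙 (R.H.obj M)) = sy R M η (n + 1) := by
  obtain ⟨h1, h2⟩ := absorb hη M n
  have h3 : R.H.map (asym η M n ▷ M) = bx R (sy R M η n) (𝟙 (R.H.obj M)) :=
    map_whiskerRight_eq R _
  constructor
  · rw [← h3, sy, ← Functor.map_comp, h1]
  · rw [← h3, sy, ← Functor.map_comp, h2]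

lemma sy_Sg {η : ℚ} (hη : η * η = 1) (n : ℕ) :
    Sg R M n ≫ sy R M η (n + 2) = (η : K) • sy R M η (n + 2) ∧
    sy R M η (n + 2) ≫ Sg R M n = (η : K) • sy R M η (n + 2) := by
  have hK := R_charZero R
  obtain ⟨-, -, h1, h2⟩ := asym_main hη M n
  constructor
  · have h3 := congrArg R.H.map h1
    rw [Functor.map_comp, R_smul] at h3
    exact h3
  · have h3 := congrArg R.H.map h2
    rw [Functor.map_comp, R_smul] at h3
    exact h3

lemma bx_oddOp {n : ℕ} {a : R.H.obj (tp M n) ⟶ R.H.obj (tp M n)}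
    (h : ∀ f : ℕ → K, a ≫ oddOp R M n f = oddOp R M n f ≫ a) (f : ℕ → K) :
    bx R a (𝟙 (R.H.obj M)) ≫ oddOp R M (n + 1) f =
      oddOp R M (n + 1) f ≫ bx R a (𝟙 (R.H.obj M)) := by
  rw [oddOp_succ, Preadditive.comp_add, Preadditive.add_comp, bx_comp, bx_comp, bx_comp, bx_comp,
    h, h]
  simp only [Category.id_comp, Category.comp_id]

lemma sy_comm (h2 : (2 : K) ≠ 0) (η : ℚ) (n : ℕ) (f : ℕ → K) :
    sy R M η n ≫ oddOp R M n f = oddOp R M n f ≫ sy R M η n := by
  induction n generalizing f with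
  | zero => rw [sy_zero, Category.id_comp, Category.comp_id]
  | succ n ih =>
    rcases n with _ | n
    · rw [sy_one]
      exact (Category.id_comp _).trans (Category.comp_id _).symm
    · have h3 := bx_oddOp ih f
      have h4 := oddOp_Sg (R := R) (M := M) h2 n f
      rw [sy_succ, Linear.smul_comp, Linear.comp_smul, Preadditive.add_comp,
        Preadditive.comp_add, Linear.smul_comp, Linear.comp_smul, h3]
      congr 3
      simp only [Category.assoc]
      rw [h3, reassoc_of% h4, reassoc_of% h3]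

/-- The average position of an odd factor. -/
lemma sy_avg {η : ℚ} (hη : η * η = 1) (n : ℕ) :
    ((n + 1 : ℕ) : K) • (sy R M η (n + 1) ≫ bx R (𝟙 (R.H.obj (tp M n))) (po R M) ≫
      sy R M η (n + 1)) = sy R M η (n + 1) ≫ oddOp R M (n + 1) fun k => (k : K) := by
  have hK := R_charZero R
  have h2 : (2 : K) ≠ 0 := two_ne_zero
  have hη' : (η : K) * η = 1 := by exact_mod_cast congrArg (fun q : ℚ => (q : K)) hη
  have hstep : ∀ n : ℕ, oddOp R M (n + 1) (fun k => (k : K)) =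
      bx R (oddOp R M n fun k => (k : K)) (𝟙 (R.H.obj M)) +
        bx R (𝟙 (R.H.obj (tp M n))) (po R M) := by
    intro n
    have h3 : (oddOp R M n fun k => ((k + 1 : ℕ) : K)) =
        (oddOp R M n fun k => (k : K)) + 𝟙 _ := by
      have h4 := oddOp_add (R := R) (M := M) n (fun k => (k : K)) (fun _ => 1)
      rw [oddOp_const h2, one_smul] at h4
      rw [← h4]
      congr 1
      funext k
      push_cast
      rfl
    rw [oddOp_succ, h3, bx_add_left, ← pe_add_po R h2 M, bx_add_right]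
    abel
  induction n with
  | zero =>
    rw [hstep, sy_one]
    have h3 : (oddOp R M 0 fun k => (k : K)) = 0 := by
      rw [oddOp_zero, Nat.cast_zero, zero_smul]
    have h4 : ((0 + 1 : ℕ) : K) = 1 := by norm_num
    rw [h3, bx_zero_left, zero_add (bx R (𝟙 (R.H.obj (tp M 0))) (po R M)), h4, one_smul]
    rw [← Category.assoc]
    exact Category.comp_id _
  | succ n ih =>
    obtain ⟨a1, a2⟩ := sy_absorb (R := R) (M := M) hη (n + 1)
    obtain ⟨b1, b2⟩ := sy_Sg (R := R) (M := M) hη n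
    have hid := sy_idem (R := R) (M := M) hη (n + 2)
    have hid' := sy_idem (R := R) (M := M) hη (n + 1)
    have hc := sy_comm (R := R) (M := M) h2 η (n + 1 + 1) fun k => (k : K)
    have hc' := sy_comm (R := R) (M := M) h2 η (n + 1) fun k => (k : K)
    have e0 : sy R M η (n + 1 + 1) ≫ (oddOp R M (n + 1 + 1) fun k => (k : K)) =
        sy R M η (n + 1 + 1) ≫ (oddOp R M (n + 1 + 1) fun k => (k : K)) ≫
          sy R M η (n + 1 + 1) := by
      rw [← hc, ← Category.assoc, hid]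
    have e1 : sy R M η (n + 1 + 1) ≫
        bx R (oddOp R M (n + 1) fun k => (k : K)) (𝟙 (R.H.obj M)) ≫ sy R M η (n + 1 + 1) =
        ((n + 1 : ℕ) : K) • (sy R M η (n + 1 + 1) ≫
          bx R (𝟙 (R.H.obj (tp M (n + 1)))) (po R M) ≫ sy R M η (n + 1 + 1)) := by
      have f1 : sy R M η (n + 1) ≫ (oddOp R M (n + 1) fun k => (k : K)) ≫ sy R M η (n + 1) =
          ((n + 1 : ℕ) : K) • (sy R M η (n + 1) ≫ bx R (𝟙 (R.H.obj (tp M n))) (po R M) ≫
            sy R M η (n + 1)) := by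
        rw [ih, ← hc', ← Category.assoc, hid']
      have f2 : bx R (sy R M η (n + 1)) (𝟙 (R.H.obj M)) ≫
          bx R (oddOp R M (n + 1) fun k => (k : K)) (𝟙 (R.H.obj M)) ≫
          bx R (sy R M η (n + 1)) (𝟙 (R.H.obj M)) =
          ((n + 1 : ℕ) : K) • (bx R (sy R M η (n + 1)) (𝟙 (R.H.obj M)) ≫
            bx R (bx R (𝟙 (R.H.obj (tp M n))) (po R M)) (𝟙 (R.H.obj M)) ≫
            bx R (sy R M η (n + 1)) (𝟙 (R.H.obj M))) := by
        rw [bx_comp, bx_comp, bx_comp, bx_comp, f1, ← bx_smul_left]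
      have f3 : bx R (bx R (𝟙 (R.H.obj (tp M n))) (po R M)) (𝟙 (R.H.obj M)) =
          Sg R M n ≫ bx R (𝟙 (R.H.obj (tp M (n + 1)))) (po R M) ≫ Sg R M n := by
        have g1 := Sg_natB (R := R) (X := M) h2 (evenOdd R h2 M).boxClass (n := n)
          (𝟙 (R.H.obj (tp M n))) (evenOdd R h2 M).boxClass.one (po_box h2)
        have g2 : bx R (𝟙 (R.H.obj (tp M n))) (𝟙 (R.H.obj M)) = 𝟙 (R.H.obj (tp M (n + 1))) :=
          bx_one R (tp M n) M
        rw [g2] at g1
        rw [g1, ← Category.assoc, Sg_Sg, Category.id_comp]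
      have f4 : sy R M η (n + 1 + 1) ≫
          bx R (oddOp R M (n + 1) fun k => (k : K)) (𝟙 (R.H.obj M)) ≫ sy R M η (n + 1 + 1) =
          sy R M η (n + 1 + 1) ≫ (bx R (sy R M η (n + 1)) (𝟙 (R.H.obj M)) ≫
          bx R (oddOp R M (n + 1) fun k => (k : K)) (𝟙 (R.H.obj M)) ≫
          bx R (sy R M η (n + 1)) (𝟙 (R.H.obj M))) ≫ sy R M η (n + 1 + 1) := by
        simp only [Category.assoc]
        rw [a1, reassoc_of% a2]
      rw [f4, f2, f3, Linear.smul_comp, Linear.comp_smul]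
      congr 1
      simp only [Category.assoc]
      rw [a1, reassoc_of% a2]
      have b1' : Sg R M n ≫ sy R M η (n + 1 + 1) = (η : K) • sy R M η (n + 1 + 1) := b1
      have b2' : sy R M η (n + 1 + 1) ≫ Sg R M n = (η : K) • sy R M η (n + 1 + 1) := b2
      rw [b1', ← Category.assoc, b2', Linear.smul_comp, Linear.comp_smul, Linear.comp_smul,
        smul_smul, hη', one_smul]
    rw [e0, hstep, Preadditive.add_comp, Preadditive.comp_add, e1]
    have e2 : ((n + 1 + 1 : ℕ) : K) = ((n + 1 : ℕ) : K) + 1 := by push_cast; rfl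
    rw [e2, add_smul, one_smul]

lemma trace_pe (h2 : (2 : K) ≠ 0) :
    LinearMap.trace K (R.H.obj M) (pe R M ≫ R.par M).hom = (evenDim R M : K) := by
  have h := (evenOdd R h2 M).trace_par true
  have h3 : (evenOdd R h2 M).sdim true = (evenDim R M : ℤ) := by
    have h4 : (evenOdd R h2 M).sgn true = 1 := rfl
    rw [Decomposition.sdim, h4, Units.val_one, one_mul]
    rfl
  rw [h3] at h
  push_cast at h
  exact h

lemma trace_po (h2 : (2 : K) ≠ 0) :
    LinearMap.trace K (R.H.obj M) (po R M ≫ R.par M).hom = -(oddDim R M : K) := by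
  have h := (evenOdd R h2 M).trace_par false
  have h3 : (evenOdd R h2 M).sdim false = -(oddDim R M : ℤ) := by
    have h4 : (evenOdd R h2 M).sgn false = -1 := rfl
    rw [Decomposition.sdim, h4, Units.val_neg, Units.val_one, neg_one_mul]
    rfl
  rw [h3] at h
  push_cast at h
  exact h

lemma PT_oddOp (n : ℕ) (f : ℕ → K) : PT R (oddOp R M (n + 1) f) =
    oddOp R M n fun k => (evenDim R M : K) * f k - (oddDim R M : K) * f (k + 1) := by
  have hK := R_charZero R
  have h2 : (2 : K) ≠ 0 := two_ne_zero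
  rw [oddOp_succ]
  refine (PT_add R _ _).trans ?_
  rw [PT_bx R h2, PT_bx R h2, trace_pe h2, trace_po h2]
  have h3 : (fun k => (evenDim R M : K) * f k - (oddDim R M : K) * f (k + 1)) =
      fun k => (evenDim R M : K) * f k + (-(oddDim R M : K)) * f (k + 1) := by
    funext k
    ring
  rw [h3, oddOp_add, oddOp_smul, oddOp_smul n _ fun k => f (k + 1)]

lemma PT_Sg_oddOp (n : ℕ) (f : ℕ → K) : PT R (Sg R M n ≫ oddOp R M (n + 2) f) =
    bx R (𝟙 (R.H.obj (tp M n))) (pe R M) ≫ oddOp R M (n + 1) f +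
      bx R (𝟙 (R.H.obj (tp M n))) (po R M) ≫ oddOp R M (n + 1) fun k => f (k + 1) := by
  have hK := R_charZero R
  have h2 : (2 : K) ≠ 0 := two_ne_zero
  have key : ∀ (a : R.H.obj (tp M (n + 1)) ⟶ R.H.obj (tp M (n + 1)))
      (b : R.H.obj M ⟶ R.H.obj M), (evenOdd R h2 M).Box b →
      PT R (Sg R M n ≫ bx R a b) = bx R (𝟙 (R.H.obj (tp M n))) b ≫ a := by
    intro a b hb
    have g1 := Sg_natB (R := R) (X := M) h2 (evenOdd R h2 M).boxClass (n := n)
      (𝟙 (R.H.obj (tp M n))) hb (evenOdd R h2 M).boxClass.one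
    have g2 : bx R (𝟙 (R.H.obj (tp M n))) (𝟙 (R.H.obj M)) = 𝟙 (R.H.obj (tp M (n + 1))) :=
      bx_one R (tp M n) M
    rw [g2] at g1
    have g3 : bx R a b = bx R (𝟙 (R.H.obj (tp M (n + 1)))) b ≫ bx R a (𝟙 (R.H.obj M)) := by
      rw [bx_comp, Category.id_comp, Category.comp_id]
    have g4 : Sg R M n ≫ bx R a b = bx R (bx R (𝟙 (R.H.obj (tp M n))) b) (𝟙 (R.H.obj M)) ≫
        Sg R M n ≫ bx R a (𝟙 (R.H.obj M)) := by
      rw [g3, ← Category.assoc, ← g1, Category.assoc]
    rw [g4]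
    have g5 := PT_comp R (bx R (𝟙 (R.H.obj (tp M n))) b) a (Sg R M n)
    have g6 : PT R (Sg R M n) = 𝟙 _ := PT_sw R _ _
    rw [g6, Category.id_comp] at g5
    exact g5
  rw [oddOp_succ, Preadditive.comp_add]
  refine (PT_add R _ _).trans ?_
  rw [key _ _ (pe_box h2), key _ _ (po_box h2)]

/-- The coefficients of the partial trace. -/
def nextF (p q η : K) (n : ℕ) (f : ℕ → K) (k : ℕ) : K :=
  p * f k - q * f (k + 1) + η * (((n + 1 : ℕ) - k : K) * f k + k * f (k + 1))

/-- The partial trace of an operator on an exterior or symmetric power. -/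
lemma PT_sy_oddOp {η : ℚ} (hη : η * η = 1) (n : ℕ) (f : ℕ → K) :
    PT R (sy R M η (n + 2) ≫ oddOp R M (n + 2) f) =
      (((((n + 1 : ℕ) : ℚ) + 1)⁻¹ : ℚ) : K) • (sy R M η (n + 1) ≫ oddOp R M (n + 1)
        (nextF (evenDim R M) (oddDim R M) η n f)) := by
  have hK := R_charZero R
  have h2 : (2 : K) ≠ 0 := two_ne_zero
  set S := sy R M η (n + 1) with hS
  have hcomm : ∀ g, S ≫ oddOp R M (n + 1) g = oddOp R M (n + 1) g ≫ S := sy_comm h2 η (n + 1)
  have hid : S ≫ S = S := sy_idem hη (n + 1)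
  have hbx : bx R S (𝟙 (R.H.obj M)) ≫ oddOp R M (n + 2) f =
      oddOp R M (n + 2) f ≫ bx R S (𝟙 (R.H.obj M)) := bx_oddOp hcomm f
  have e1 : sy R M η (n + 2) ≫ oddOp R M (n + 2) f = (((((n + 1 : ℕ) : ℚ) + 1)⁻¹ : ℚ) : K) •
      (bx R S (𝟙 (R.H.obj M)) ≫ oddOp R M (n + 2) f + ((η * ((n + 1 : ℕ) : ℚ) : ℚ) : K) •
        (bx R S (𝟙 (R.H.obj M)) ≫ (Sg R M n ≫ oddOp R M (n + 2) f) ≫
          bx R S (𝟙 (R.H.obj M)))) := by
    rw [sy_succ, Linear.smul_comp, Preadditive.add_comp, Linear.smul_comp]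
    simp only [Category.assoc]
    rw [← hS, hbx]
  have e2 : PT R (bx R S (𝟙 (R.H.obj M)) ≫ oddOp R M (n + 2) f) =
      S ≫ oddOp R M (n + 1) fun k => (evenDim R M : K) * f k - (oddDim R M : K) * f (k + 1) := by
    have g1 := PT_left R S (oddOp R M (n + 2) f)
    have g2 := PT_oddOp (R := R) (M := M) (n + 1) f
    exact g1.trans (congrArg (fun z => S ≫ z) g2)
  have e3 : PT R (bx R S (𝟙 (R.H.obj M)) ≫ (Sg R M n ≫ oddOp R M (n + 2) f) ≫
      bx R S (𝟙 (R.H.obj M))) =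
      (S ≫ bx R (𝟙 (R.H.obj (tp M n))) (pe R M) ≫ S) ≫ oddOp R M (n + 1) f +
        (S ≫ bx R (𝟙 (R.H.obj (tp M n))) (po R M) ≫ S) ≫
          oddOp R M (n + 1) fun k => f (k + 1) := by
    have g1 := PT_comp R S S (Sg R M n ≫ oddOp R M (n + 2) f)
    have g2 := PT_Sg_oddOp (R := R) (M := M) n f
    refine (g1.trans (congrArg (fun z => S ≫ z ≫ S) g2)).trans ?_
    rw [Preadditive.add_comp, Preadditive.comp_add]
    simp only [Category.assoc]
    rw [hcomm, hcomm]
  have e4 : ((n + 1 : ℕ) : K) • (S ≫ bx R (𝟙 (R.H.obj (tp M n))) (po R M) ≫ S) =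
      S ≫ oddOp R M (n + 1) fun k => (k : K) := sy_avg hη n
  have e5 : ((n + 1 : ℕ) : K) • (S ≫ bx R (𝟙 (R.H.obj (tp M n))) (pe R M) ≫ S) =
      S ≫ oddOp R M (n + 1) fun k => ((n + 1 : ℕ) : K) - k := by
    have g1 : bx R (𝟙 (R.H.obj (tp M n))) (pe R M) =
        𝟙 _ - bx R (𝟙 (R.H.obj (tp M n))) (po R M) := by
      have g2 : bx R (𝟙 (R.H.obj (tp M n))) (𝟙 (R.H.obj M)) = 𝟙 (R.H.obj (tp M (n + 1))) :=
        bx_one R (tp M n) M
      rw [← g2, ← pe_add_po R h2 M, bx_add_right]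
      abel
    have g3 : (oddOp R M (n + 1) fun k => ((n + 1 : ℕ) : K) - k) =
        ((n + 1 : ℕ) : K) • 𝟙 _ - oddOp R M (n + 1) fun k => (k : K) := by
      have g4 := oddOp_add (R := R) (M := M) (n + 1) (fun k => ((n + 1 : ℕ) : K) - k)
        (fun k => (k : K))
      simp only [sub_add_cancel] at g4
      rw [oddOp_const h2] at g4
      rw [g4]
      abel
    rw [g1, g3, Preadditive.sub_comp, Preadditive.comp_sub, Preadditive.comp_sub,
      Category.id_comp, hid, smul_sub, e4, Linear.comp_smul, Category.comp_id]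
  have e6 : PT R (bx R S (𝟙 (R.H.obj M)) ≫ oddOp R M (n + 2) f +
      ((η * ((n + 1 : ℕ) : ℚ) : ℚ) : K) • (bx R S (𝟙 (R.H.obj M)) ≫
        (Sg R M n ≫ oddOp R M (n + 2) f) ≫ bx R S (𝟙 (R.H.obj M)))) =
      S ≫ oddOp R M (n + 1) (nextF (evenDim R M) (oddDim R M) η n f) := by
    refine (PT_add R _ _).trans ?_
    have g1 := PT_smul R (((η * ((n + 1 : ℕ) : ℚ) : ℚ) : K)) (bx R S (𝟙 (R.H.obj M)) ≫
      (Sg R M n ≫ oddOp R M (n + 2) f) ≫ bx R S (𝟙 (R.H.obj M)))
    rw [g1, e2, e3]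
    have g2 : ((η * ((n + 1 : ℕ) : ℚ) : ℚ) : K) = (η : K) * ((n + 1 : ℕ) : K) := by
      push_cast
      rfl
    have e7 : ((n + 1 : ℕ) : K) • ((S ≫ bx R (𝟙 (R.H.obj (tp M n))) (pe R M) ≫ S) ≫
        oddOp R M (n + 1) f) =
        S ≫ oddOp R M (n + 1) fun k => (((n + 1 : ℕ) : K) - k) * f k := by
      rw [← Linear.smul_comp, e5, Category.assoc, oddOp_comp h2]
    have e8 : ((n + 1 : ℕ) : K) • ((S ≫ bx R (𝟙 (R.H.obj (tp M n))) (po R M) ≫ S) ≫
        oddOp R M (n + 1) fun k => f (k + 1)) =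
        S ≫ oddOp R M (n + 1) fun k => (k : K) * f (k + 1) := by
      rw [← Linear.smul_comp, e4, Category.assoc, oddOp_comp h2]
    rw [g2, mul_smul, smul_add, e7, e8]
    have g3 : nextF (evenDim R M : K) (oddDim R M) η n f = fun k =>
        ((evenDim R M : K) * f k - (oddDim R M : K) * f (k + 1)) +
          (η : K) * ((((n + 1 : ℕ) : K) - k) * f k + (k : K) * f (k + 1)) := by
      funext k
      rw [nextF]
    rw [g3, oddOp_add, oddOp_smul, oddOp_add, Preadditive.comp_add, Linear.comp_smul,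
      Preadditive.comp_add]
  rw [e1]
  refine (PT_smul R _ _).trans ?_
  rw [e6]

end

end Q56.PC
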