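import Mathlib

/-!
# The coefficients of the partial traces of operators on exterior and symmetric powers
-/

set_option autoImplicit false

namespace Q56.PC

/-- For `s = -1` (exterior powers): there are tensors with `k` odd factors in the `n`-th exterior
power of a super vector space of dimension `p | q`, `0 < q`. For `s = 1`: the same for symmetric
powers, `0 < p`. -/
def Occ (s : ℤ) (p q n k : ℕ) : Prop :=
  k ≤ n ∧ (s = 1 → k ≤ q) ∧ (s = -1 → n ≤ k + p)

/-- The coefficients of the partial trace. -/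
def nextZ (s : ℤ) (p q n : ℕ) (χ : ℕ → ℤ) (k : ℕ) : ℤ :=
  p * χ k - q * χ (k + 1) + s * (((n + 1 : ℕ) - k : ℤ) * χ k + k * χ (k + 1))

lemma adjacent {P : ℕ → Prop} (hP : ∀ a b c, a ≤ b → b ≤ c → P a → P c → P b) {χ : ℕ → ℤ}
    {k l : ℕ} (hk : P k) (hl : P l) (h : χ k ≠ χ l) : ∃ j, P j ∧ P (j + 1) ∧ χ j ≠ χ (j + 1) := by
  wlog hkl : k ≤ l generalizing k l
  · exact this hl hk (Ne.symm h) (by omega)
  by_contra hcon
  push Not at hcon
  have key : ∀ m, k ≤ m → m ≤ l → χ m = χ k := by
    intro m hm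
    induction m, hm using Nat.le_induction with
    | base => intro _; rfl
    | succ m hm ih =>
      intro hml
      rw [← hcon m (hP k m l hm (by omega) hk hl) (hP k (m + 1) l (by omega) hml hk hl)]
      exact ih (by omega)
  exact h (key l hkl le_rfl).symm

lemma int_core (s : ℤ) (hs : s = 1 ∨ s = -1) (p q n : ℕ) (hp : 0 < p) (hq : 0 < q) (χ : ℕ → ℤ)
    (h01 : ∀ k, χ k = 0 ∨ χ k = 1) {k l : ℕ} (hk : Occ s p q (n + 2) k)
    (hl : Occ s p q (n + 2) l) (h : χ k ≠ χ l) :
    ∃ a b, Occ s p q (n + 1) a ∧ Occ s p q (n + 1) b ∧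
      nextZ s p q n χ a ≠ nextZ s p q n χ b := by
  obtain ⟨j, hj, hj', hne⟩ := adjacent (P := Occ s p q (n + 2)) (by
    rintro a b c hab hbc ⟨a1, a2, a3⟩ ⟨c1, c2, c3⟩
    refine ⟨by omega, fun hs => ?_, fun hs => ?_⟩
    · have := c2 hs
      omega
    · have := a3 hs
      omega) hk hl h
  by_contra hcon
  push Not at hcon
  rcases hs with rfl | rfl
  · obtain ⟨a1, a2, -⟩ := hj
    obtain ⟨b1, b2, -⟩ := hj'
    have a2 := a2 rfl
    have b2 := b2 rfl
    have hOj : Occ 1 p q (n + 1) j := ⟨by omega, fun _ => a2, fun h => by omega⟩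
    by_cases hjn : j + 1 ≤ n + 1
    · have hOj1 : Occ 1 p q (n + 1) (j + 1) := ⟨hjn, fun _ => b2, fun h => by omega⟩
      have e := hcon j (j + 1) hOj hOj1
      rw [nextZ, nextZ] at e
      rcases h01 j with h0 | h0 <;> rcases h01 (j + 1) with h1 | h1 <;>
        rcases h01 (j + 1 + 1) with h2 | h2 <;> rw [h0, h1] at hne <;> rw [h0, h1, h2] at e <;>
        push_cast at e <;> omega
    · have hjn' : j = n + 1 := by omega
      subst hjn'
      have hOj1 : Occ 1 p q (n + 1) n := ⟨by omega, fun _ => by omega, fun h => by omega⟩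
      have e := hcon (n + 1) n hOj hOj1
      rw [nextZ, nextZ] at e
      rcases h01 n with h0 | h0 <;> rcases h01 (n + 1) with h1 | h1 <;>
        rcases h01 (n + 1 + 1) with h2 | h2 <;> rw [h1, h2] at hne <;> rw [h0, h1, h2] at e <;>
        push_cast at e <;> omega
  · obtain ⟨a1, -, a2⟩ := hj
    obtain ⟨b1, -, b2⟩ := hj'
    have a2 := a2 rfl
    have b2 := b2 rfl
    have hOj : Occ (-1) p q (n + 1) j := ⟨by omega, fun h => by omega, fun _ => by omega⟩
    rcases j with _ | j
    · have hOj1 : Occ (-1) p q (n + 1) 1 := ⟨by omega, fun h => by omega, fun _ => by omega⟩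
      have e := hcon 0 1 hOj hOj1
      rw [nextZ, nextZ] at e
      rcases h01 0 with h0 | h0 <;> rcases h01 (0 + 1) with h1 | h1 <;>
        rcases h01 (1 + 1) with h2 | h2 <;> rw [h0, h1] at hne <;>
        simp only [zero_add] at h1 e <;> rw [h0, h1, h2] at e <;> push_cast at e <;> omega
    · have hOj1 : Occ (-1) p q (n + 1) j := ⟨by omega, fun h => by omega, fun _ => by omega⟩
      have e := hcon (j + 1) j hOj hOj1
      rw [nextZ, nextZ] at e
      rcases h01 j with h0 | h0 <;> rcases h01 (j + 1) with h1 | h1 <;>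
        rcases h01 (j + 1 + 1) with h2 | h2 <;> rw [h1, h2] at hne <;> rw [h0, h1, h2] at e <;>
        push_cast at e <;> omega

end Q56.PC
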