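import Pool.Agent.Q56.PC.ExtMain

/-!
# The zero-one law on exterior and symmetric powers
-/

set_option autoImplicit false
set_option linter.unusedSectionVars false
set_option linter.unusedSimpArgs false
set_option backward.isDefEq.respectTransparency false
set_option backward.defeqAttrib.useBackward true

open CategoryTheory Limits MonoidalCategory
open Pool.Agent.Y112.SR Pool.Agent.Y112.KD Pool.Agent.Y112.SC Q20.Cp

namespace Q56.PC

universe v u w

open Functor.LaxMonoidal Functor.OplaxMonoidal

section

variable {C : Type u} [Category.{v} C] [Preadditive C] [Linear ℚ C] [MonoidalCategory C]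
  [MonoidalPreadditive C] [MonoidalLinear ℚ C] [SymmetricCategory C]
  [RightRigidCategory C] {K : Type w} [Field K]
variable {R : SuperRealisation C K} {M : C}

lemma str_one (η : ℚ) (f : ℕ → K) :
    str R M η (0 + 1) f = f 0 * evenDim R M - f 1 * oddDim R M := by
  have hK := R_charZero R
  have h2 : (2 : K) ≠ 0 := two_ne_zero
  have h1 : sy R M η (0 + 1) ≫ oddOp R M (0 + 1) f =
      bx R (𝟙 (R.H.obj (tp M 0))) (f 0 • pe R M + f 1 • po R M) := by
    have h3 : sy R M η (0 + 1) = 𝟙 _ := sy_one _
    rw [h3, Category.id_comp, oddOp_succ, oddOp_zero, oddOp_zero, bx_smul_left, bx_smul_left,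
      bx_add_right, bx_smul_right, bx_smul_right]
  rw [str, h1]
  refine (trace_unit _).trans ?_
  rw [Preadditive.add_comp, Linear.smul_comp, Linear.smul_comp, ModuleCat.hom_add, map_add,
    ModuleCat.hom_smul, ModuleCat.hom_smul, map_smul, map_smul, trace_pe h2, trace_po h2,
    smul_eq_mul, smul_eq_mul]
  ring

lemma str_dl (s : ℤ) (hs : s = 1 ∨ s = -1) (n : ℕ) : ∀ k ≤ n,
    ¬ Occ s (evenDim R M) (oddDim R M) n k → str R M (s : ℚ) n (dl K k) = 0 := by
  have hK := R_charZero R
  have hη : ((s : ℚ)) * s = 1 := by rcases hs with rfl | rfl <;> norm_num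
  induction n with
  | zero =>
    intro k hk h
    exfalso
    apply h
    exact ⟨hk, fun _ => by omega, fun _ => by omega⟩
  | succ n ih =>
    rcases n with _ | n
    · intro k hk h
      rw [str_one]
      have hk' : k = 0 ∨ k = 1 := by omega
      rcases hk' with rfl | rfl
      · have h3 : evenDim R M = 0 := by
          by_contra h4
          apply h
          exact ⟨by omega, fun _ => by omega, fun _ => by omega⟩
        rw [h3]
        simp [dl]
      · have h3 : oddDim R M = 0 := by
          by_contra h4
          apply h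
          exact ⟨by omega, fun _ => by omega, fun _ => by omega⟩
        rw [h3]
        simp [dl]
    · intro k hk h
      rw [show n + 1 + 1 = n + 2 from rfl, str_succ hη]
      have h1 : nextF (evenDim R M : K) (oddDim R M) ((s : ℚ) : K) n (dl K k) = fun j =>
          ((evenDim R M : K) + s * (((n + 1 : ℕ) : K) - k)) * dl K k j +
          (if k = 0 then 0 else (s * ((k : K) - 1) - (oddDim R M : K))) * dl K (k - 1) j := by
        funext j
        rw [nextF]
        rcases k with _ | k
        · simp only [dl, if_true, zero_mul, add_zero]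
          by_cases hj : j = 0
          · subst hj
            simp
          · simp [hj]
        · simp only [dl, Nat.add_sub_cancel, Nat.succ_ne_zero, if_false, Nat.succ_eq_add_one]
          by_cases hj : j = k
          · subst hj
            simp
            ring
          · have hj2 : ¬ j + 1 = k + 1 := by omega
            by_cases hj3 : j = k + 1
            · subst hj3
              simp
            · simp [hj, hj3]
      rw [h1, str_add, str_smul, str_smul]
      have h2 : ((evenDim R M : K) + s * (((n + 1 : ℕ) : K) - k)) *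
          str R M (s : ℚ) (n + 1) (dl K k) = 0 := by
        by_cases hkn : k ≤ n + 1
        · by_cases hocc : Occ s (evenDim R M) (oddDim R M) (n + 1) k
          · -- the coefficient vanishes
            have h3 : (evenDim R M : K) + s * (((n + 1 : ℕ) : K) - k) = 0 := by
              obtain ⟨o1, o2, o3⟩ := hocc
              rcases hs with rfl | rfl
              · exfalso
                apply h
                exact ⟨hk, fun _ => o2 rfl, fun h => by omega⟩
              · have o4 := o3 rfl
                have h4 : n + 1 = k + evenDim R M := by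
                  by_contra h5
                  apply h
                  exact ⟨hk, fun h => by omega, fun _ => by omega⟩
                rw [h4]
                push_cast
                ring
            rw [h3, zero_mul]
          · rw [ih k hkn hocc, mul_zero]
        · have h3 : str R M (s : ℚ) (n + 1) (dl K k) = 0 := by
            apply str_zero_of
            intro j hj
            simp only [dl]
            rw [if_neg (by omega)]
          rw [h3, mul_zero]
      have h4 : (if k = 0 then 0 else (s * ((k : K) - 1) - (oddDim R M : K))) *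
          str R M (s : ℚ) (n + 1) (dl K (k - 1)) = 0 := by
        rcases k with _ | k
        · simp
        · rw [if_neg (by omega)]
          have hk1 : k + 1 - 1 = k := by omega
          rw [hk1]
          by_cases hocc : Occ s (evenDim R M) (oddDim R M) (n + 1) k
          · have h3 : (s * (((k + 1 : ℕ) : K) - 1) - (oddDim R M : K)) = 0 := by
              obtain ⟨o1, o2, o3⟩ := hocc
              rcases hs with rfl | rfl
              · have o4 := o2 rfl
                have h4 : k = oddDim R M := by
                  by_contra h5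
                  apply h
                  exact ⟨hk, fun _ => by omega, fun h => by omega⟩
                rw [← h4]
                push_cast
                ring
              · exfalso
                apply h
                have o4 := o3 rfl
                exact ⟨hk, fun h => by omega, fun _ => by omega⟩
            rw [h3, zero_mul]
          · rw [ih k (by omega) hocc, mul_zero]
      rw [h2, h4, add_zero, mul_zero]

lemma sy_dl (s : ℤ) (hs : s = 1 ∨ s = -1) {n k : ℕ} (hk : k ≤ n)
    (h : ¬ Occ s (evenDim R M) (oddDim R M) n k) :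
    sy R M (s : ℚ) n ≫ oddOp R M n (dl K k) = 0 := by
  have hK := R_charZero R
  have h2 : (2 : K) ≠ 0 := two_ne_zero
  have hη : ((s : ℚ)) * s = 1 := by rcases hs with rfl | rfl <;> norm_num
  have hc := sy_comm (R := R) (M := M) h2 (s : ℚ) n (dl K k)
  have hi := sy_idem (R := R) (M := M) hη n
  have hdl : oddOp R M n (dl K k) ≫ oddOp R M n (dl K k) = oddOp R M n (dl K k) := by
    rw [oddOp_comp h2]
    congr 1
    funext j
    simp only [dl]
    split_ifs <;> simp
  have hidem : (sy R M (s : ℚ) n ≫ oddOp R M n (dl K k)) ≫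
      (sy R M (s : ℚ) n ≫ oddOp R M n (dl K k)) = sy R M (s : ℚ) n ≫ oddOp R M n (dl K k) := by
    rw [Category.assoc, ← Category.assoc (oddOp R M n (dl K k)), ← hc, Category.assoc, hdl,
      ← Category.assoc, hi]
  obtain ⟨ρ, hρ, hρ'⟩ := exists_rk R _ hidem hK
  apply hρ'
  have h3 : (sy R M (s : ℚ) n ≫ oddOp R M n (dl K k)) ≫ R.par (tp M n) =
      ((-1 : K) ^ k) • (sy R M (s : ℚ) n ≫ oddOp R M n (dl K k)) := by
    rw [par_oddOp, Category.assoc, oddOp_comp h2, ← Linear.comp_smul, ← oddOp_smul]
    congr 2
    funext j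
    simp only [dl]
    split_ifs with h4
    · rw [h4]
      ring
    · ring
  have h4 := str_dl (R := R) (M := M) s hs n k hk h
  rw [str, h3, ModuleCat.hom_smul, map_smul, hρ, smul_eq_mul] at h4
  have h5 : ((-1 : K) ^ k) ≠ 0 := pow_ne_zero _ (neg_ne_zero.2 one_ne_zero)
  have h6 : (ρ : K) = 0 := (mul_eq_zero.1 h4).resolve_left h5
  exact_mod_cast h6

lemma oddOp_expand (n : ℕ) (f : ℕ → K) :
    oddOp R M n f = ∑ k ∈ Finset.range (n + 1), f k • oddOp R M n (dl K k) := by
  have hK := R_charZero R
  have h2 : (2 : K) ≠ 0 := two_ne_zero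
  have hsum : ∀ s : Finset ℕ, ∑ k ∈ s, f k • oddOp R M n (dl K k) =
      oddOp R M n fun j => ∑ k ∈ s, f k * dl K k j := by
    intro s
    induction s using Finset.induction_on with
    | empty =>
      simp only [Finset.sum_empty]
      rw [oddOp_const h2, zero_smul]
    | insert i s hi ih =>
      simp only [Finset.sum_insert hi]
      rw [oddOp_add, oddOp_smul, ih]
  rw [hsum]
  apply oddOp_congr
  intro j hj
  rw [Finset.sum_eq_single j]
  · simp [dl]
  · intro k _ hk
    simp only [dl]
    rw [if_neg (Ne.symm hk), mul_zero]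
  · intro h
    exact absurd (Finset.mem_range.2 (by omega)) h

/-- **The zero-one law on exterior and symmetric powers.** -/
theorem ext_law (hpe : pe R M ∉ KAlg R M) {η : ℚ} (hη : η = 1 ∨ η = -1) {n : ℕ} {f : ℕ → K}
    (h : sy R M η n ≫ oddOp R M n f ∈ KAlg R (tp M n)) :
    ∃ c : K, sy R M η n ≫ oddOp R M n f = c • sy R M η n := by
  classical
  have hK := R_charZero R
  have h2 : (2 : K) ≠ 0 := two_ne_zero
  obtain ⟨s, hs, rfl⟩ : ∃ s : ℤ, (s = 1 ∨ s = -1) ∧ η = (s : ℚ) := by
    rcases hη with rfl | rfl
    · exact ⟨1, Or.inl rfl, by norm_num⟩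
    · exact ⟨-1, Or.inr rfl, by norm_num⟩
  rcases n with _ | n
  · refine ⟨f 0, ?_⟩
    rw [oddOp_zero, Linear.comp_smul, Category.comp_id]
  · by_cases hex : ∃ k l, Occ s (evenDim R M) (oddDim R M) (n + 1) k ∧
      Occ s (evenDim R M) (oddDim R M) (n + 1) l ∧ f k ≠ f l
    · exact absurd h (ext_core s hs hpe n f hex)
    · push Not at hex
      have hc : ∃ c : K, ∀ k, Occ s (evenDim R M) (oddDim R M) (n + 1) k → f k = c := by
        by_cases hk : ∃ k, Occ s (evenDim R M) (oddDim R M) (n + 1) k
        · obtain ⟨k, hk⟩ := hk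
          exact ⟨f k, fun l hl => hex l k hl hk⟩
        · push Not at hk
          exact ⟨0, fun k h => absurd h (hk k)⟩
      obtain ⟨c, hc⟩ := hc
      refine ⟨c, ?_⟩
      have h3 : ∀ k ∈ Finset.range (n + 1 + 1),
          f k • (sy R M (s : ℚ) (n + 1) ≫ oddOp R M (n + 1) (dl K k)) =
          c • (sy R M (s : ℚ) (n + 1) ≫ oddOp R M (n + 1) (dl K k)) := by
        intro k hk
        by_cases hocc : Occ s (evenDim R M) (oddDim R M) (n + 1) k
        · rw [hc k hocc]
        · rw [sy_dl s hs (by have := Finset.mem_range.1 hk; omega) hocc, smul_zero, smul_zero]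
      have h4 := oddOp_expand (R := R) (M := M) (n + 1) f
      have h5 := oddOp_expand (R := R) (M := M) (n + 1) fun _ => c
      have h6 : sy R M (s : ℚ) (n + 1) ≫ oddOp R M (n + 1) f =
          sy R M (s : ℚ) (n + 1) ≫ oddOp R M (n + 1) fun _ => c := by
        rw [h4, h5, Preadditive.comp_sum, Preadditive.comp_sum]
        refine Finset.sum_congr rfl fun k hk => ?_
        rw [Linear.comp_smul, Linear.comp_smul]
        exact h3 k hk
      rw [h6, oddOp_const h2, Linear.comp_smul, Category.comp_id]

lemma falg_pe {F : Subfield K} (h : R.CPlus M) : pe R M ∈ FAlg R F M := by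
  have hK := R_charZero R
  rw [cplus_iff] at h
  obtain ⟨g, hg⟩ := h
  have h3 : pe R M = R.H.map ((2 : ℚ)⁻¹ • (𝟙 M + g)) := by
    rw [R_smul, Functor.map_add, hg, CategoryTheory.Functor.map_id, pe]
    push_cast
    rfl
  rw [h3]
  exact falg_map _

lemma falg_oddOp {F : Subfield K} (h : R.CPlus M) (n : ℕ) (f : ℕ → K) (hf : ∀ k, f k ∈ F) :
    oddOp R M n f ∈ FAlg R F (tp M n) := by
  have hK := R_charZero R
  have h2 : (2 : K) ≠ 0 := two_ne_zero
  induction n generalizing f with
  | zero => exact falg_smul (hf 0) falg_one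
  | succ n ih =>
    rw [oddOp_succ]
    refine add_mem (falg_bx (ih _ hf) (falg_pe h)) (falg_bx (ih _ fun k => hf _) ?_)
    have h3 : po R M = 𝟙 _ - pe R M := by rw [← pe_add_po R h2 M]; abel
    rw [h3]
    exact sub_mem falg_one (falg_pe h)

/-- **One operator on an exterior or symmetric power decides the sign conjecture.** -/
theorem ext_tfae (hC : RationalUnit C) (M : C) (he : pe R M ≠ 0) (ho : po R M ≠ 0) : List.TFAE [
    R.CPlus M,
    ∀ (n : ℕ) (η : ℚ) (f : ℕ → ℚ), η = 1 ∨ η = -1 → ∃ g : tp M n ⟶ tp M n,
      R.H.map g = R.H.map (asym η M n) ≫ oddOp R M n fun k => (f k : K),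
    ∃ (n : ℕ) (η : ℚ) (f : ℕ → K), (η = 1 ∨ η = -1) ∧
      R.H.map (asym η M n) ≫ oddOp R M n f ∈ KAlg R (tp M n) ∧
      ∀ c : K, R.H.map (asym η M n) ≫ oddOp R M n f ≠ c • R.H.map (asym η M n)] := by
  have hK := R_charZero R
  have h2 : (2 : K) ≠ 0 := two_ne_zero
  tfae_have 1 → 2 := by
    intro h n η f _
    apply exists_of_falg_bot
    exact falg_comp (falg_map _) (falg_oddOp h n _ fun k => SubfieldClass.ratCast_mem _ _)
  tfae_have 2 → 3 := by
    intro h
    obtain ⟨g, hg⟩ := h 1 1 (fun k => if k = 0 then 1 else 0) (Or.inl rfl)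
    refine ⟨1, 1, _, Or.inl rfl, hg ▸ kalg_map g, ?_⟩
    intro c hc
    have h1 : ∀ f : ℕ → K, R.H.map (asym 1 M 1) ≫ oddOp R M 1 f =
        bx R (𝟙 (R.H.obj (tp M 0))) (f 0 • pe R M + f 1 • po R M) := by
      intro f
      have h3 : R.H.map (asym 1 M 1) = 𝟙 _ := sy_one _
      have h4 : oddOp R M 1 f = bx R (oddOp R M 0 f) (pe R M) +
        bx R (oddOp R M 0 fun k => f (k + 1)) (po R M) := rfl
      rw [h3, Category.id_comp, h4, oddOp_zero, oddOp_zero, bx_smul_left, bx_smul_left,
        bx_add_right, bx_smul_right, bx_smul_right]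
    rw [h1] at hc
    simp only [if_true, one_smul, Rat.cast_one, Nat.one_ne_zero, if_false, Rat.cast_zero,
      zero_smul, add_zero] at hc
    have h5 : bx R (𝟙 (R.H.obj (tp M 0))) (pe R M) =
        bx R (𝟙 (R.H.obj (tp M 0))) (c • 𝟙 (R.H.obj M)) := by
      rw [hc, bx_smul_right]
      congr 1
      have h3 : R.H.map (asym 1 M 1) = 𝟙 _ := sy_one _
      rw [h3]
      exact (bx_one R _ _).symm
    have h6 : pe R M = c • 𝟙 (R.H.obj M) := by
      have e1 := unit_bx (R := R) (pe R M)
      have e2 := unit_bx (R := R) (c • 𝟙 (R.H.obj M))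
      rw [← e1, ← e2]
      exact congrArg (fun z => R.H.map (λ_ M).inv ≫ z ≫ R.H.map (λ_ M).hom) h5
    have h7 : c • po R M = 0 := by
      have e := pe_po R M
      rwa [h6, Linear.smul_comp, Category.id_comp] at e
    rcases smul_eq_zero.1 h7 with h8 | h8
    · apply he
      rw [h6, h8, zero_smul]
    · exact ho h8
  tfae_have 3 → 1 := by
    rintro ⟨n, η, f, hη, hmem, hne⟩
    by_contra hC'
    obtain ⟨c, hc⟩ := ext_law (exists_pe_of_not R hC hC') hη hmem
    exact hne c hc
  tfae_finish

end

end Q56.PC
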