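import Pool.Agent.Q56.PC.Ext
import Pool.Agent.Q56.PC.ExtInt

/-!
# One operator on an exterior or symmetric power
-/

set_option autoImplicit false
set_option linter.unusedSectionVars false
set_option linter.unusedSimpArgs false
set_option backward.isDefEq.respectTransparency false
set_option backward.defeqAttrib.useBackward true

open CategoryTheory Limits MonoidalCategory
open Pool.Agent.Y112.SR Pool.Agent.Y112.KD Pool.Agent.Y112.SC Q20.Cp

namespace Q56.PC

universe v u w

open Functor.LaxMonoidal Functor.OplaxMonoidal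

section

variable {C : Type u} [Category.{v} C] [Preadditive C] [Linear ℚ C] [MonoidalCategory C]
  [MonoidalPreadditive C] [MonoidalLinear ℚ C] [SymmetricCategory C]
  [RightRigidCategory C] {K : Type w} [Field K]
variable {R : SuperRealisation C K} {M : C}

lemma oddOp_congr {n : ℕ} {f g : ℕ → K} (h : ∀ k ≤ n, f k = g k) :
    oddOp R M n f = oddOp R M n g := by
  induction n generalizing f g with
  | zero => rw [oddOp_zero, oddOp_zero, h 0 le_rfl]
  | succ n ih =>
    rw [oddOp_succ, oddOp_succ, ih fun k hk => h k (by omega),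
      ih fun k hk => h (k + 1) (by omega)]

lemma sy_mem (η : ℚ) (n : ℕ) : sy R M η n ∈ KAlg R (tp M n) := kalg_map _

lemma sy_poly {η : ℚ} (hη : η * η = 1) {n : ℕ} {f : ℕ → K}
    (h : sy R M η n ≫ oddOp R M n f ∈ KAlg R (tp M n)) (p : Polynomial K) :
    sy R M η n ≫ oddOp R M n (fun k => p.eval (f k)) ∈ KAlg R (tp M n) := by
  have hK := R_charZero R
  have h2 : (2 : K) ≠ 0 := two_ne_zero
  induction p using Polynomial.induction_on with
  | C c =>
    simp only [Polynomial.eval_C]
    rw [oddOp_const h2, Linear.comp_smul, Category.comp_id]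
    exact Submodule.smul_mem _ _ (sy_mem _ _)
  | add p q hp hq =>
    simp only [Polynomial.eval_add]
    rw [oddOp_add, Preadditive.comp_add]
    exact add_mem hp hq
  | monomial m c hp =>
    have h1 := kalg_comp hp h
    have h3 : ∀ g : ℕ → K, (sy R M η n ≫ oddOp R M n g) ≫ sy R M η n ≫ oddOp R M n f =
        sy R M η n ≫ oddOp R M n fun k => g k * f k := by
      intro g
      have h4 := sy_comm (R := R) (M := M) h2 η n g
      have h5 := sy_idem (R := R) (M := M) hη n
      rw [Category.assoc, ← Category.assoc (oddOp R M n g), ← h4, Category.assoc,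
        oddOp_comp h2, ← Category.assoc, h5]
    rw [h3] at h1
    have h2 : (fun k => Polynomial.eval (f k) (Polynomial.C c * Polynomial.X ^ m) * f k) =
        fun k => Polynomial.eval (f k) (Polynomial.C c * Polynomial.X ^ (m + 1)) := by
      funext w
      simp only [Polynomial.eval_mul, Polynomial.eval_C, Polynomial.eval_pow, Polynomial.eval_X]
      ring
    rwa [h2] at h1

lemma sy_level {η : ℚ} (hη : η * η = 1) {n : ℕ} {f : ℕ → K}
    (h : sy R M η n ≫ oddOp R M n f ∈ KAlg R (tp M n)) (q : K) [DecidableEq K] :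
    sy R M η n ≫ oddOp R M n (fun k => if f k = q then 1 else 0) ∈ KAlg R (tp M n) := by
  have h1 := sy_poly hη h (∏ r ∈ ((Finset.range (n + 1)).image f).erase q,
    Polynomial.C ((q - r)⁻¹) * (Polynomial.X - Polynomial.C r))
  have key : ∀ k ≤ n, Polynomial.eval (f k) (∏ r ∈ ((Finset.range (n + 1)).image f).erase q,
      Polynomial.C ((q - r)⁻¹) * (Polynomial.X - Polynomial.C r)) =
      if f k = q then 1 else 0 := by
    intro k hk
    rw [Polynomial.eval_prod]
    split_ifs with h2
    · refine Finset.prod_eq_one ?_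
      intro r hr
      have h3 : q - r ≠ 0 := sub_ne_zero.2 (Ne.symm (Finset.ne_of_mem_erase hr))
      simp only [Polynomial.eval_mul, Polynomial.eval_C, Polynomial.eval_sub, Polynomial.eval_X,
        h2]
      exact inv_mul_cancel₀ h3
    · refine Finset.prod_eq_zero (i := f k) ?_ ?_
      · exact Finset.mem_erase.2 ⟨h2, Finset.mem_image_of_mem f (Finset.mem_range.2 (by omega))⟩
      · simp
  rwa [oddOp_congr key] at h1

/-- **One function of the number of odd factors on an exterior or symmetric power.** -/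
theorem ext_core (s : ℤ) (hs : s = 1 ∨ s = -1) (hpe : pe R M ∉ KAlg R M) (n : ℕ) :
    ∀ f : ℕ → K, (∃ k l, Occ s (evenDim R M) (oddDim R M) (n + 1) k ∧
      Occ s (evenDim R M) (oddDim R M) (n + 1) l ∧ f k ≠ f l) →
      sy R M (s : ℚ) (n + 1) ≫ oddOp R M (n + 1) f ∉ KAlg R (tp M (n + 1)) := by
  classical
  have hK := R_charZero R
  have h2 : (2 : K) ≠ 0 := two_ne_zero
  have hη : ((s : ℚ)) * s = 1 := by rcases hs with rfl | rfl <;> norm_num
  have hp : 0 < evenDim R M := by
    rcases Nat.eq_zero_or_pos (evenDim R M) with h | h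
    · exfalso
      apply hpe
      have h3 : pe R M = 0 := (evenOdd R h2 M).proj_of_dim (i := true) h
      rw [h3]
      exact zero_mem _
    · exact h
  have hq : 0 < oddDim R M := by
    rcases Nat.eq_zero_or_pos (oddDim R M) with h | h
    · exfalso
      apply hpe
      have h3 : po R M = 0 := (evenOdd R h2 M).proj_of_dim (i := false) h
      have h4 : pe R M = 𝟙 _ := by rw [← pe_add_po R h2 M, h3, add_zero]
      rw [h4]
      exact kalg_one
    · exact h
  induction n with
  | zero =>
    rintro f ⟨k, l, hk0, hl0, hne⟩ h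
    have hk : k ≤ 1 := hk0.1
    have hl : l ≤ 1 := hl0.1
    have h01 : f 0 ≠ f 1 := by
      intro h0
      have hf : ∀ j, j ≤ 1 → f j = f 0 := by
        intro j hj
        have hj' : j = 0 ∨ j = 1 := by omega
        rcases hj' with hj' | hj'
        · rw [hj']
        · rw [hj', h0]
      exact hne ((hf k hk).trans (hf l hl).symm)
    have h1 : sy R M (s : ℚ) (0 + 1) ≫ oddOp R M (0 + 1) f =
        bx R (𝟙 (R.H.obj (tp M 0))) (f 0 • pe R M + f 1 • po R M) := by
      have h3 : sy R M (s : ℚ) (0 + 1) = 𝟙 _ := sy_one _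
      rw [h3, Category.id_comp, oddOp_succ, oddOp_zero, oddOp_zero, bx_smul_left, bx_smul_left,
        bx_add_right, bx_smul_right, bx_smul_right]
    rw [h1] at h
    have h3 := kalg_last (evenOdd R h2 M) 0 (b := f 0 • pe R M + f 1 • po R M)
      ((evenOdd R h2 M).box_add _ _ ((evenOdd R h2 M).box_smul _ _ (pe_box h2))
        ((evenOdd R h2 M).box_smul _ _ (po_box h2))) h
    apply hpe
    have h4 : pe R M = (f 0 - f 1)⁻¹ • ((f 0 • pe R M + f 1 • po R M) - f 1 • 𝟙 _) := by
      have h5 : f 0 - f 1 ≠ 0 := sub_ne_zero.2 h01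
      have h6 : (f 0 • pe R M + f 1 • po R M) - f 1 • 𝟙 _ = (f 0 - f 1) • pe R M := by
        rw [← pe_add_po R h2 M, smul_add, sub_smul]
        abel
      rw [h6, smul_smul, inv_mul_cancel₀ h5, one_smul]
    rw [h4]
    exact Submodule.smul_mem _ _ (sub_mem h3 (Submodule.smul_mem _ _ kalg_one))
  | succ n ih =>
    rintro f ⟨k, l, hk, hl, hne⟩ h
    have h1 := sy_level hη h (f k)
    set χ : ℕ → ℤ := fun j => if f j = f k then 1 else 0 with hχ
    have h01 : ∀ j, χ j = 0 ∨ χ j = 1 := by
      intro j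
      simp only [hχ]
      split_ifs
      · exact Or.inr rfl
      · exact Or.inl rfl
    have hχk : χ k ≠ χ l := by
      simp only [hχ, if_true]
      rw [if_neg (Ne.symm hne)]
      exact one_ne_zero
    have hcast : (fun j => if f j = f k then (1 : K) else 0) = fun j => ((χ j : ℤ) : K) := by
      funext j
      simp only [hχ]
      split_ifs <;> simp
    rw [hcast] at h1
    obtain ⟨a, b, ha, hb, hab⟩ := int_core s hs _ _ n hp hq χ h01 hk hl hχk
    refine ih (fun j => ((nextZ s (evenDim R M) (oddDim R M) n χ j : ℤ) : K))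
      ⟨a, b, ha, hb, fun h => hab (by exact_mod_cast h)⟩ ?_
    have h3 := kalg_PT h1
    have h4 := PT_sy_oddOp (R := R) (M := M) hη n fun j => ((χ j : ℤ) : K)
    have h5 : (((((n + 1 : ℕ) : ℚ) + 1)⁻¹ : ℚ) : K) • (sy R M (s : ℚ) (n + 1) ≫
        oddOp R M (n + 1) (nextF (evenDim R M) (oddDim R M) ((s : ℚ) : K) n
          fun j => ((χ j : ℤ) : K))) ∈ KAlg R (tp M (n + 1)) := h4 ▸ h3
    have h6 : (((((n + 1 : ℕ) : ℚ) + 1)⁻¹ : ℚ) : K) ≠ 0 := by
      have : ((((n + 1 : ℕ) : ℚ) + 1)⁻¹ : ℚ) ≠ 0 := by positivity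
      exact_mod_cast this
    have h7 := Submodule.smul_mem _ (((((n + 1 : ℕ) : ℚ) + 1)⁻¹ : ℚ) : K)⁻¹ h5
    rw [smul_smul, inv_mul_cancel₀ h6, one_smul] at h7
    have h8 : nextF (evenDim R M : K) (oddDim R M) ((s : ℚ) : K) n
        (fun j => ((χ j : ℤ) : K)) =
        fun j => ((nextZ s (evenDim R M) (oddDim R M) n χ j : ℤ) : K) := by
      funext j
      rw [nextF, nextZ]
      push_cast
      ring
    rw [h8] at h7
    exact h7

/-- The parity of the tensors with `k` odd factors. -/
lemma par_oddOp (n : ℕ) : R.par (tp M n) = oddOp R M n fun k => (-1) ^ k := by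
  have hK := R_charZero R
  have h2 : (2 : K) ≠ 0 := two_ne_zero
  induction n with
  | zero =>
    rw [oddOp_zero, pow_zero, one_smul]
    exact R.par_unit
  | succ n ih =>
    have h1 : R.par (tp M (n + 1)) = bx R (R.par (tp M n)) (R.par M) := (bx_par R _ _).symm
    have h3 : (oddOp R M n fun k => (-1 : K) ^ (k + 1)) =
        -oddOp R M n fun k => (-1 : K) ^ k := by
      rw [← neg_one_smul K (oddOp R M n fun k => (-1 : K) ^ k), ← oddOp_smul]
      congr 1
      funext k
      ring
    rw [h1, ih, oddOp_succ, h3, ← pe_sub_po R h2 M, sub_eq_add_neg, bx_add_right]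
    congr 1
    rw [← neg_one_smul K (po R M), bx_smul_right, ← neg_one_smul K (oddOp R M n _),
      bx_smul_left]

/-- The function which is `1` at `k`. -/
def dl (K : Type w) [Field K] (k : ℕ) : ℕ → K := fun j => if j = k then 1 else 0

/-- The supertrace of an operator on an exterior or symmetric power. -/
noncomputable def str (R : SuperRealisation C K) (M : C) (η : ℚ) (n : ℕ) (f : ℕ → K) : K :=
  LinearMap.trace K (R.H.obj (tp M n)) ((sy R M η n ≫ oddOp R M n f) ≫ R.par (tp M n)).hom

lemma str_add (η : ℚ) (n : ℕ) (f g : ℕ → K) :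
    str R M η n (fun k => f k + g k) = str R M η n f + str R M η n g := by
  rw [str, oddOp_add, Preadditive.comp_add, Preadditive.add_comp, ModuleCat.hom_add, map_add]
  rfl

lemma str_smul (η : ℚ) (n : ℕ) (c : K) (f : ℕ → K) :
    str R M η n (fun k => c * f k) = c * str R M η n f := by
  rw [str, oddOp_smul, Linear.comp_smul, Linear.smul_comp, ModuleCat.hom_smul, map_smul,
    smul_eq_mul]
  rfl

lemma str_zero_of {η : ℚ} {n : ℕ} {f : ℕ → K} (h : ∀ k ≤ n, f k = 0) : str R M η n f = 0 := by
  have hK := R_charZero R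
  have h2 : (2 : K) ≠ 0 := two_ne_zero
  have h1 : oddOp R M n f = 0 := by
    rw [oddOp_congr (g := fun _ => 0) h, oddOp_const h2, zero_smul]
  rw [str, h1, comp_zero, zero_comp, ModuleCat.hom_zero, map_zero]

lemma str_succ {η : ℚ} (hη : η * η = 1) (n : ℕ) (f : ℕ → K) :
    str R M η (n + 2) f = (((((n + 1 : ℕ) : ℚ) + 1)⁻¹ : ℚ) : K) *
      str R M η (n + 1) (nextF (evenDim R M) (oddDim R M) η n f) := by
  have h1 := trace_PT R (𝟙 (R.H.obj (tp M (n + 1)))) (sy R M η (n + 2) ≫ oddOp R M (n + 2) f)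
  have h3 : bx R (𝟙 (R.H.obj (tp M (n + 1)))) (𝟙 (R.H.obj M)) = 𝟙 (R.H.obj (tp M (n + 2))) :=
    bx_one R (tp M (n + 1)) M
  have h4 := PT_sy_oddOp (R := R) (M := M) hη n f
  rw [Category.id_comp] at h1
  have h5 : LinearMap.trace K (R.H.obj (tp M (n + 2))) (bx R (𝟙 (R.H.obj (tp M (n + 1))))
      (𝟙 (R.H.obj M)) ≫ (sy R M η (n + 2) ≫ oddOp R M (n + 2) f) ≫ R.par (tp M (n + 2))).hom =
      str R M η (n + 2) f := by
    rw [h3, Category.id_comp]
    rfl
  have h6 : LinearMap.trace K (R.H.obj (tp M (n + 1)))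
      (PT R (sy R M η (n + 2) ≫ oddOp R M (n + 2) f) ≫ R.par (tp M (n + 1))).hom =
      (((((n + 1 : ℕ) : ℚ) + 1)⁻¹ : ℚ) : K) *
        str R M η (n + 1) (nextF (evenDim R M) (oddDim R M) η n f) := by
    have h7 : PT R (sy R M η (n + 2) ≫ oddOp R M (n + 2) f) ≫ R.par (tp M (n + 1)) =
        ((((((n + 1 : ℕ) : ℚ) + 1)⁻¹ : ℚ) : K) • (sy R M η (n + 1) ≫ oddOp R M (n + 1)
          (nextF (evenDim R M) (oddDim R M) η n f))) ≫ R.par (tp M (n + 1)) :=
      congrArg (fun z => z ≫ R.par (tp M (n + 1))) h4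
    rw [h7, Linear.smul_comp, ModuleCat.hom_smul, map_smul, smul_eq_mul]
    rfl
  exact (h5.symm.trans h1.symm).trans h6

end

end Q56.PC
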