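import Pool.Agent.Q56.PC.Type
import Pool.Agent.Q20.Cp.Stmt

/-!
# Partial traces of algebraic operators of a given type
-/

set_option autoImplicit false
set_option linter.unusedSectionVars false
set_option linter.unusedSimpArgs false
set_option backward.isDefEq.respectTransparency false
set_option backward.defeqAttrib.useBackward true

open CategoryTheory Limits MonoidalCategory
open Pool.Agent.Y112.SR Pool.Agent.Y112.KD Pool.Agent.Y112.SC Q20.Cp

namespace Q56.PC

universe v u w

open Functor.LaxMonoidal Functor.OplaxMonoidal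

section

variable {C : Type u} [Category.{v} C] [Preadditive C] [Linear ℚ C] [MonoidalCategory C]
  [MonoidalPreadditive C] [MonoidalLinear ℚ C] [SymmetricCategory C]
  [RightRigidCategory C] {K : Type w} [Field K] {R : SuperRealisation C K}

/-- The unit factor does not change operators. -/
lemma unit_bx {X : C} (b : R.H.obj X ⟶ R.H.obj X) :
    R.H.map (λ_ X).inv ≫ bx R (𝟙 (R.H.obj (𝟙_ C))) b ≫ R.H.map (λ_ X).hom = b := by
  have h1 : μ R.H (𝟙_ C) X ≫ R.H.map (λ_ X).hom = (η R.H ▷ R.H.obj X) ≫ (λ_ (R.H.obj X)).hom := by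
    have h := Functor.LaxMonoidal.left_unitality R.H X
    have h3 : (η R.H ▷ R.H.obj X) ≫ (ε R.H ▷ R.H.obj X) = 𝟙 _ := by
      rw [← comp_whiskerRight, Functor.Monoidal.η_ε, id_whiskerRight]
    rw [h, reassoc_of% h3]
  have h2 : R.H.map (λ_ X).inv ≫ δ R.H (𝟙_ C) X = (λ_ (R.H.obj X)).inv ≫ (ε R.H ▷ R.H.obj X) := by
    have h := Functor.OplaxMonoidal.left_unitality R.H X
    have h3 : (η R.H ▷ R.H.obj X) ≫ (ε R.H ▷ R.H.obj X) = 𝟙 _ := by
      rw [← comp_whiskerRight, Functor.Monoidal.η_ε, id_whiskerRight]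
    rw [h]
    simp only [Category.assoc]
    rw [h3, Category.comp_id]
  have h3 : (ε R.H ▷ R.H.obj X) ≫ (𝟙 (R.H.obj (𝟙_ C)) ⊗ₘ b) ≫ (η R.H ▷ R.H.obj X) =
      𝟙_ _ ◁ b := by
    rw [id_tensorHom, ← tensorHom_id, ← tensorHom_id, ← id_tensorHom, ← id_tensorHom,
      tensorHom_comp_tensorHom, tensorHom_comp_tensorHom]
    simp
  rw [bx]
  simp only [Category.assoc]
  rw [h1, reassoc_of% h2, reassoc_of% h3]
  simp

/-- The operators of `H(X)` which are algebraic with coefficients in the subfield `F` of `K`: the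
finite sums of the operators `c H(f)`, `c` in `F`, `f` an endomorphism of `X`. -/
def FAlg (R : SuperRealisation C K) (F : Subfield K) (X : C) :
    AddSubgroup (R.H.obj X ⟶ R.H.obj X) :=
  AddSubgroup.closure {y | ∃ c ∈ F, ∃ f : X ⟶ X, y = c • R.H.map f}

lemma falg_ind {F : Subfield K} {X : C} {p : (R.H.obj X ⟶ R.H.obj X) → Prop}
    (h1 : ∀ c ∈ F, ∀ f : X ⟶ X, p (c • R.H.map f)) (h0 : p 0)
    (ha : ∀ x y, p x → p y → p (x + y)) {x : R.H.obj X ⟶ R.H.obj X} (hx : x ∈ FAlg R F X) :
    p x := by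
  refine AddSubgroup.closure_induction (p := fun y _ => p y ∧ p (-y)) ?_ ?_ ?_ ?_ hx |>.1
  · rintro _ ⟨c, hc, f, rfl⟩
    refine ⟨h1 c hc f, ?_⟩
    rw [← neg_smul]
    exact h1 _ (neg_mem hc) f
  · exact ⟨h0, by rwa [neg_zero]⟩
  · rintro x y _ _ ⟨hx, hx'⟩ ⟨hy, hy'⟩
    refine ⟨ha _ _ hx hy, ?_⟩
    rw [neg_add]
    exact ha _ _ hx' hy'
  · rintro x _ ⟨hx, hx'⟩
    exact ⟨hx', by rwa [neg_neg]⟩

lemma falg_map {F : Subfield K} {X : C} (g : X ⟶ X) : R.H.map g ∈ FAlg R F X :=
  AddSubgroup.subset_closure ⟨1, one_mem F, g, (one_smul K _).symm⟩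

lemma falg_smul {F : Subfield K} {X : C} {c : K} (hc : c ∈ F) {x : R.H.obj X ⟶ R.H.obj X}
    (hx : x ∈ FAlg R F X) : c • x ∈ FAlg R F X := by
  refine falg_ind (p := fun y => c • y ∈ FAlg R F X) ?_ ?_ ?_ hx
  · intro d hd f
    rw [smul_smul]
    exact AddSubgroup.subset_closure ⟨c * d, mul_mem hc hd, f, rfl⟩
  · rw [smul_zero]
    exact zero_mem _
  · intro x y hx hy
    rw [smul_add]
    exact add_mem hx hy

lemma falg_comp {F : Subfield K} {X : C} {a b : R.H.obj X ⟶ R.H.obj X} (ha : a ∈ FAlg R F X)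
    (hb : b ∈ FAlg R F X) : a ≫ b ∈ FAlg R F X := by
  refine falg_ind (p := fun y => y ≫ b ∈ FAlg R F X) ?_ ?_ ?_ ha
  · intro c hc g
    refine falg_ind (p := fun y => (c • R.H.map g) ≫ y ∈ FAlg R F X) ?_ ?_ ?_ hb
    · intro d hd f
      rw [Linear.smul_comp, Linear.comp_smul, smul_smul, ← Functor.map_comp]
      exact AddSubgroup.subset_closure ⟨c * d, mul_mem hc hd, g ≫ f, rfl⟩
    · rw [comp_zero]
      exact zero_mem _
    · intro x y hx hy
      rw [Preadditive.comp_add]
      exact add_mem hx hy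
  · rw [zero_comp]
    exact zero_mem _
  · intro x y hx hy
    rw [Preadditive.add_comp]
    exact add_mem hx hy

/-- The first place. -/
lemma falg_unit {F : Subfield K} {X : C} {b : R.H.obj X ⟶ R.H.obj X}
    (h : bx R (𝟙 (R.H.obj (tp X 0))) b ∈ FAlg R F (tp X 1)) : b ∈ FAlg R F X := by
  have h1 : ∀ x ∈ FAlg R F (tp X 1), R.H.map (λ_ X).inv ≫ x ≫ R.H.map (λ_ X).hom ∈ FAlg R F X := by
    intro x hx
    refine falg_ind (p := fun y => R.H.map (λ_ X).inv ≫ y ≫ R.H.map (λ_ X).hom ∈ FAlg R F X)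
      ?_ ?_ ?_ hx
    · intro c hc f
      rw [Linear.smul_comp, Linear.comp_smul, ← Functor.map_comp, ← Functor.map_comp]
      exact falg_smul hc (falg_map _)
    · rw [zero_comp, comp_zero]
      exact zero_mem _
    · intro x y hx hy
      rw [Preadditive.add_comp, Preadditive.comp_add]
      exact add_mem hx hy
  have h2 := h1 _ h
  have h3 : R.H.map (λ_ X).inv ≫ bx R (𝟙 (R.H.obj (tp X 0))) b ≫ R.H.map (λ_ X).hom = b :=
    unit_bx b
  rwa [h3] at h2

lemma trace_unit {X : C} (b : R.H.obj X ⟶ R.H.obj X) :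
    LinearMap.trace K (R.H.obj (tp X 1))
      (bx R (𝟙 (R.H.obj (tp X 0))) b ≫ R.par (tp X 1)).hom =
    LinearMap.trace K (R.H.obj X) (b ≫ R.par X).hom := by
  have h0 := R.finite X
  have h0' := R.finite (tp X 1)
  have h : R.par (tp X 0) = 𝟙 _ := R.par_unit
  have h1 : bx R (𝟙 (R.H.obj (tp X 0))) b ≫ R.par (tp X 1) =
      bx R (𝟙 (R.H.obj (tp X 0))) (b ≫ R.par X) := by
    have h2 : R.par (tp X 1) = bx R (R.par (tp X 0)) (R.par X) := (bx_par R _ _).symm
    rw [h2, h, bx_comp, Category.comp_id]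
  rw [h1]
  have h3 := unit_bx (R := R) (b ≫ R.par X)
  conv_rhs => rw [← h3]
  rw [ModuleCat.hom_comp, ← LinearMap.trace_comp_comm', ← ModuleCat.hom_comp, Category.assoc,
    ← Functor.map_comp, Iso.hom_inv_id, CategoryTheory.Functor.map_id, Category.comp_id]

/-- The partial trace of algebraic operators. -/
lemma falg_PTn {F : Subfield K} {X : C} (n : ℕ)
    {x : R.H.obj (tp X (n + 1)) ⟶ R.H.obj (tp X (n + 1))}
    (hx : x ∈ FAlg R F (tp X (n + 1))) : PTn R X n x ∈ FAlg R F (tp X 1) := by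
  have hadd : ∀ (m : ℕ) (a b : R.H.obj (tp X (m + 1)) ⟶ R.H.obj (tp X (m + 1))),
      PTn R X m (a + b) = PTn R X m a + PTn R X m b := by
    intro m
    induction m with
    | zero => intro a b; rfl
    | succ m ih =>
      intro a b
      change PTn R X m (PT R (a + b)) = PTn R X m (PT R a) + PTn R X m (PT R b)
      rw [PT_add, ih]
  have hsmul : ∀ (m : ℕ) (k : K) (a : R.H.obj (tp X (m + 1)) ⟶ R.H.obj (tp X (m + 1))),
      PTn R X m (k • a) = k • PTn R X m a := by
    intro m
    induction m with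
    | zero => intro k a; rfl
    | succ m ih =>
      intro k a
      change PTn R X m (PT R (k • a)) = k • PTn R X m (PT R a)
      rw [PT_smul, ih]
  refine falg_ind (p := fun y => PTn R X n y ∈ FAlg R F (tp X 1)) ?_ ?_ ?_ hx
  · intro c hc f
    obtain ⟨z, hz⟩ := PTn_map R n f
    rw [hsmul, hz]
    exact falg_smul hc (falg_map z)
  · have h0 := hsmul n 0 0
    rw [zero_smul, zero_smul] at h0
    rw [h0]
    exact zero_mem _
  · intro x y hx hy
    rw [hadd]
    exact add_mem hx hy

variable {M : C} {ι : Type} [Fintype ι] [DecidableEq ι] (D : Decomposition R M ι)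

/-- Sums of the operators which are the projectors in one place, up to exchanges. -/
inductive Decomposition.Place : ∀ n : ℕ, (ι → (R.H.obj (tp M n) ⟶ R.H.obj (tp M n))) → Prop
  | zero (n : ℕ) : Place n fun _ => 0
  | add (n : ℕ) (F G : ι → (R.H.obj (tp M n) ⟶ R.H.obj (tp M n))) :
      Place n F → Place n G → Place n fun i => F i + G i
  | first (n : ℕ) : Place (n + 1) fun i => up R M (bx R (𝟙 (R.H.obj (tp M 0))) (D.proj i)) n
  | conj (n : ℕ) (F : ι → (R.H.obj (tp M n) ⟶ R.H.obj (tp M n))) (s : tp M n ⟶ tp M n) :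
      IsSwap M n s → Place n F → Place n fun i => R.H.map s ≫ F i ≫ R.H.map s

variable {D}

lemma Decomposition.Place.lift {n : ℕ} {F : ι → (R.H.obj (tp M n) ⟶ R.H.obj (tp M n))}
    (h : D.Place n F) : D.Place (n + 1) fun i => bx R (F i) (𝟙 (R.H.obj M)) := by
  induction h with
  | zero n =>
    have h1 := Decomposition.Place.zero (D := D) (n + 1)
    simpa only [bx_zero_left] using h1
  | add n F G _ _ h1 h2 =>
    have h3 := Decomposition.Place.add _ _ _ h1 h2
    simpa only [bx_add_left] using h3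
  | first n => exact Decomposition.Place.first (n + 1)
  | conj n F s hs _ ih =>
    have h1 := Decomposition.Place.conj _ _ _ (IsSwap.lift n s hs) ih
    simpa only [map_whiskerRight_eq, bx_comp, Category.comp_id, Category.id_comp] using h1

lemma Decomposition.Place.last (n : ℕ) :
    D.Place (n + 1) fun i => bx R (𝟙 (R.H.obj (tp M n))) (D.proj i) := by
  have hK := R_charZero R
  induction n with
  | zero => exact Decomposition.Place.first 0
  | succ n ih =>
    have h1 := Decomposition.Place.conj _ _ _ (IsSwap.last n) ih.lift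
    have h2 : ∀ i, R.H.map (sw (tp M n) M) ≫ bx R (bx R (𝟙 _) (D.proj i)) (𝟙 _) ≫
        R.H.map (sw (tp M n) M) = bx R (𝟙 _) (D.proj i) := by
      intro i
      have h3 := Sg_natB (R := R) (X := M) two_ne_zero D.boxClass (n := n) (𝟙 _) (D.box_proj i)
        D.boxClass.one
      have h4 := Sg_Sg R M n
      rw [Sg] at h3 h4
      rw [h3, ← Category.assoc, h4, Category.id_comp, bx_one]
    simpa only [h2] using h1

lemma Decomposition.Place.num (n : ℕ) : D.Place n fun i => D.num i n := by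
  induction n with
  | zero => exact Decomposition.Place.zero 0
  | succ n ih => exact Decomposition.Place.add _ _ _ ih.lift (Decomposition.Place.last n)

lemma trace_proj (i : ι) : ∃ b : ℕ, LinearMap.trace K (R.H.obj M) (D.proj i).hom = b ∧
    (b = 0 → D.proj i = 0) :=
  exists_rk R (D.proj i) (D.proj_comp_self i) (R_charZero R)

/-- The key computation. -/
lemma Decomposition.Place.key {F : Subfield K} {n : ℕ}
    {G : ι → (R.H.obj (tp M n) ⟶ R.H.obj (tp M n))}
    (h : D.Place n G) : ∀ x : R.H.obj (tp M n) ⟶ R.H.obj (tp M n), RB R D.Box n x →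
    x ∈ FAlg R F (tp M n) → ∃ c : ι → K, (∑ i, c i • D.proj i) ∈ FAlg R F M ∧
      ∀ i, c i * (((D.sgn i : ℤ) : K) * LinearMap.trace K (R.H.obj M) (D.proj i).hom) =
        LinearMap.trace K (R.H.obj (tp M n)) (G i ≫ x ≫ R.par (tp M n)).hom := by
  have hK := R_charZero R
  induction h with
  | zero n =>
    intro x _ _
    refine ⟨fun _ => 0, by simp, fun i => ?_⟩
    rw [zero_comp, ModuleCat.hom_zero, map_zero, zero_mul]
  | add n G G' _ _ h1 h2 =>
    intro x hx hx'
    obtain ⟨c, hc, hc'⟩ := h1 x hx hx'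
    obtain ⟨d, hd, hd'⟩ := h2 x hx hx'
    refine ⟨fun i => c i + d i, ?_, fun i => ?_⟩
    · simp only [add_smul, Finset.sum_add_distrib]
      exact add_mem hc hd
    · rw [add_mul, hc', hd', Preadditive.add_comp, ModuleCat.hom_add, map_add]
  | first n =>
    intro x hx hx'
    obtain ⟨b, ⟨c, rfl⟩, hb'⟩ := RB.one_shape D.boxClass D.box_add D.box_smul
      (RB.PTn D.boxClass n hx)
    have h1 := falg_PTn n hx'
    rw [hb'] at h1
    refine ⟨c, falg_unit h1, fun i => ?_⟩
    rw [← trace_PTn R n, hb', ← Category.assoc, bx_comp, Category.id_comp]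
    refine Eq.trans ?_ (trace_unit _).symm
    have h2 : (D.proj i ≫ ∑ j, c j • D.proj j) ≫ R.par M =
        (c i * ((D.sgn i : ℤ) : K)) • D.proj i := by
      rw [Preadditive.comp_sum, Finset.sum_eq_single i]
      · rw [Linear.comp_smul, D.proj_comp_self, Linear.smul_comp, D.proj_par, smul_smul]
      · intro j _ hj
        rw [Linear.comp_smul, D.proj_comp i j (Ne.symm hj), smul_zero]
      · intro h
        exact absurd (Finset.mem_univ i) h
    rw [h2, ModuleCat.hom_smul, map_smul, smul_eq_mul, mul_assoc]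
  | conj n G s hs _ ih =>
    intro x hx hx'
    have hs2 : R.H.map s ≫ R.H.map s = 𝟙 _ := by
      rw [← Functor.map_comp, swap_sq hs, CategoryTheory.Functor.map_id]
    have hsm : RB R D.Box n (R.H.map s) := RB.mon _ (MonB.swap D.boxClass hs)
    obtain ⟨c, hc, hc'⟩ := ih (R.H.map s ≫ x ≫ R.H.map s)
      (RB.comp two_ne_zero D.boxClass hsm (RB.comp two_ne_zero D.boxClass hx hsm))
      (falg_comp (falg_map s) (falg_comp hx' (falg_map s)))
    refine ⟨c, hc, fun i => ?_⟩
    rw [hc']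
    have hpar : R.H.map s ≫ R.par (tp M n) = R.par (tp M n) ≫ R.H.map s := R.par_natural s
    have f1 : G i ≫ (R.H.map s ≫ x ≫ R.H.map s) ≫ R.par (tp M n) =
        (G i ≫ R.H.map s ≫ x ≫ R.par (tp M n)) ≫ R.H.map s := by
      simp only [Category.assoc]
      rw [hpar]
    rw [f1, trace_swap]
    simp only [Category.assoc]

end

end Q56.PC
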