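import Pool.Agent.Q56.PC.Key
import Mathlib

/-!
# One algebraic piece of a tensor power
-/

set_option autoImplicit false
set_option linter.unusedSectionVars false
set_option linter.unusedSimpArgs false
set_option backward.isDefEq.respectTransparency false
set_option backward.defeqAttrib.useBackward true

open CategoryTheory Limits MonoidalCategory
open Pool.Agent.Y112.SR Pool.Agent.Y112.KD Pool.Agent.Y112.SC Q20.Cp

namespace Q56.PC

universe v u w

open Functor.LaxMonoidal Functor.OplaxMonoidal

section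

variable {C : Type u} [Category.{v} C] [Preadditive C] [Linear ℚ C] [MonoidalCategory C]
  [SymmetricCategory C]

/-- The idempotents of the image of the group algebra of the symmetric group in the endomorphisms of
`M ^ n`, that is, of the `ℚ`-algebra generated by the exchanges of neighbouring factors. -/
def Young (M : C) (n : ℕ) : Set (End (tp M n)) :=
  {e | e ∈ Algebra.adjoin ℚ {s : End (tp M n) | IsSwap M n s} ∧ e * e = e}

end

section

variable {C : Type u} [Category.{v} C] [Preadditive C] [Linear ℚ C] [MonoidalCategory C]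
  [SymmetricCategory C] {K : Type w} [Field K] {R : SuperRealisation C K}
  {M : C} {ι : Type} [Fintype ι] [DecidableEq ι] (D : Decomposition R M ι)

/-- The projector onto the part of type `m` of the image of `e`: the tensors in `H(M ^ n)` in the
image of `H(e)` which have exactly `m i` factors in the `i`-th subspace. -/
noncomputable def Decomposition.piece (n : ℕ) (m : ι → ℕ) (e : End (tp M n)) :
    R.H.obj (tp M n) ⟶ R.H.obj (tp M n) :=
  R.H.map e ≫ D.typeProj n fun i => (m i : ℤ)

/-- The dimension of the `i`-th subspace. -/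
noncomputable def Decomposition.dim (i : ι) : ℕ :=
  Module.finrank K (LinearMap.range (D.proj i).hom)

/-- The number of factors in the `i`-th subspace divided by its dimension, with the sign of its
parity. -/
noncomputable def Decomposition.ratio (m : ι → ℕ) (i : ι) : ℚ :=
  ((D.sgn i : ℤ) : ℚ) * m i / D.dim i

/-- The dimension of the part of type `m` of the image of `e`. -/
noncomputable def Decomposition.rank (n : ℕ) (m : ι → ℕ) (e : End (tp M n)) : ℕ :=
  Module.finrank K (LinearMap.range (D.piece n m e).hom)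

/-- The weight of the `i`-th subspace in the combination `∑ f m [e, m]` of pieces: the sum of the
numbers `± f m * m i * rank [e, m]`, the sign being the parity of the tensors of type `m`, divided by
the dimension of the subspace, with the sign of its parity. -/
noncomputable def Decomposition.weight (n : ℕ) (e : End (tp M n)) (S : Finset (ι → ℕ))
    (f : (ι → ℕ) → ℚ) (i : ι) : ℚ :=
  ((D.sgn i : ℤ) : ℚ) * (∑ m ∈ S, f m * ((D.typeSgn fun i => (m i : ℤ) : ℤˣ) : ℤ) *
    (m i * D.rank n m e)) / D.dim i

/-- The type `m` separates the subspaces of the decomposition. -/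
def Decomposition.Separating (m : ι → ℕ) : Prop :=
  ∀ i j, D.proj i ≠ 0 → D.proj j ≠ 0 → D.ratio m i = D.ratio m j → i = j

end

section

variable {C : Type u} [Category.{v} C] [Preadditive C] [Linear ℚ C] [MonoidalCategory C]
  [MonoidalPreadditive C] [MonoidalLinear ℚ C] [SymmetricCategory C]
  [RightRigidCategory C] {K : Type w} [Field K] {R : SuperRealisation C K}
  {M : C} {ι : Type} [Fintype ι] [DecidableEq ι] (D : Decomposition R M ι)

lemma Decomposition.typeProj_adjoin {n : ℕ} {e : End (tp M n)}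
    (he : e ∈ Algebra.adjoin ℚ {s : End (tp M n) | IsSwap M n s}) (m : ι → ℤ) :
    R.H.map e ≫ D.typeProj n m = D.typeProj n m ≫ R.H.map e := by
  have hK := R_charZero R
  induction he using Algebra.adjoin_induction with
  | mem s hs => exact D.typeProj_swap two_ne_zero hs m
  | algebraMap q =>
    have h1 : (algebraMap ℚ (End (tp M n)) q : tp M n ⟶ tp M n) = q • 𝟙 _ := by
      rw [Algebra.algebraMap_eq_smul_one]
      rfl
    rw [h1, R_smul, CategoryTheory.Functor.map_id, Linear.smul_comp, Linear.comp_smul,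
      Category.id_comp, Category.comp_id]
  | add x y _ _ hx hy =>
    have h1 : R.H.map (x + y : End (tp M n)) = R.H.map x + R.H.map y := R.H.map_add
    rw [h1, Preadditive.add_comp, Preadditive.comp_add, hx, hy]
  | mul x y _ _ hx hy =>
    rw [End.mul_def, Functor.map_comp, Category.assoc, hx, ← Category.assoc, hy, Category.assoc]

lemma Decomposition.trace_dim (i : ι) :
    LinearMap.trace K (R.H.obj M) (D.proj i).hom = D.dim i := by
  have hK := R_charZero R
  have h0 := R.finite M
  have he' : IsIdempotentElem (D.proj i).hom := congrArg ModuleCat.Hom.hom (D.proj_comp_self i)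
  exact (LinearMap.IsIdempotentElem.isProj_range _ he').trace

lemma Decomposition.proj_of_dim {i : ι} (h : D.dim i = 0) : D.proj i = 0 := by
  obtain ⟨b, hb, hb'⟩ := trace_proj (D := D) i
  have hK := R_charZero R
  refine hb' ?_
  rw [D.trace_dim, h] at hb
  exact_mod_cast hb.symm

lemma Decomposition.piece_idem {n : ℕ} (m : ι → ℕ) {e : End (tp M n)} (he : e ∈ Young M n) :
    D.piece n m e ≫ D.piece n m e = D.piece n m e := by
  have hcomm := D.typeProj_adjoin he.1 fun i => (m i : ℤ)
  have h3 : R.H.map e ≫ R.H.map e = R.H.map e := by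
    rw [← Functor.map_comp, ← End.mul_def, he.2]
  have h4 : D.piece n m e ≫ D.piece n m e = R.H.map e ≫
      (D.typeProj n (fun i => (m i : ℤ)) ≫ R.H.map e) ≫ D.typeProj n (fun i => (m i : ℤ)) := by
    rw [Decomposition.piece]
    simp only [Category.assoc]
  rw [h4, ← hcomm, Category.assoc, D.typeProj_idem, ← Category.assoc, h3]
  rfl

lemma Decomposition.trace_piece {n : ℕ} (m : ι → ℕ) {e : End (tp M n)} (he : e ∈ Young M n) :
    LinearMap.trace K (R.H.obj (tp M n)) (D.piece n m e).hom = D.rank n m e := by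
  have hK := R_charZero R
  have h0 := R.finite (tp M n)
  have he' : IsIdempotentElem (D.piece n m e).hom :=
    congrArg ModuleCat.Hom.hom (D.piece_idem m he)
  exact (LinearMap.IsIdempotentElem.isProj_range _ he').trace

lemma Decomposition.rank_ne {n : ℕ} (m : ι → ℕ) {e : End (tp M n)} (he : e ∈ Young M n)
    (h : D.piece n m e ≠ 0) : D.rank n m e ≠ 0 := by
  have hK := R_charZero R
  obtain ⟨ρ, hρ, hρ'⟩ := exists_rk R _ (D.piece_idem m he) hK
  rw [D.trace_piece m he] at hρ
  have h1 : D.rank n m e = ρ := by exact_mod_cast hρ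
  intro h2
  exact h (hρ' (by omega))

lemma Decomposition.falg_comb {F : Subfield K} {n : ℕ} {e : End (tp M n)}
    (he : e ∈ Young M n) (S : Finset (ι → ℕ)) (f : (ι → ℕ) → ℚ)
    (h : (∑ m ∈ S, ((f m : ℚ) : K) • D.piece n m e) ∈ FAlg R F (tp M n)) :
    (∑ i, ((D.weight n e S f i : ℚ) : K) • D.proj i) ∈ FAlg R F M := by
  have hK := R_charZero R
  have h2 : (2 : K) ≠ 0 := two_ne_zero
  have hrb : RB R D.Box n (∑ m ∈ S, ((f m : ℚ) : K) • D.piece n m e) :=
    RB.sum _ _ _ fun m _ => RB.smul _ _
      (RB.comp h2 D.boxClass (RB.of_adjoin D.boxClass he.1) (D.typeProj_rb _ _))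
  obtain ⟨c, hc, hc'⟩ := (Decomposition.Place.num (D := D) n).key _ hrb h
  have htr : ∀ i, LinearMap.trace K (R.H.obj (tp M n))
      (D.num i n ≫ (∑ m ∈ S, ((f m : ℚ) : K) • D.piece n m e) ≫ R.par (tp M n)).hom =
      ∑ m ∈ S, ((f m : ℚ) : K) * ((((D.typeSgn fun i => (m i : ℤ) : ℤˣ) : ℤ) : K) *
        ((m i : K) * D.rank n m e)) := by
    intro i
    have h3 : ∀ m : ι → ℕ, D.num i n ≫ (((f m : ℚ) : K) • D.piece n m e) ≫ R.par (tp M n) =
        (((f m : ℚ) : K) * ((((D.typeSgn fun i => (m i : ℤ) : ℤˣ) : ℤ) : K) * (m i : K))) •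
          D.piece n m e := by
      intro m
      have hcomm := D.typeProj_adjoin he.1 fun i => (m i : ℤ)
      rw [Decomposition.piece, Linear.smul_comp, Category.assoc, D.typeProj_par,
        Linear.comp_smul, Linear.comp_smul, Linear.comp_smul, hcomm, ← Category.assoc,
        D.num_typeProj, Linear.smul_comp, smul_smul, smul_smul]
      push_cast
      rw [mul_assoc]
    have h4 : D.num i n ≫ (∑ m ∈ S, ((f m : ℚ) : K) • D.piece n m e) ≫ R.par (tp M n) =
        ∑ m ∈ S, (((f m : ℚ) : K) * ((((D.typeSgn fun i => (m i : ℤ) : ℤˣ) : ℤ) : K) *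
          (m i : K))) • D.piece n m e := by
      rw [Preadditive.sum_comp, Preadditive.comp_sum]
      exact Finset.sum_congr rfl fun m _ => h3 m
    have h5 : LinearMap.trace K (R.H.obj (tp M n))
        (∑ m ∈ S, (((f m : ℚ) : K) * ((((D.typeSgn fun i => (m i : ℤ) : ℤˣ) : ℤ) : K) *
          (m i : K))) • D.piece n m e : R.H.obj (tp M n) ⟶ R.H.obj (tp M n)).hom =
        ∑ m ∈ S, (((f m : ℚ) : K) * ((((D.typeSgn fun i => (m i : ℤ) : ℤˣ) : ℤ) : K) *
          (m i : K))) * LinearMap.trace K (R.H.obj (tp M n)) (D.piece n m e).hom := by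
      have h6 := map_sum (trF R (𝟙 (R.H.obj (tp M n)))) (fun m => (((f m : ℚ) : K) *
        ((((D.typeSgn fun i => (m i : ℤ) : ℤˣ) : ℤ) : K) * (m i : K))) • D.piece n m e) S
      have h7 : ∀ y : R.H.obj (tp M n) ⟶ R.H.obj (tp M n),
          trF R (𝟙 (R.H.obj (tp M n))) y = LinearMap.trace K (R.H.obj (tp M n)) y.hom := by
        intro y
        change LinearMap.trace K (R.H.obj (tp M n)) (y ≫ 𝟙 _).hom = _
        rw [Category.comp_id]
      rw [h7] at h6
      rw [h6]
      refine Finset.sum_congr rfl fun m _ => ?_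
      rw [h7, ModuleCat.hom_smul, map_smul, smul_eq_mul]
    rw [h4, h5]
    refine Finset.sum_congr rfl fun m _ => ?_
    rw [D.trace_piece m he]
    ring
  have hterm : ∀ i, c i • D.proj i = ((D.weight n e S f i : ℚ) : K) • D.proj i := by
    intro i
    by_cases hd : D.dim i = 0
    · rw [D.proj_of_dim hd, smul_zero, smul_zero]
    · congr 1
      have h3 := hc' i
      rw [htr, D.trace_dim] at h3
      have hd' : (D.dim i : K) ≠ 0 := by exact_mod_cast hd
      have hsg : ((D.sgn i : ℤ) : K) * ((D.sgn i : ℤ) : K) = 1 := by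
        rcases Int.units_eq_one_or (D.sgn i) with h | h <;> rw [h] <;> simp
      have h4 : c i * (D.dim i : K) = ((D.sgn i : ℤ) : K) * ∑ m ∈ S, ((f m : ℚ) : K) *
          ((((D.typeSgn fun i => (m i : ℤ) : ℤˣ) : ℤ) : K) * ((m i : K) * D.rank n m e)) := by
        rw [← h3]
        linear_combination (-(c i * (D.dim i : K))) * hsg
      rw [Decomposition.weight]
      push_cast
      rw [eq_div_iff hd', h4]
      congr 1
      refine Finset.sum_congr rfl fun m _ => ?_
      ring
  rwa [Finset.sum_congr rfl fun i _ => hterm i] at hc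

lemma Decomposition.falg_num {F : Subfield K} {n : ℕ} {m : ι → ℕ} {e : End (tp M n)}
    (he : e ∈ Young M n) (h0 : D.piece n m e ≠ 0) (h : D.piece n m e ∈ FAlg R F (tp M n)) :
    (∑ i, ((D.ratio m i : ℚ) : K) • D.proj i) ∈ FAlg R F M := by
  have hK := R_charZero R
  have h1 := D.falg_comb (F := F) he {m} (fun _ => 1) (by
    rw [Finset.sum_singleton, Rat.cast_one, one_smul]
    exact h)
  obtain ⟨t, ht, ht'⟩ : ∃ t : ℤ, t = ((D.typeSgn fun i => (m i : ℤ) : ℤˣ) : ℤ) ∧
      (t = 1 ∨ t = -1) := by
    refine ⟨_, rfl, ?_⟩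
    rcases Int.units_eq_one_or (D.typeSgn fun i => (m i : ℤ)) with h | h <;> rw [h] <;> simp
  have hρ : (D.rank n m e : ℚ) ≠ 0 := by exact_mod_cast D.rank_ne m he h0
  have htq : (t : ℚ) ≠ 0 := by
    rcases ht' with h | h <;> rw [h] <;> simp
  have hw : ∀ i, D.weight n e {m} (fun _ => 1) i = ((t : ℚ) * D.rank n m e) * D.ratio m i := by
    intro i
    rw [Decomposition.weight, Finset.sum_singleton, Decomposition.ratio, ← ht]
    ring
  have h5 := falg_smul (c := ((((t : ℚ) * D.rank n m e)⁻¹ : ℚ) : K))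
    (SubfieldClass.ratCast_mem F _) h1
  rw [Finset.smul_sum] at h5
  have h7 : ∀ i, ((((t : ℚ) * D.rank n m e)⁻¹ : ℚ) : K) •
      ((D.weight n e {m} (fun _ => 1) i : ℚ) : K) • D.proj i =
      ((D.ratio m i : ℚ) : K) • D.proj i := by
    intro i
    rw [smul_smul, ← Rat.cast_mul, hw, ← mul_assoc, inv_mul_cancel₀ (mul_ne_zero htq hρ), one_mul]
  rwa [Finset.sum_congr rfl fun i _ => h7 i] at h5

lemma falg_rat {F : Subfield K} {X : C} (q : ℚ) {x : R.H.obj X ⟶ R.H.obj X}
    (hx : x ∈ FAlg R F X) : ((q : ℚ) : K) • x ∈ FAlg R F X :=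
  falg_smul (SubfieldClass.ratCast_mem F q) hx

lemma falg_one {F : Subfield K} {X : C} : 𝟙 (R.H.obj X) ∈ FAlg R F X := by
  have h := falg_map (R := R) (F := F) (𝟙 X)
  rwa [CategoryTheory.Functor.map_id] at h

lemma Decomposition.falg_poly {F : Subfield K} {a : ι → ℚ}
    (h : (∑ i, ((a i : ℚ) : K) • D.proj i) ∈ FAlg R F M) (p : Polynomial ℚ) :
    (∑ i, ((p.eval (a i) : ℚ) : K) • D.proj i) ∈ FAlg R F M := by
  have hK := R_charZero R
  induction p using Polynomial.induction_on with
  | C c =>
    simp only [Polynomial.eval_C]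
    rw [← Finset.smul_sum, D.sum_proj]
    exact falg_rat c falg_one
  | add p q hp hq =>
    simp only [Polynomial.eval_add, Rat.cast_add, add_smul, Finset.sum_add_distrib]
    exact add_mem hp hq
  | monomial n c hp =>
    have h1 := falg_comp hp h
    rw [D.comb_comp] at h1
    have h2 : ∀ i, (((Polynomial.eval (a i) (Polynomial.C c * Polynomial.X ^ n) : ℚ) : K) *
        ((a i : ℚ) : K)) • D.proj i =
        ((Polynomial.eval (a i) (Polynomial.C c * Polynomial.X ^ (n + 1)) : ℚ) : K) •
          D.proj i := by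
      intro i
      congr 1
      simp only [Polynomial.eval_mul, Polynomial.eval_C, Polynomial.eval_pow, Polynomial.eval_X]
      push_cast
      ring
    rwa [Finset.sum_congr rfl fun i _ => h2 i] at h1

lemma Decomposition.falg_level {F : Subfield K} {a : ι → ℚ}
    (h : (∑ i, ((a i : ℚ) : K) • D.proj i) ∈ FAlg R F M) (q : ℚ) :
    (∑ i with a i = q, D.proj i) ∈ FAlg R F M := by
  classical
  have h1 := D.falg_poly h (∏ r ∈ (Finset.univ.image a).erase q,
    Polynomial.C ((q - r)⁻¹) * (Polynomial.X - Polynomial.C r))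
  rw [Finset.sum_filter]
  have key : ∀ i, ((Polynomial.eval (a i) (∏ r ∈ (Finset.univ.image a).erase q,
      Polynomial.C ((q - r)⁻¹) * (Polynomial.X - Polynomial.C r)) : ℚ) : K) • D.proj i =
      if a i = q then D.proj i else 0 := ?_
  · rwa [Finset.sum_congr rfl fun i _ => key i] at h1
  intro i
  rw [Polynomial.eval_prod]
  split_ifs with h2
  · rw [Finset.prod_eq_one, Rat.cast_one, one_smul]
    intro r hr
    have h3 : q - r ≠ 0 := sub_ne_zero.2 (Ne.symm (Finset.ne_of_mem_erase hr))
    simp only [Polynomial.eval_mul, Polynomial.eval_C, Polynomial.eval_sub, Polynomial.eval_X, h2]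
    exact inv_mul_cancel₀ h3
  · rw [Finset.prod_eq_zero (i := a i), Rat.cast_zero, zero_smul]
    · exact Finset.mem_erase.2 ⟨h2, Finset.mem_image_of_mem a (Finset.mem_univ i)⟩
    · simp

/-- **One algebraic combination of pieces gives algebraic projectors.** -/
theorem Decomposition.level_of_comb {F : Subfield K} {n : ℕ} {e : End (tp M n)}
    (he : e ∈ Young M n) (S : Finset (ι → ℕ)) (f : (ι → ℕ) → ℚ)
    (h : (∑ m ∈ S, ((f m : ℚ) : K) • D.piece n m e) ∈ FAlg R F (tp M n)) (q : ℚ) :
    (∑ i with D.weight n e S f i = q, D.proj i) ∈ FAlg R F M :=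
  D.falg_level (D.falg_comb he S f h) q

/-- **One nonzero algebraic piece gives algebraic projectors.** -/
theorem Decomposition.level_of_piece {F : Subfield K} {n : ℕ} {m : ι → ℕ} {e : End (tp M n)}
    (he : e ∈ Young M n) (h0 : D.piece n m e ≠ 0) (h : D.piece n m e ∈ FAlg R F (tp M n))
    (q : ℚ) : (∑ i with D.ratio m i = q, D.proj i) ∈ FAlg R F M :=
  D.falg_level (D.falg_num he h0 h) q

lemma falg_bx {F : Subfield K} {Q X : C} {a : R.H.obj Q ⟶ R.H.obj Q} {b : R.H.obj X ⟶ R.H.obj X}
    (ha : a ∈ FAlg R F Q) (hb : b ∈ FAlg R F X) : bx R a b ∈ FAlg R F (Q ⊗ X) := by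
  refine falg_ind (p := fun y => bx R y b ∈ FAlg R F (Q ⊗ X)) ?_ ?_ ?_ ha
  · intro c hc g
    refine falg_ind (p := fun y => bx R (c • R.H.map g) y ∈ FAlg R F (Q ⊗ X)) ?_ ?_ ?_ hb
    · intro d hd f
      rw [bx_smul_left, bx_smul_right, bx_map]
      exact falg_smul hc (falg_smul hd (falg_map _))
    · rw [bx_zero_right]
      exact zero_mem _
    · intro x y hx hy
      rw [bx_add_right]
      exact add_mem hx hy
  · rw [bx_zero_left]
    exact zero_mem _
  · intro x y hx hy
    rw [bx_add_left]
    exact add_mem hx hy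

lemma Decomposition.typeProj_neg (n : ℕ) (m : ι → ℤ) (j : ι) (hj : m j < 0) :
    D.typeProj n m = 0 := by
  induction n generalizing m with
  | zero =>
    rw [D.typeProj_zero, if_neg]
    rintro rfl
    simp at hj
  | succ n ih =>
    rw [D.typeProj_succ]
    refine Finset.sum_eq_zero fun i _ => ?_
    rw [ih, bx_zero_left]
    rw [Pi.sub_apply, Pi.single_apply]
    split_ifs <;> omega

lemma Decomposition.falg_typeProj {F : Subfield K} (n : ℕ) (m : ι → ℤ)
    (h : ∀ i, m i ≠ 0 → D.proj i ∈ FAlg R F M) : D.typeProj n m ∈ FAlg R F (tp M n) := by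
  induction n generalizing m with
  | zero =>
    rw [D.typeProj_zero]
    split_ifs
    · exact falg_one
    · exact zero_mem _
  | succ n ih =>
    rw [D.typeProj_succ]
    refine sum_mem fun i _ => ?_
    by_cases hi : m i = 0
    · rw [D.typeProj_neg n _ i, bx_zero_left]
      · exact zero_mem _
      · rw [Pi.sub_apply, Pi.single_eq_same, hi]
        omega
    · refine falg_bx (ih _ fun j hj => h j ?_) (h i hi)
      intro h0
      apply hj
      rw [Pi.sub_apply, h0, Pi.single_apply]
      split_ifs with h1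
      · exact absurd (h1 ▸ h0) hi
      · rfl

lemma Decomposition.falg_piece {F : Subfield K} {n : ℕ} {m : ι → ℕ} (e : End (tp M n))
    (h : ∀ i, m i ≠ 0 → D.proj i ∈ FAlg R F M) : D.piece n m e ∈ FAlg R F (tp M n) :=
  falg_comp (falg_map e) (D.falg_typeProj n _ fun i hi => h i (by exact_mod_cast hi))

/-- Nonzero pieces only involve nonzero subspaces. -/
lemma Decomposition.typeProj_of_zero (n : ℕ) (m : ι → ℤ) (j : ι) (hj : m j ≠ 0)
    (h0 : D.proj j = 0) : D.typeProj n m = 0 := by
  induction n generalizing m with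
  | zero =>
    rw [D.typeProj_zero, if_neg]
    rintro rfl
    exact hj rfl
  | succ n ih =>
    rw [D.typeProj_succ]
    refine Finset.sum_eq_zero fun i _ => ?_
    by_cases hi : i = j
    · rw [hi, h0, bx_zero_right]
    · rw [ih, bx_zero_left]
      rw [Pi.sub_apply, Pi.single_eq_of_ne (Ne.symm hi), sub_zero]
      exact hj

lemma Decomposition.level_single {q : ℚ} {m : ι → ℕ} (i : ι) (hq : D.ratio m i = q)
    (h : ∀ j, j ≠ i → D.proj j ≠ 0 → D.ratio m j ≠ q) :
    (∑ j with D.ratio m j = q, D.proj j) = D.proj i := by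
  rw [Finset.sum_eq_single i]
  · intro j hj hji
    by_contra h1
    exact h j hji h1 (Finset.mem_filter.1 hj).2
  · intro hi
    exact absurd (Finset.mem_filter.2 ⟨Finset.mem_univ i, hq⟩) hi

/-- **One nonzero piece decides the projectors onto the subspaces which occur in its type.** -/
theorem Decomposition.support_iff {F : Subfield K} {n : ℕ} {m : ι → ℕ}
    (hm : ∀ i j, m i ≠ 0 → D.proj j ≠ 0 → D.ratio m i = D.ratio m j → i = j)
    {e : End (tp M n)} (he : e ∈ Young M n) (h0 : D.piece n m e ≠ 0) :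
    D.piece n m e ∈ FAlg R F (tp M n) ↔ ∀ i, m i ≠ 0 → D.proj i ∈ FAlg R F M := by
  refine ⟨fun h i hi => ?_, fun h => D.falg_piece e h⟩
  have h1 := D.level_of_piece he h0 h (D.ratio m i)
  rwa [D.level_single i rfl fun j hj h2 h3 => hj (hm i j hi h2 h3.symm).symm] at h1

/-- **One nonzero piece of a separating type decides.** -/
theorem Decomposition.separating_iff {F : Subfield K} {n : ℕ} {m : ι → ℕ}
    (hm : D.Separating m) {e : End (tp M n)} (he : e ∈ Young M n) (h0 : D.piece n m e ≠ 0) :
    D.piece n m e ∈ FAlg R F (tp M n) ↔ ∀ i, D.proj i ∈ FAlg R F M := by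
  refine ⟨fun h i => ?_, fun h => D.falg_piece e fun i _ => h i⟩
  by_cases hi : D.proj i = 0
  · rw [hi]
    exact zero_mem _
  · have h1 := D.level_of_piece he h0 h (D.ratio m i)
    rwa [D.level_single i rfl fun j hj h2 h3 => hj (hm j i h2 hi h3)] at h1

/-- **One nonzero piece of a tensor power of one subspace decides.** -/
theorem Decomposition.single_iff {F : Subfield K} {n : ℕ} (hn : 1 ≤ n) (i : ι)
    {e : End (tp M n)} (he : e ∈ Young M n) (h0 : D.piece n (Pi.single i n) e ≠ 0) :
    D.piece n (Pi.single i n) e ∈ FAlg R F (tp M n) ↔ D.proj i ∈ FAlg R F M := by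
  refine ⟨fun h => ?_, fun h => D.falg_piece e fun j hj => ?_⟩
  · have hi : D.proj i ≠ 0 := by
      intro hi
      apply h0
      rw [Decomposition.piece, D.typeProj_of_zero n _ i _ hi, comp_zero]
      rw [Pi.single_eq_same]
      exact_mod_cast (by omega : n ≠ 0)
    have hd : D.dim i ≠ 0 := fun h => hi (D.proj_of_dim h)
    have h1 := D.level_of_piece he h0 h (D.ratio (Pi.single i n) i)
    rwa [D.level_single i rfl] at h1
    intro j hj _ h3
    rw [Decomposition.ratio, Decomposition.ratio, Pi.single_eq_of_ne hj, Pi.single_eq_same] at h3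
    have h4 : ((D.sgn i : ℤ) : ℚ) * n / D.dim i ≠ 0 := by
      refine div_ne_zero (mul_ne_zero ?_ ?_) (by exact_mod_cast hd)
      · rcases Int.units_eq_one_or (D.sgn i) with h | h <;> rw [h] <;> simp
      · exact_mod_cast (by omega : n ≠ 0)
    apply h4
    rw [← h3]
    simp
  · by_cases hji : j = i
    · rwa [hji]
    · rw [Pi.single_eq_of_ne hji] at hj
      exact absurd rfl hj

end

end Q56.PC
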