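import Pool.Agent.Y112.SC.Main

/-!
# Monomials in exchanges and operators on one factor
-/

set_option autoImplicit false
set_option linter.unusedSectionVars false
set_option linter.unusedSimpArgs false
set_option backward.isDefEq.respectTransparency false
set_option backward.defeqAttrib.useBackward true

open CategoryTheory Limits MonoidalCategory
open Pool.Agent.Y112.SR Pool.Agent.Y112.KD Pool.Agent.Y112.SC

namespace Q56.PC

universe v u w

open Functor.LaxMonoidal Functor.OplaxMonoidal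

section

variable {C : Type u} [Category.{v} C] [Preadditive C] [MonoidalCategory C] [SymmetricCategory C]
  {K : Type w} [Field K] (R : SuperRealisation C K)

/-- A class of even operators on one object which is closed under products. -/
structure BoxClass {X : C} (B : (R.H.obj X ⟶ R.H.obj X) → Prop) : Prop where
  one : B (𝟙 _)
  comp : ∀ b c, B b → B c → B (b ≫ c)
  comm : ∀ b, B b → b ≫ R.par X = R.par X ≫ b

variable {R}

lemma Sg_natB (h2 : (2 : K) ≠ 0) {X : C} {B : (R.H.obj X ⟶ R.H.obj X) → Prop}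
    (hB : BoxClass R B) {n : ℕ} (a : R.H.obj (tp X n) ⟶ R.H.obj (tp X n))
    {b c : R.H.obj X ⟶ R.H.obj X} (hb : B b) (hc : B c) :
    bx R (bx R a b) c ≫ Sg R X n = Sg R X n ≫ bx R (bx R a c) b :=
  bx_sw R h2 a b c (hB.comm b hb) (hB.comm c hc)

variable (R)

/-- The monomials in the exchanges of neighbouring factors and operators of the class `B` on the
factors. -/
inductive MonB {X : C} (B : (R.H.obj X ⟶ R.H.obj X) → Prop) :
    ∀ n : ℕ, (R.H.obj (tp X n) ⟶ R.H.obj (tp X n)) → Prop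
  | one (n : ℕ) : MonB B n (𝟙 _)
  | box (n : ℕ) (a : R.H.obj (tp X n) ⟶ R.H.obj (tp X n)) (b : R.H.obj X ⟶ R.H.obj X) :
      MonB B n a → B b → MonB B (n + 1) (bx R a b)
  | swp (n : ℕ) (a a' : R.H.obj (tp X (n + 1)) ⟶ R.H.obj (tp X (n + 1)))
      (b : R.H.obj X ⟶ R.H.obj X) : MonB B (n + 1) a → MonB B (n + 1) a' → B b →
      MonB B (n + 2) (bx R a b ≫ Sg R X n ≫ bx R a' (𝟙 _))

variable {R}

lemma MonB.sg {X : C} {B : (R.H.obj X ⟶ R.H.obj X) → Prop} (hB : BoxClass R B) (n : ℕ) :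
    MonB R B (n + 2) (Sg R X n) := by
  have h := MonB.swp n (𝟙 _) (𝟙 _) (𝟙 _) (MonB.one (R := R) (B := B) (n + 1)) (MonB.one (n + 1))
    hB.one
  rwa [bx_one, Category.comp_id, Category.id_comp] at h

lemma MonB.compBox (h2 : (2 : K) ≠ 0) {X : C} {B : (R.H.obj X ⟶ R.H.obj X) → Prop}
    (hB : BoxClass R B) {n : ℕ}
    (IH : ∀ x y, MonB R B n x → MonB R B n y → MonB R B n (x ≫ y))
    {x : R.H.obj (tp X (n + 1)) ⟶ R.H.obj (tp X (n + 1))} (hx : MonB R B (n + 1) x)
    {c : R.H.obj (tp X n) ⟶ R.H.obj (tp X n)} (hc : MonB R B n c) {d : R.H.obj X ⟶ R.H.obj X}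
    (hd : B d) : MonB R B (n + 1) (x ≫ bx R c d) := by
  cases hx with
  | one => rw [Category.id_comp]; exact MonB.box _ _ _ hc hd
  | box _ a b ha hb => rw [bx_comp]; exact MonB.box _ _ _ (IH _ _ ha hc) (hB.comp _ _ hb hd)
  | swp m a a' b ha ha' hb =>
    have e1 : Sg R X m ≫ bx R (𝟙 _) d = bx R (bx R (𝟙 _) d) (𝟙 _) ≫ Sg R X m := by
      rw [Sg_natB h2 hB _ hd hB.one, bx_one]
    have e2 : (bx R a b ≫ Sg R X m ≫ bx R a' (𝟙 _)) ≫ bx R c d =
        bx R (a ≫ bx R (𝟙 _) d) b ≫ Sg R X m ≫ bx R (a' ≫ c) (𝟙 _) := by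
      have e3 : bx R a' (𝟙 _) ≫ bx R c d = bx R (𝟙 _) d ≫ bx R (a' ≫ c) (𝟙 _) := by
        rw [bx_comp, bx_comp, Category.id_comp, Category.id_comp, Category.comp_id]
      rw [Category.assoc, Category.assoc, e3, ← Category.assoc (Sg R X m), e1, Category.assoc,
        ← Category.assoc (bx R a b), bx_comp, Category.comp_id]
    rw [e2]
    exact MonB.swp m _ _ _ (IH _ _ ha (MonB.box _ _ _ (MonB.one _) hd)) (IH _ _ ha' hc) hb

lemma MonB.compSg (h2 : (2 : K) ≠ 0) {X : C} {B : (R.H.obj X ⟶ R.H.obj X) → Prop}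
    (hB : BoxClass R B) {m : ℕ}
    (IH : ∀ x y, MonB R B (m + 1) x → MonB R B (m + 1) y → MonB R B (m + 1) (x ≫ y))
    {x : R.H.obj (tp X (m + 2)) ⟶ R.H.obj (tp X (m + 2))} (hx : MonB R B (m + 2) x) :
    MonB R B (m + 2) (x ≫ Sg R X m) := by
  cases hx with
  | one => rw [Category.id_comp]; exact MonB.sg hB m
  | box _ a b ha hb =>
    have h := MonB.swp m a (𝟙 _) b ha (MonB.one _) hb
    rwa [bx_one, Category.comp_id] at h
  | swp _ a a' b ha ha' hb =>
    cases ha' with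
    | one =>
      rw [bx_one, Category.comp_id, Category.assoc, Sg_Sg, Category.comp_id]
      exact MonB.box _ _ _ ha hb
    | box _ h c hh hc =>
      have e1 : (bx R a b ≫ Sg R X m ≫ bx R (bx R h c) (𝟙 _)) ≫ Sg R X m =
          bx R (a ≫ bx R h (𝟙 _)) (b ≫ c) := by
        rw [Category.assoc, Category.assoc, Sg_natB h2 hB _ hc hB.one,
          ← Category.assoc (Sg R X m), Sg_Sg, Category.id_comp, bx_comp]
      rw [e1]
      exact MonB.box _ _ _ (IH _ _ ha (MonB.box _ _ _ hh hB.one)) (hB.comp _ _ hb hc)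
    | swp m' h h' c hh hh' hc =>
      have e1 : (bx R a b ≫ Sg R X (m' + 1) ≫ bx R (bx R h c ≫ Sg R X m' ≫ bx R h' (𝟙 _)) (𝟙 _)) ≫
          Sg R X (m' + 1) = bx R (a ≫ bx R h (𝟙 _) ≫ Sg R X m') (b ≫ c) ≫ Sg R X (m' + 1) ≫
          bx R (Sg R X m' ≫ bx R h' (𝟙 _)) (𝟙 _) := by
        have f1 : bx R (bx R h c ≫ Sg R X m' ≫ bx R h' (𝟙 _)) (𝟙 (R.H.obj X)) =
            bx R (bx R h c) (𝟙 _) ≫ bx R (Sg R X m') (𝟙 _) ≫ bx R (bx R h' (𝟙 _)) (𝟙 _) := by
          rw [bx_comp, bx_comp, Category.comp_id, Category.comp_id]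
        have f2 : Sg R X (m' + 1) ≫ bx R (bx R h c) (𝟙 _) =
            bx R (bx R h (𝟙 _)) c ≫ Sg R X (m' + 1) := (Sg_natB h2 hB _ hB.one hc).symm
        have f3 : bx R (bx R h' (𝟙 _)) (𝟙 _) ≫ Sg R X (m' + 1) =
            Sg R X (m' + 1) ≫ bx R (bx R h' (𝟙 _)) (𝟙 _) :=
          Sg_natB h2 hB _ hB.one hB.one
        have f4 := Sg_braid R X m'
        have f5 : bx R (a ≫ bx R h (𝟙 _) ≫ Sg R X m') (b ≫ c) =
            bx R a b ≫ bx R (bx R h (𝟙 _)) c ≫ bx R (Sg R X m') (𝟙 _) := by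
          rw [bx_comp, bx_comp, Category.comp_id]
        have f6 : bx R (Sg R X m' ≫ bx R h' (𝟙 _)) (𝟙 (R.H.obj X)) =
            bx R (Sg R X m') (𝟙 _) ≫ bx R (bx R h' (𝟙 _)) (𝟙 _) := by
          rw [bx_comp, Category.comp_id]
        rw [f1, f5, f6]
        simp only [Category.assoc]
        rw [f3, reassoc_of% f2, reassoc_of% f4]
      rw [e1]
      exact MonB.swp _ _ _ _ (IH _ _ ha (IH _ _ (MonB.box _ _ _ hh hB.one) (MonB.sg hB m')))
        (IH _ _ (MonB.sg hB m') (MonB.box _ _ _ hh' hB.one)) (hB.comp _ _ hb hc)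

/-- Products of monomials are monomials. -/
lemma MonB.comp (h2 : (2 : K) ≠ 0) {X : C} {B : (R.H.obj X ⟶ R.H.obj X) → Prop}
    (hB : BoxClass R B) (n : ℕ) :
    ∀ x y, MonB R B n x → MonB R B n y → MonB R B n (x ≫ y) := by
  induction n with
  | zero =>
    intro x y hx hy
    cases hx
    rwa [Category.id_comp]
  | succ n IH =>
    intro x y hx hy
    cases hy with
    | one => rwa [Category.comp_id]
    | box _ c d hc hd => exact MonB.compBox h2 hB IH hx hc hd
    | swp m c c' d hc hc' hd =>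
      rw [← Category.assoc, ← Category.assoc]
      exact MonB.compBox h2 hB IH (MonB.compSg h2 hB IH (MonB.compBox h2 hB IH hx hc hd)) hc' hB.one

/-- Exchanges are monomials. -/
lemma MonB.swap {X : C} {B : (R.H.obj X ⟶ R.H.obj X) → Prop} (hB : BoxClass R B) {n : ℕ}
    {s : tp X n ⟶ tp X n} (hs : IsSwap X n s) : MonB R B n (R.H.map s) := by
  induction hs with
  | last n => exact MonB.sg hB n
  | lift n s hs ih =>
    rw [map_whiskerRight_eq]
    exact MonB.box _ _ _ ih hB.one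

variable (R)

/-- Linear combinations of monomials. -/
inductive RB {X : C} (B : (R.H.obj X ⟶ R.H.obj X) → Prop) (n : ℕ) :
    (R.H.obj (tp X n) ⟶ R.H.obj (tp X n)) → Prop
  | mon (x : R.H.obj (tp X n) ⟶ R.H.obj (tp X n)) : MonB R B n x → RB B n x
  | add (x y : R.H.obj (tp X n) ⟶ R.H.obj (tp X n)) : RB B n x → RB B n y → RB B n (x + y)
  | smul (k : K) (x : R.H.obj (tp X n) ⟶ R.H.obj (tp X n)) : RB B n x → RB B n (k • x)

variable {R}

lemma RB.comp (h2 : (2 : K) ≠ 0) {X : C} {B : (R.H.obj X ⟶ R.H.obj X) → Prop}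
    (hB : BoxClass R B) {n : ℕ} {x y : R.H.obj (tp X n) ⟶ R.H.obj (tp X n)}
    (hx : RB R B n x) (hy : RB R B n y) : RB R B n (x ≫ y) := by
  induction hx with
  | mon x hx =>
    induction hy with
    | mon y hy => exact RB.mon _ (MonB.comp h2 hB n x y hx hy)
    | add y z _ _ h1 h2 => rw [Preadditive.comp_add]; exact RB.add _ _ h1 h2
    | smul q y _ h1 => rw [Linear.comp_smul]; exact RB.smul _ _ h1
  | add y z _ _ h1 h2 => rw [Preadditive.add_comp]; exact RB.add _ _ h1 h2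
  | smul q y _ h1 => rw [Linear.smul_comp]; exact RB.smul _ _ h1

lemma RB.box {X : C} {B : (R.H.obj X ⟶ R.H.obj X) → Prop} {n : ℕ}
    {x : R.H.obj (tp X n) ⟶ R.H.obj (tp X n)} (hx : RB R B n x)
    {b : R.H.obj X ⟶ R.H.obj X} (hb : B b) : RB R B (n + 1) (bx R x b) := by
  induction hx with
  | mon x hx => exact RB.mon _ (MonB.box _ _ _ hx hb)
  | add y z _ _ h1 h2 => rw [bx_add_left]; exact RB.add _ _ h1 h2
  | smul q y _ h1 => rw [bx_smul_left]; exact RB.smul _ _ h1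

lemma RB.zero {X : C} {B : (R.H.obj X ⟶ R.H.obj X) → Prop} (n : ℕ) :
    RB R B n (0 : R.H.obj (tp X n) ⟶ R.H.obj (tp X n)) := by
  have h := RB.smul (0 : K) _ (RB.mon _ (MonB.one (R := R) (B := B) n))
  rwa [zero_smul] at h

lemma RB.sum {X : C} {B : (R.H.obj X ⟶ R.H.obj X) → Prop} (n : ℕ) {ι : Type*}
    (s : Finset ι) (f : ι → (R.H.obj (tp X n) ⟶ R.H.obj (tp X n)))
    (h : ∀ i ∈ s, RB R B n (f i)) : RB R B n (∑ i ∈ s, f i) := by
  classical
  induction s using Finset.induction_on with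
  | empty => rw [Finset.sum_empty]; exact RB.zero n
  | insert i s hi ih =>
    rw [Finset.sum_insert hi]
    exact RB.add _ _ (h i (Finset.mem_insert_self i s))
      (ih fun j hj => h j (Finset.mem_insert_of_mem hj))

/-- The shape of the combinations on one factor. -/
lemma RB.one_shape {X : C} {B : (R.H.obj X ⟶ R.H.obj X) → Prop} (hB : BoxClass R B)
    (hadd : ∀ b c, B b → B c → B (b + c)) (hsmul : ∀ (k : K) b, B b → B (k • b))
    {x : R.H.obj (tp X 1) ⟶ R.H.obj (tp X 1)}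
    (hx : RB R B 1 x) : ∃ b, B b ∧ x = bx R (𝟙 (R.H.obj (tp X 0))) b := by
  induction hx with
  | mon x hx =>
    cases hx with
    | one => exact ⟨𝟙 _, hB.one, (bx_one R (tp X 0) X).symm⟩
    | box _ a b ha hb =>
      cases ha
      exact ⟨b, hb, rfl⟩
  | add y z _ _ h1 h2 =>
    obtain ⟨a, ha, rfl⟩ := h1
    obtain ⟨a', ha', rfl⟩ := h2
    exact ⟨a + a', hadd _ _ ha ha', (bx_add_right R _ _ _).symm⟩
  | smul q y _ h1 =>
    obtain ⟨a, ha, rfl⟩ := h1
    exact ⟨q • a, hsmul _ _ ha, (bx_smul_right R _ _ _).symm⟩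

end

section

variable {C : Type u} [Category.{v} C] [Preadditive C] [Linear ℚ C] [MonoidalCategory C]
  [MonoidalPreadditive C] [MonoidalLinear ℚ C] [SymmetricCategory C]
  [RightRigidCategory C] {K : Type w} [Field K] {R : SuperRealisation C K}

/-- The partial trace of a combination of monomials. -/
lemma RB.PT {X : C} {B : (R.H.obj X ⟶ R.H.obj X) → Prop} (hB : BoxClass R B) {n : ℕ}
    {x : R.H.obj (tp X (n + 1)) ⟶ R.H.obj (tp X (n + 1))}
    (hx : RB R B (n + 1) x) : RB R B n (PT R x) := by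
  have hK := R_charZero R
  have h2 : (2 : K) ≠ 0 := two_ne_zero
  have hbox : ∀ (a : R.H.obj (tp X n) ⟶ R.H.obj (tp X n)) (b : R.H.obj X ⟶ R.H.obj X),
      MonB R B n a → B b → RB R B n (Pool.Agent.Y112.SC.PT R (bx R a b)) := by
    intro a b ha hb'
    rw [PT_bx R h2]
    exact RB.smul _ _ (RB.mon _ ha)
  induction hx with
  | mon x hx =>
    cases hx with
    | one =>
      have h := hbox (𝟙 _) (𝟙 _) (MonB.one n) hB.one
      rwa [bx_one] at h
    | box _ a b ha hb' => exact hbox a b ha hb'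
    | swp m a a' b ha ha' hb' =>
      have e1 : bx R a b ≫ Sg R X m ≫ bx R a' (𝟙 _) =
          bx R a (𝟙 _) ≫ Sg R X m ≫ bx R (bx R (𝟙 _) b ≫ a') (𝟙 _) := by
        have e2 : bx R a b = bx R a (𝟙 _) ≫ bx R (𝟙 _) b := by
          rw [bx_comp, Category.comp_id, Category.id_comp]
        have e3 : bx R (𝟙 _) b ≫ Sg R X m = Sg R X m ≫ bx R (bx R (𝟙 _) b) (𝟙 _) := by
          rw [← Sg_natB h2 hB _ hB.one hb', bx_one]
        have e4 : bx R (bx R (𝟙 _) b ≫ a') (𝟙 (R.H.obj X)) =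
            bx R (bx R (𝟙 _) b) (𝟙 _) ≫ bx R a' (𝟙 _) := by
          rw [bx_comp, Category.comp_id]
        rw [e2, e4, Category.assoc, reassoc_of% e3]
      have e5 : Pool.Agent.Y112.SC.PT R (bx R a b ≫ Sg R X m ≫ bx R a' (𝟙 _)) = a ≫ bx R (𝟙 _) b ≫ a' := by
        rw [e1, PT_comp]
        have e6 : Pool.Agent.Y112.SC.PT R (Sg R X m) = 𝟙 _ := PT_sw R _ _
        rw [e6, Category.id_comp]
      rw [e5]
      exact RB.mon _ (MonB.comp h2 hB _ _ _ ha (MonB.comp h2 hB _ _ _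
        (MonB.box _ _ _ (MonB.one _) hb') ha'))
  | add y z _ _ h1 h2 => rw [PT_add]; exact RB.add _ _ h1 h2
  | smul q y _ h1 => rw [PT_smul]; exact RB.smul _ _ h1

lemma RB.PTn {X : C} {B : (R.H.obj X ⟶ R.H.obj X) → Prop} (hB : BoxClass R B) (n : ℕ)
    {x : R.H.obj (tp X (n + 1)) ⟶ R.H.obj (tp X (n + 1))}
    (hx : RB R B (n + 1) x) : RB R B 1 (PTn R X n x) := by
  induction n with
  | zero => exact hx
  | succ n ih => exact ih (hx.PT hB)

/-- The combinations of permutations. -/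
lemma RB.of_adjoin {X : C} {B : (R.H.obj X ⟶ R.H.obj X) → Prop} (hB : BoxClass R B) {n : ℕ}
    {e : End (tp X n)} (he : e ∈ Algebra.adjoin ℚ {s : End (tp X n) | IsSwap X n s}) :
    RB R B n (R.H.map e) := by
  have hK := R_charZero R
  induction he using Algebra.adjoin_induction with
  | mem s hs => exact RB.mon _ (MonB.swap hB hs)
  | algebraMap q =>
    have h1 : (algebraMap ℚ (End (tp X n)) q : tp X n ⟶ tp X n) = q • 𝟙 _ := by
      rw [Algebra.algebraMap_eq_smul_one]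
      rfl
    rw [h1, R_smul, CategoryTheory.Functor.map_id]
    exact RB.smul _ _ (RB.mon _ (MonB.one n))
  | add x y _ _ hx hy =>
    have h1 : R.H.map (x + y : End (tp X n)) = R.H.map x + R.H.map y := R.H.map_add
    rw [h1]
    exact RB.add _ _ hx hy
  | mul x y _ _ hx hy =>
    rw [End.mul_def, Functor.map_comp]
    exact RB.comp two_ne_zero hB hy hx

end

end Q56.PC
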