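import Pool.Agent.Q56.PC.Mon

/-!
# Tensors with a given number of factors in each part of a decomposition
-/

set_option autoImplicit false
set_option linter.unusedSectionVars false
set_option linter.unusedSimpArgs false
set_option backward.isDefEq.respectTransparency false
set_option backward.defeqAttrib.useBackward true

open CategoryTheory Limits MonoidalCategory
open Pool.Agent.Y112.SR Pool.Agent.Y112.KD Pool.Agent.Y112.SC

namespace Q56.PC

universe v u w

open Functor.LaxMonoidal Functor.OplaxMonoidal

section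

variable {C : Type u} [Category.{v} C] [Preadditive C] [MonoidalCategory C] [SymmetricCategory C]
  {K : Type w} [Field K] (R : SuperRealisation C K)

/-- A finite decomposition of the realisation `H(M)` into subspaces, each of them in the even or in
the odd part: `proj i` is the projector onto the `i`-th subspace and `sgn i` its parity. -/
structure Decomposition (M : C) (ι : Type) [Fintype ι] where
  /-- the projectors -/
  proj : ι → (R.H.obj M ⟶ R.H.obj M)
  /-- the parity: `1` for even, `-1` for odd -/
  sgn : ι → ℤˣ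
  proj_comp_self : ∀ i, proj i ≫ proj i = proj i
  proj_comp : ∀ i j, i ≠ j → proj i ≫ proj j = 0
  sum_proj : ∑ i, proj i = 𝟙 _
  proj_par : ∀ i, proj i ≫ R.par M = ((sgn i : ℤ) : K) • proj i

variable {R}
variable {M : C} {ι : Type} [Fintype ι] [DecidableEq ι] (D : Decomposition R M ι)

/-- The projector of `H(M ^ n)` onto the tensors with exactly `m i` factors in the `i`-th subspace
of the decomposition, for all `i` (where `n` is the sum of the numbers `m i`; zero otherwise). -/
noncomputable def Decomposition.typeProj : ∀ (n : ℕ) (_ : ι → ℤ),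
    R.H.obj (tp M n) ⟶ R.H.obj (tp M n)
  | 0, m => if m = 0 then 𝟙 _ else 0
  | n + 1, m => ∑ i, bx R (Decomposition.typeProj n (m - Pi.single i 1)) (D.proj i)

/-- The number of factors in the `i`-th subspace. -/
noncomputable def Decomposition.num (i : ι) : ∀ n : ℕ, R.H.obj (tp M n) ⟶ R.H.obj (tp M n)
  | 0 => 0
  | n + 1 => bx R (Decomposition.num i n) (𝟙 _) + bx R (𝟙 _) (D.proj i)

/-- The linear combinations of the projectors. -/
def Decomposition.Box (b : R.H.obj M ⟶ R.H.obj M) : Prop := ∃ c : ι → K, b = ∑ i, c i • D.proj i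

lemma Decomposition.proj_mul (i j : ι) : D.proj i ≫ D.proj j = if i = j then D.proj i else 0 := by
  split_ifs with h
  · rw [← h, D.proj_comp_self]
  · exact D.proj_comp i j h

lemma Decomposition.par_eq : R.par M = ∑ i, ((D.sgn i : ℤ) : K) • D.proj i := by
  have h : R.par M = (∑ i, D.proj i) ≫ R.par M := by rw [D.sum_proj, Category.id_comp]
  rw [h, Preadditive.sum_comp]
  exact Finset.sum_congr rfl fun i _ => D.proj_par i

lemma Decomposition.comb_comp (c d : ι → K) : (∑ i, c i • D.proj i) ≫ (∑ i, d i • D.proj i) =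
    ∑ i, (c i * d i) • D.proj i := by
  rw [Preadditive.sum_comp]
  refine Finset.sum_congr rfl fun i _ => ?_
  rw [Preadditive.comp_sum, Finset.sum_eq_single i]
  · rw [Linear.smul_comp, Linear.comp_smul, D.proj_comp_self, smul_smul]
  · intro j _ hj
    rw [Linear.smul_comp, Linear.comp_smul, D.proj_comp i j (Ne.symm hj), smul_zero, smul_zero]
  · intro h
    exact absurd (Finset.mem_univ i) h

lemma Decomposition.box_proj (i : ι) : D.Box (D.proj i) := by
  refine ⟨Pi.single i 1, ?_⟩
  rw [Finset.sum_eq_single i]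
  · rw [Pi.single_eq_same, one_smul]
  · intro j _ hj
    rw [Pi.single_eq_of_ne hj, zero_smul]
  · intro h
    exact absurd (Finset.mem_univ i) h

lemma Decomposition.boxClass : BoxClass R D.Box where
  one := ⟨fun _ => 1, by simp only [one_smul, D.sum_proj]⟩
  comp := by
    rintro _ _ ⟨c, rfl⟩ ⟨d, rfl⟩
    exact ⟨fun i => c i * d i, D.comb_comp c d⟩
  comm := by
    rintro _ ⟨c, rfl⟩
    rw [D.par_eq, D.comb_comp, D.comb_comp]
    exact Finset.sum_congr rfl fun i _ => by rw [mul_comm]

lemma Decomposition.box_add (b c : R.H.obj M ⟶ R.H.obj M) (hb : D.Box b) (hc : D.Box c) :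
    D.Box (b + c) := by
  obtain ⟨c, rfl⟩ := hb
  obtain ⟨d, rfl⟩ := hc
  exact ⟨fun i => c i + d i, by simp only [add_smul, Finset.sum_add_distrib]⟩

lemma Decomposition.box_smul (k : K) (b : R.H.obj M ⟶ R.H.obj M) (hb : D.Box b) :
    D.Box (k • b) := by
  obtain ⟨c, rfl⟩ := hb
  exact ⟨fun i => k * c i, by simp only [Finset.smul_sum, smul_smul]⟩

lemma Decomposition.typeProj_zero (m : ι → ℤ) :
    D.typeProj 0 m = if m = 0 then 𝟙 _ else 0 := rfl

lemma Decomposition.typeProj_succ (n : ℕ) (m : ι → ℤ) :
    D.typeProj (n + 1) m = ∑ i, bx R (D.typeProj n (m - Pi.single i 1)) (D.proj i) := rfl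

lemma bx_sum_left' {Q X : C} {κ : Type*} (s : Finset κ) (a : κ → (R.H.obj Q ⟶ R.H.obj Q))
    (b : R.H.obj X ⟶ R.H.obj X) : bx R (∑ i ∈ s, a i) b = ∑ i ∈ s, bx R (a i) b :=
  (bx_sum_left R s a b).symm

lemma bx_sum_right {Q X : C} {κ : Type*} (s : Finset κ) (a : R.H.obj Q ⟶ R.H.obj Q)
    (b : κ → (R.H.obj X ⟶ R.H.obj X)) : bx R a (∑ i ∈ s, b i) = ∑ i ∈ s, bx R a (b i) := by
  classical
  induction s using Finset.induction_on with
  | empty => rw [Finset.sum_empty, Finset.sum_empty, bx_zero_right]
  | insert i s hi ih => rw [Finset.sum_insert hi, Finset.sum_insert hi, bx_add_right, ih]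

/-- products of two sums of boxes with the projectors in the last place -/
lemma Decomposition.sum_bx_comp {Q : C} (a a' : ι → (R.H.obj Q ⟶ R.H.obj Q)) :
    (∑ i, bx R (a i) (D.proj i)) ≫ (∑ i, bx R (a' i) (D.proj i)) =
      ∑ i, bx R (a i ≫ a' i) (D.proj i) := by
  rw [Preadditive.sum_comp]
  refine Finset.sum_congr rfl fun i _ => ?_
  rw [Preadditive.comp_sum, Finset.sum_eq_single i]
  · rw [bx_comp, D.proj_comp_self]
  · intro j _ hj
    rw [bx_comp, D.proj_comp i j (Ne.symm hj), bx_zero_right]
  · intro h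
    exact absurd (Finset.mem_univ i) h

lemma Decomposition.typeProj_idem (n : ℕ) (m : ι → ℤ) :
    D.typeProj n m ≫ D.typeProj n m = D.typeProj n m := by
  induction n generalizing m with
  | zero =>
    rw [D.typeProj_zero]
    split_ifs <;> simp
  | succ n ih =>
    rw [D.typeProj_succ, D.sum_bx_comp]
    exact Finset.sum_congr rfl fun i _ => by rw [ih]

lemma Decomposition.num_typeProj (i : ι) (n : ℕ) (m : ι → ℤ) :
    D.num i n ≫ D.typeProj n m = ((m i : ℤ) : K) • D.typeProj n m := by
  induction n generalizing m with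
  | zero =>
    rw [D.typeProj_zero]
    split_ifs with h
    · rw [h, Category.comp_id]
      change (0 : R.H.obj (tp M 0) ⟶ R.H.obj (tp M 0)) = _
      simp
    · simp
  | succ n ih =>
    change (bx R (D.num i n) (𝟙 _) + bx R (𝟙 _) (D.proj i)) ≫ _ = _
    rw [D.typeProj_succ, Preadditive.add_comp, Preadditive.comp_sum, Preadditive.comp_sum]
    have h1 : ∀ j, bx R (D.num i n) (𝟙 _) ≫ bx R (D.typeProj n (m - Pi.single j 1)) (D.proj j) =
        (((m - Pi.single j 1 : ι → ℤ) i : ℤ) : K) • bx R (D.typeProj n (m - Pi.single j 1)) (D.proj j) := by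
      intro j
      rw [bx_comp, ih, Category.id_comp, bx_smul_left]
    have h2 : ∀ j, bx R (𝟙 _) (D.proj i) ≫ bx R (D.typeProj n (m - Pi.single j 1)) (D.proj j) =
        (if i = j then (1 : K) else 0) • bx R (D.typeProj n (m - Pi.single j 1)) (D.proj j) := by
      intro j
      rw [bx_comp, Category.id_comp, D.proj_mul]
      split_ifs with h
      · rw [h, one_smul]
      · rw [bx_zero_right, zero_smul]
    rw [Finset.sum_congr rfl fun j _ => h1 j, Finset.sum_congr rfl fun j _ => h2 j,
      ← Finset.sum_add_distrib, Finset.smul_sum]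
    refine Finset.sum_congr rfl fun j _ => ?_
    rw [← add_smul]
    congr 1
    rw [Pi.sub_apply, Pi.single_apply]
    push_cast
    split_ifs with h3 <;> simp

/-- The sign of the tensors of a given type. -/
def Decomposition.typeSgn (m : ι → ℤ) : ℤˣ := ∏ i, D.sgn i ^ m i

lemma Decomposition.typeSgn_sub (m : ι → ℤ) (i : ι) :
    D.typeSgn (m - Pi.single i 1) * D.sgn i = D.typeSgn m := by
  have h1 : D.typeSgn (m - Pi.single i 1) = D.typeSgn m * (D.sgn i)⁻¹ := by
    simp only [Decomposition.typeSgn, Pi.sub_apply, zpow_sub, Finset.prod_mul_distrib]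
    congr 1
    rw [Finset.prod_inv_distrib, Finset.prod_eq_single i]
    · rw [Pi.single_eq_same, zpow_one]
    · intro j _ hj
      rw [Pi.single_eq_of_ne hj, zpow_zero]
    · intro h
      exact absurd (Finset.mem_univ i) h
  rw [h1, inv_mul_cancel_right]

lemma Decomposition.typeProj_par (n : ℕ) (m : ι → ℤ) :
    D.typeProj n m ≫ R.par (tp M n) = ((D.typeSgn m : ℤ) : K) • D.typeProj n m := by
  induction n generalizing m with
  | zero =>
    have h : R.par (tp M 0) = 𝟙 _ := R.par_unit
    rw [h, D.typeProj_zero, Category.comp_id]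
    split_ifs with h1
    · subst h1
      have h2 : D.typeSgn 0 = 1 := by simp [Decomposition.typeSgn]
      rw [h2]
      simp
    · simp
  | succ n ih =>
    rw [D.typeProj_succ, ← bx_par, Preadditive.sum_comp, Finset.smul_sum]
    refine Finset.sum_congr rfl fun i _ => ?_
    rw [bx_comp, ih, D.proj_par, bx_smul_left, bx_smul_right, smul_smul, ← D.typeSgn_sub m i]
    push_cast
    rfl

lemma Decomposition.typeProj_rb (n : ℕ) (m : ι → ℤ) : RB R D.Box n (D.typeProj n m) := by
  induction n generalizing m with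
  | zero =>
    rw [D.typeProj_zero]
    split_ifs
    · exact RB.mon _ (MonB.one 0)
    · exact RB.zero 0
  | succ n ih =>
    rw [D.typeProj_succ]
    exact RB.sum _ _ _ fun i _ => (ih _).box (D.box_proj i)

/-- The projectors commute with the exchanges. -/
lemma Decomposition.typeProj_swap (h2 : (2 : K) ≠ 0) {n : ℕ} {s : tp M n ⟶ tp M n}
    (hs : IsSwap M n s) (m : ι → ℤ) :
    R.H.map s ≫ D.typeProj n m = D.typeProj n m ≫ R.H.map s := by
  induction hs generalizing m with
  | last n =>
    have hc := D.boxClass.comm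
    simp only [D.typeProj_succ, bx_sum_left', Preadditive.comp_sum, Preadditive.sum_comp]
    have h3 : ∀ (i j : ι), bx R (bx R (D.typeProj n (m - Pi.single i 1 - Pi.single j 1))
        (D.proj j)) (D.proj i) ≫ R.H.map (sw (tp M n) M) = R.H.map (sw (tp M n) M) ≫
        bx R (bx R (D.typeProj n (m - Pi.single i 1 - Pi.single j 1)) (D.proj i)) (D.proj j) :=
      fun i j => bx_sw R h2 _ _ _ (hc _ (D.box_proj j)) (hc _ (D.box_proj i))
    rw [Finset.sum_congr rfl fun i _ => Finset.sum_congr rfl fun j _ => h3 i j, Finset.sum_comm]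
    refine Finset.sum_congr rfl fun i _ => Finset.sum_congr rfl fun j _ => ?_
    rw [sub_right_comm]
  | lift n s hs ih =>
    rw [map_whiskerRight_eq, D.typeProj_succ, Preadditive.comp_sum, Preadditive.sum_comp]
    refine Finset.sum_congr rfl fun i _ => ?_
    rw [bx_comp, bx_comp, ih, Category.comp_id, Category.id_comp]

end

end Q56.PC
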