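import Pool.Agent.Q56.PC.Cp

/-!
# Diagonal operators on a tensor power
-/

set_option autoImplicit false
set_option linter.unusedSectionVars false
set_option linter.unusedSimpArgs false
set_option backward.isDefEq.respectTransparency false
set_option backward.defeqAttrib.useBackward true

open CategoryTheory Limits MonoidalCategory
open Pool.Agent.Y112.SR Pool.Agent.Y112.KD Pool.Agent.Y112.SC Q20.Cp

namespace Q56.PC

universe v u w

open Functor.LaxMonoidal Functor.OplaxMonoidal

section

variable {C : Type u} [Category.{v} C] [Preadditive C] [MonoidalCategory C]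
  [SymmetricCategory C] {K : Type w} [Field K] {R : SuperRealisation C K}
  {M : C} {ι : Type} [Fintype ι] [DecidableEq ι] (D : Decomposition R M ι)

/-- The projector of `H(M ^ n)` onto the tensor product of the subspaces `w 0, ..., w (n - 1)` of the
decomposition. -/
noncomputable def Decomposition.word : ∀ (n : ℕ) (_ : Fin n → ι),
    R.H.obj (tp M n) ⟶ R.H.obj (tp M n)
  | 0, _ => 𝟙 _
  | n + 1, w => bx R (Decomposition.word n fun i => w i.castSucc) (D.proj (w (Fin.last n)))

/-- The diagonal operator: `f w` on the tensor product of the subspaces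
`w 0, ..., w (n - 1)` of the decomposition. -/
noncomputable def Decomposition.diag (n : ℕ) (f : (Fin n → ι) → K) :
    R.H.obj (tp M n) ⟶ R.H.obj (tp M n) := ∑ w, f w • D.word n w

lemma Decomposition.diag_succ (n : ℕ) (f : (Fin (n + 1) → ι) → K) :
    D.diag (n + 1) f =
      ∑ i, bx R (D.diag n fun w => f (Fin.snoc (α := fun _ => ι) w i)) (D.proj i) := by
  rw [Decomposition.diag, ← (Fin.snocEquiv fun _ : Fin (n + 1) => ι).sum_comp,
    Fintype.sum_prod_type]
  refine Finset.sum_congr rfl fun i _ => ?_
  rw [Decomposition.diag, bx_sum_left']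
  refine Finset.sum_congr rfl fun w _ => ?_
  have h1 : (Fin.snocEquiv fun _ : Fin (n + 1) => ι) (i, w) =
      Fin.snoc (α := fun _ => ι) w i := rfl
  rw [h1, Decomposition.word, bx_smul_left]
  simp only [Fin.snoc_castSucc, Fin.snoc_last]

lemma Decomposition.diag_comp (n : ℕ) (f g : (Fin n → ι) → K) :
    D.diag n f ≫ D.diag n g = D.diag n fun w => f w * g w := by
  induction n with
  | zero =>
    rw [Decomposition.diag, Decomposition.diag, Decomposition.diag, Fintype.sum_unique,
      Fintype.sum_unique, Fintype.sum_unique]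
    have h : ∀ w : Fin 0 → ι, D.word 0 w = 𝟙 _ := fun _ => rfl
    rw [h, Linear.smul_comp, Category.id_comp, smul_smul]
  | succ n ih =>
    rw [D.diag_succ, D.diag_succ, D.sum_bx_comp, D.diag_succ]
    exact Finset.sum_congr rfl fun i _ => by rw [ih]

lemma Decomposition.diag_const (n : ℕ) (c : K) : D.diag n (fun _ => c) = c • 𝟙 _ := by
  induction n with
  | zero =>
    rw [Decomposition.diag, Fintype.sum_unique]
    rfl
  | succ n ih =>
    rw [D.diag_succ, ih, ← bx_sum_right, D.sum_proj, bx_smul_left, bx_one]

lemma Decomposition.diag_add (n : ℕ) (f g : (Fin n → ι) → K) :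
    D.diag n (fun w => f w + g w) = D.diag n f + D.diag n g := by
  simp only [Decomposition.diag, add_smul, Finset.sum_add_distrib]

lemma Decomposition.diag_smul (n : ℕ) (c : K) (f : (Fin n → ι) → K) :
    D.diag n (fun w => c * f w) = c • D.diag n f := by
  simp only [Decomposition.diag, Finset.smul_sum, smul_smul]

/-- A diagonal operator which only depends on the last place. -/
lemma Decomposition.diag_last (n : ℕ) (g : ι → K) :
    D.diag (n + 1) (fun w => g (w (Fin.last n))) =
      bx R (𝟙 (R.H.obj (tp M n))) (∑ i, g i • D.proj i) := by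
  rw [D.diag_succ, bx_sum_right]
  refine Finset.sum_congr rfl fun i _ => ?_
  simp only [Fin.snoc_last]
  rw [D.diag_const, bx_smul_left, bx_smul_right]

/-- A diagonal operator which does not depend on the last place. -/
lemma Decomposition.diag_init (n : ℕ) (h : (Fin n → ι) → K) :
    D.diag (n + 1) (fun w => h fun i => w i.castSucc) =
      bx R (D.diag n h) (𝟙 (R.H.obj M)) := by
  rw [D.diag_succ, ← D.sum_proj, bx_sum_right]
  refine Finset.sum_congr rfl fun i _ => ?_
  simp only [Fin.snoc_castSucc]

end

section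

variable {C : Type u} [Category.{v} C] [Preadditive C] [Linear ℚ C] [MonoidalCategory C]
  [MonoidalPreadditive C] [MonoidalLinear ℚ C] [SymmetricCategory C]
  [RightRigidCategory C] {K : Type w} [Field K] {R : SuperRealisation C K}
  {M : C} {ι : Type} [Fintype ι] [DecidableEq ι] (D : Decomposition R M ι)

/-- The dimension of the `i`-th subspace, with the sign of its parity. -/
noncomputable def Decomposition.sdim (i : ι) : ℤ := (D.sgn i : ℤ) * D.dim i

lemma Decomposition.trace_par (i : ι) :
    LinearMap.trace K (R.H.obj M) (D.proj i ≫ R.par M).hom = D.sdim i := by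
  rw [D.proj_par, ModuleCat.hom_smul, map_smul, smul_eq_mul, D.trace_dim, Decomposition.sdim]
  push_cast
  rfl

lemma PT_zero {Q X : C} : PT R (0 : R.H.obj (Q ⊗ X) ⟶ R.H.obj (Q ⊗ X)) = 0 := by
  have h := PT_smul R (0 : K) (0 : R.H.obj (Q ⊗ X) ⟶ R.H.obj (Q ⊗ X))
  rwa [zero_smul, zero_smul] at h

lemma PT_sum {Q X : C} {κ : Type*} (s : Finset κ) (f : κ → (R.H.obj (Q ⊗ X) ⟶ R.H.obj (Q ⊗ X))) :
    PT R (∑ i ∈ s, f i) = ∑ i ∈ s, PT R (f i) := by
  classical
  induction s using Finset.induction_on with
  | empty => rw [Finset.sum_empty, Finset.sum_empty, PT_zero]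
  | insert i s hi ih => rw [Finset.sum_insert hi, Finset.sum_insert hi, PT_add, ih]

/-- The partial trace of a diagonal operator. -/
lemma Decomposition.PT_diag (n : ℕ) (f : (Fin (n + 1) → ι) → K) :
    PT R (D.diag (n + 1) f) =
      D.diag n fun w => ∑ i, (D.sdim i : K) * f (Fin.snoc (α := fun _ => ι) w i) := by
  have hK := R_charZero R
  rw [D.diag_succ]
  refine (PT_sum _ _).trans ?_
  have h1 : ∀ i, PT R (bx R (D.diag n fun w => f (Fin.snoc (α := fun _ => ι) w i)) (D.proj i)) =
      D.diag n fun w => (D.sdim i : K) * f (Fin.snoc (α := fun _ => ι) w i) := by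
    intro i
    rw [PT_bx R two_ne_zero, D.trace_par, D.diag_smul]
  rw [Finset.sum_congr rfl fun i _ => h1 i]
  simp only [Decomposition.diag, Finset.sum_smul]
  rw [Finset.sum_comm]

lemma kalg_map {X : C} (f : X ⟶ X) : R.H.map f ∈ KAlg R X := Submodule.subset_span ⟨f, rfl⟩

lemma kalg_one {X : C} : 𝟙 (R.H.obj X) ∈ KAlg R X := by
  have h := kalg_map (R := R) (𝟙 X)
  rwa [CategoryTheory.Functor.map_id] at h

lemma kalg_comp {X : C} {a b : R.H.obj X ⟶ R.H.obj X} (ha : a ∈ KAlg R X) (hb : b ∈ KAlg R X) :
    a ≫ b ∈ KAlg R X := by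
  rw [← falg_top] at ha hb ⊢
  exact falg_comp ha hb

/-- The partial trace of an algebraic operator. -/
lemma kalg_PT {Q X : C} {x : R.H.obj (Q ⊗ X) ⟶ R.H.obj (Q ⊗ X)} (h : x ∈ KAlg R (Q ⊗ X)) :
    PT R x ∈ KAlg R Q := by
  refine Submodule.span_induction (p := fun y _ => PT R y ∈ KAlg R Q) ?_ ?_ ?_ ?_ h
  · rintro _ ⟨f, rfl⟩
    rw [PT_map]
    exact kalg_map _
  · rw [PT_zero]
    exact zero_mem _
  · intro x y _ _ hx hy
    rw [PT_add]
    exact add_mem hx hy
  · intro c x _ hx
    rw [PT_smul]
    exact Submodule.smul_mem _ _ hx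

/-- Forget the last factor. -/
lemma kalg_drop {n : ℕ} {a : R.H.obj (tp M (n + 1)) ⟶ R.H.obj (tp M (n + 1))}
    (h : bx R a (𝟙 (R.H.obj M)) ∈ KAlg R (tp M (n + 2))) : a ∈ KAlg R (tp M (n + 1)) := by
  have h1 : bx R a (𝟙 (R.H.obj M)) ≫ Sg R M n ∈ KAlg R (tp M (n + 2)) :=
    kalg_comp h (kalg_map _)
  have h2 : PT R (bx R a (𝟙 (R.H.obj M)) ≫ Sg R M n) = a := by
    have h3 : PT R (bx R a (𝟙 (R.H.obj M)) ≫ Sg R M n) = a ≫ PT R (Sg R M n) :=
      PT_left R a (Sg R M n)
    have h4 : PT R (Sg R M n) = 𝟙 _ := PT_sw R _ _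
    rw [h3, h4, Category.comp_id]
  rw [← h2]
  exact kalg_PT h1

/-- An operator on the last factor. -/
lemma kalg_last (n : ℕ) {b : R.H.obj M ⟶ R.H.obj M} (hb : D.Box b)
    (h : bx R (𝟙 (R.H.obj (tp M n))) b ∈ KAlg R (tp M (n + 1))) : b ∈ KAlg R M := by
  have hK := R_charZero R
  induction n with
  | zero =>
    rw [← falg_top] at h ⊢
    exact falg_unit h
  | succ n ih =>
    apply ih
    have h1 : bx R (𝟙 (R.H.obj (tp M (n + 1)))) b ≫ Sg R M n ∈ KAlg R (tp M (n + 2)) :=
      kalg_comp h (kalg_map _)
    have h2 : bx R (𝟙 (R.H.obj (tp M (n + 1)))) b ≫ Sg R M n =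
        Sg R M n ≫ bx R (bx R (𝟙 (R.H.obj (tp M n))) b) (𝟙 _) := by
      have h3 := Sg_natB (R := R) (X := M) two_ne_zero D.boxClass (n := n) (𝟙 _)
        D.boxClass.one hb
      have h4 : bx R (𝟙 (R.H.obj (tp M n))) (𝟙 (R.H.obj M)) = 𝟙 (R.H.obj (tp M (n + 1))) :=
        bx_one R (tp M n) M
      rwa [h4] at h3
    rw [h2] at h1
    have h5 := kalg_PT h1
    have h6 : PT R (Sg R M n ≫ bx R (bx R (𝟙 (R.H.obj (tp M n))) b) (𝟙 _)) =
        bx R (𝟙 (R.H.obj (tp M n))) b := by
      have h7 := PT_comp R (𝟙 (R.H.obj (tp M (n + 1)))) (bx R (𝟙 (R.H.obj (tp M n))) b)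
        (Sg R M n)
      have h8 : bx R (𝟙 (R.H.obj (tp M (n + 1)))) (𝟙 (R.H.obj M)) =
          𝟙 (R.H.obj (tp M (n + 2))) := bx_one R (tp M (n + 1)) M
      have h9 : PT R (Sg R M n) = 𝟙 _ := PT_sw R _ _
      rw [h8, Category.id_comp, Category.id_comp, h9, Category.id_comp] at h7
      exact h7
    rwa [h6] at h5

lemma Decomposition.diag_poly {n : ℕ} {f : (Fin n → ι) → K}
    (h : D.diag n f ∈ KAlg R (tp M n)) (p : Polynomial K) :
    D.diag n (fun w => p.eval (f w)) ∈ KAlg R (tp M n) := by
  induction p using Polynomial.induction_on with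
  | C c =>
    simp only [Polynomial.eval_C]
    rw [D.diag_const]
    exact Submodule.smul_mem _ _ kalg_one
  | add p q hp hq =>
    simp only [Polynomial.eval_add]
    rw [D.diag_add]
    exact add_mem hp hq
  | monomial m c hp =>
    have h1 := kalg_comp hp h
    rw [D.diag_comp] at h1
    have h2 : (fun w => Polynomial.eval (f w) (Polynomial.C c * Polynomial.X ^ m) * f w) =
        fun w => Polynomial.eval (f w) (Polynomial.C c * Polynomial.X ^ (m + 1)) := by
      funext w
      simp only [Polynomial.eval_mul, Polynomial.eval_C, Polynomial.eval_pow, Polynomial.eval_X]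
      ring
    rwa [h2] at h1

lemma Decomposition.diag_level {n : ℕ} {f : (Fin n → ι) → K}
    (h : D.diag n f ∈ KAlg R (tp M n)) (q : K) [DecidableEq K] :
    D.diag n (fun w => if f w = q then 1 else 0) ∈ KAlg R (tp M n) := by
  have h1 := D.diag_poly h (∏ r ∈ (Finset.univ.image f).erase q,
    Polynomial.C ((q - r)⁻¹) * (Polynomial.X - Polynomial.C r))
  have key : (fun w => Polynomial.eval (f w) (∏ r ∈ (Finset.univ.image f).erase q,
      Polynomial.C ((q - r)⁻¹) * (Polynomial.X - Polynomial.C r))) =
      fun w => if f w = q then 1 else 0 := by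
    funext w
    rw [Polynomial.eval_prod]
    split_ifs with h2
    · refine Finset.prod_eq_one ?_
      intro r hr
      have h3 : q - r ≠ 0 := sub_ne_zero.2 (Ne.symm (Finset.ne_of_mem_erase hr))
      simp only [Polynomial.eval_mul, Polynomial.eval_C, Polynomial.eval_sub, Polynomial.eval_X,
        h2]
      exact inv_mul_cancel₀ h3
    · refine Finset.prod_eq_zero (i := f w) ?_ ?_
      · exact Finset.mem_erase.2 ⟨h2, Finset.mem_image_of_mem f (Finset.mem_univ w)⟩
      · simp
  rwa [key] at h1

/-- The signed dimensions of the parts have different sums over different sets of parts, except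
possibly that the sum over all parts is zero. -/
def Decomposition.Dissociated : Prop :=
  ∀ S T : Finset ι, ∑ i ∈ S, D.sdim i = ∑ i ∈ T, D.sdim i →
    S = T ∨ (S = ∅ ∧ T = Finset.univ) ∨ (S = Finset.univ ∧ T = ∅)

/-- **One nonscalar algebraic diagonal operator on a power gives one on the object.** -/
theorem Decomposition.exists_of_diag (hD : D.Dissociated) (n : ℕ) :
    ∀ f : (Fin n → ι) → K, (∃ w w', f w ≠ f w') → D.diag n f ∈ KAlg R (tp M n) →
      ∃ S : Finset ι, S.Nonempty ∧ S ≠ Finset.univ ∧ ∑ i ∈ S, D.proj i ∈ KAlg R M := by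
  classical
  have hK := R_charZero R
  induction n with
  | zero =>
    rintro f ⟨w, w', h⟩ _
    exact absurd (congrArg f (Subsingleton.elim w w')) h
  | succ n ih =>
    rintro f ⟨w₀, w₁, hw⟩ hf
    have hχ := D.diag_level hf (f w₀)
    set χ : (Fin (n + 1) → ι) → K := fun w => if f w = f w₀ then 1 else 0 with hχd
    have hχ0 : χ w₀ = 1 := if_pos rfl
    have hχ1 : χ w₁ = 0 := if_neg (Ne.symm hw)
    have hPT := kalg_PT hχ
    have hPT' := D.PT_diag n χ
    have hPT2 : D.diag n (fun w => ∑ i, (D.sdim i : K) * χ (Fin.snoc (α := fun _ => ι) w i)) ∈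
        KAlg R (tp M n) := by
      rw [← hPT']
      exact hPT
    by_cases hg : ∃ w w', (∑ i, (D.sdim i : K) * χ (Fin.snoc (α := fun _ => ι) w i)) ≠
        ∑ i, (D.sdim i : K) * χ (Fin.snoc (α := fun _ => ι) w' i)
    · exact ih _ hg hPT2
    · push Not at hg
      -- the set of the last letters
      let A : (Fin n → ι) → Finset ι := fun w =>
        Finset.univ.filter fun i => f (Fin.snoc (α := fun _ => ι) w i) = f w₀
      have hA : ∀ w, (∑ i, (D.sdim i : K) * χ (Fin.snoc (α := fun _ => ι) w i)) =
          ((∑ i ∈ A w, D.sdim i : ℤ) : K) := by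
        intro w
        push_cast
        rw [Finset.sum_filter]
        refine Finset.sum_congr rfl fun i _ => ?_
        simp only [hχd]
        split_ifs <;> simp
      have hAA : ∀ w w', ∑ i ∈ A w, D.sdim i = ∑ i ∈ A w', D.sdim i := by
        intro w w'
        have h := hg w w'
        rw [hA, hA] at h
        exact_mod_cast h
      have hsplit : ∀ w : Fin (n + 1) → ι, χ w =
          if w (Fin.last n) ∈ A (fun i => w i.castSucc) then 1 else 0 := by
        intro w
        have h1 : Fin.snoc (α := fun _ => ι) (fun i => w i.castSucc) (w (Fin.last n)) = w :=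
          Fin.snoc_init_self w
        simp only [hχd, A, Finset.mem_filter, Finset.mem_univ, true_and]
        rw [h1]
      by_cases hall : ∀ w w', A w = A w'
      · -- the operator only depends on the last place
        set S := A (fun i => w₀ i.castSucc) with hS
        have hSw : ∀ w, A w = S := fun w => hall w _
        have h1 : D.diag (n + 1) χ = bx R (𝟙 (R.H.obj (tp M n))) (∑ i ∈ S, D.proj i) := by
          have h2 : χ = fun w => (fun i => if i ∈ S then (1 : K) else 0) (w (Fin.last n)) := by
            funext w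
            rw [hsplit w, hSw]
          refine ((congrArg (D.diag (n + 1)) h2).trans
            (D.diag_last n fun i => if i ∈ S then (1 : K) else 0)).trans ?_
          congr 1
          rw [← Finset.sum_filter_add_sum_filter_not Finset.univ (· ∈ S)]
          have h3 : ∑ i with i ∉ S, (if i ∈ S then (1 : K) else 0) • D.proj i = 0 := by
            refine Finset.sum_eq_zero fun i hi => ?_
            rw [if_neg (Finset.mem_filter.1 hi).2, zero_smul]
          have h4 : ∑ i with i ∈ S, (if i ∈ S then (1 : K) else 0) • D.proj i =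
              ∑ i ∈ S, D.proj i := by
            rw [Finset.filter_mem_eq_inter, Finset.univ_inter]
            refine Finset.sum_congr rfl fun i hi => ?_
            rw [if_pos hi, one_smul]
          rw [h3, h4, add_zero]
        refine ⟨S, ?_, ?_, ?_⟩
        · rw [Finset.nonempty_iff_ne_empty]
          intro hS0
          have h2 := hsplit w₀
          rw [hSw, hS0, hχ0] at h2
          simp at h2
        · intro hS1
          have h2 := hsplit w₁
          rw [hSw, hS1, hχ1] at h2
          simp at h2
        · refine kalg_last D n ?_ (h1 ▸ hχ)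
          exact ⟨fun i => if i ∈ S then 1 else 0, by simp⟩
      · -- the operator does not depend on the last place
        push Not at hall
        obtain ⟨v, v', hv⟩ := hall
        have hv' := (hD _ _ (hAA v v')).resolve_left hv
        have hzero : ∑ i ∈ A v, D.sdim i = 0 := by
          rcases hv' with ⟨h1, -⟩ | ⟨h1, h2⟩
          · rw [h1, Finset.sum_empty]
          · rw [hAA v v', h2, Finset.sum_empty]
        have hor : ∀ w, A w = ∅ ∨ A w = Finset.univ := by
          intro w
          rcases hD (A w) ∅ (by rw [hAA w v, hzero, Finset.sum_empty]) with h | h | h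
          · exact Or.inl h
          · exact Or.inl h.1
          · exact Or.inr h.1
        have h1 : χ = fun w => (fun w' => if A w' = Finset.univ then (1 : K) else 0)
            (fun i => w i.castSucc) := by
          funext w
          rw [hsplit w]
          by_cases hi : w (Fin.last n) ∈ A (fun i => w i.castSucc)
          · rcases hor (fun i => w i.castSucc) with h | h
            · rw [h] at hi
              exact absurd hi (Finset.notMem_empty _)
            · rw [if_pos hi]
              exact (if_pos h).symm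
          · have h : A (fun i => w i.castSucc) ≠ Finset.univ := by
              intro h
              rw [h] at hi
              exact hi (Finset.mem_univ _)
            rw [if_neg hi]
            exact (if_neg h).symm
        have hχ' : bx R (D.diag n fun w' => if A w' = Finset.univ then (1 : K) else 0)
            (𝟙 (R.H.obj M)) ∈ KAlg R (tp M (n + 1)) := by
          rw [← D.diag_init]
          rw [h1] at hχ
          exact hχ
        rcases n with _ | n
        · exact absurd (congrArg A (Subsingleton.elim v v')) hv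
        · refine ih _ ⟨fun i => w₀ i.castSucc, fun i => w₁ i.castSucc, ?_⟩ (kalg_drop hχ')
          have h2 := congrFun h1 w₀
          have h3 := congrFun h1 w₁
          rw [hχ0] at h2
          rw [hχ1] at h3
          intro h4
          exact one_ne_zero (h2.trans (h4.trans h3.symm))

/-- The operator on `H(M ^ n)` which is `f w` on the tensors of parities `w 0, ..., w (n - 1)`
(`true` is even, `false` is odd). -/
noncomputable def parityOp (R : SuperRealisation C K) (M : C) : ∀ n : ℕ, ((Fin n → Bool) → K) →
    (R.H.obj (tp M n) ⟶ R.H.obj (tp M n))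
  | 0, f => f (fun i => i.elim0) • 𝟙 _
  | n + 1, f => bx R (parityOp R M n fun w => f (Fin.snoc (α := fun _ => Bool) w true)) (pe R M) +
      bx R (parityOp R M n fun w => f (Fin.snoc (α := fun _ => Bool) w false)) (po R M)

lemma parityOp_eq (h2 : (2 : K) ≠ 0) (n : ℕ) (f : (Fin n → Bool) → K) :
    parityOp R M n f = (evenOdd R h2 M).diag n f := by
  induction n with
  | zero =>
    rw [Decomposition.diag, Fintype.sum_unique]
    change f _ • 𝟙 _ = f _ • 𝟙 _
    congr 2
  | succ n ih =>
    rw [Decomposition.diag_succ, Fintype.sum_bool, ← ih, ← ih]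
    rfl

/-- **One nonscalar algebraic function of the parities of the factors decides the sign
conjecture.** -/
theorem cplus_of_parityOp (hC : RationalUnit C) {n : ℕ} (f : (Fin n → Bool) → K)
    (hf : ∃ w w', f w ≠ f w') (h : parityOp R M n f ∈ KAlg R (tp M n)) : R.CPlus M := by
  have hK := R_charZero R
  have h2 : (2 : K) ≠ 0 := two_ne_zero
  by_contra hC'
  have hpe := exists_pe_of_not R hC hC'
  rw [parityOp_eq h2] at h
  have hd2 : (evenOdd R h2 M).dim true ≠ 0 := by
    intro h
    have h3 : pe R M = 0 := (evenOdd R h2 M).proj_of_dim h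
    apply hpe
    rw [h3]
    exact zero_mem _
  have hd1 : (evenOdd R h2 M).dim false ≠ 0 := by
    intro h
    have h3 : po R M = 0 := (evenOdd R h2 M).proj_of_dim h
    apply hpe
    have h4 : pe R M = 𝟙 _ := by rw [← pe_add_po R h2 M, h3, add_zero]
    rw [h4]
    exact kalg_one
  have hs2 : (evenOdd R h2 M).sdim true = (evenOdd R h2 M).dim true := by
    have h3 : (evenOdd R h2 M).sgn true = 1 := rfl
    rw [Decomposition.sdim, h3, Units.val_one, one_mul]
  have hs1 : (evenOdd R h2 M).sdim false = -((evenOdd R h2 M).dim false : ℤ) := by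
    have h3 : (evenOdd R h2 M).sgn false = -1 := rfl
    rw [Decomposition.sdim, h3, Units.val_neg, Units.val_one, neg_one_mul]
  have hD : (evenOdd R h2 M).Dissociated := by
    have p1 : 0 < (evenOdd R h2 M).dim false := Nat.pos_of_ne_zero hd1
    have p2 : 0 < (evenOdd R h2 M).dim true := Nat.pos_of_ne_zero hd2
    have hcase : ∀ S : Finset Bool, S = ∅ ∨ S = {true} ∨ S = {false} ∨ S = Finset.univ := by
      decide
    have hu : ∑ i ∈ (Finset.univ : Finset Bool), (evenOdd R h2 M).sdim i =
        (evenOdd R h2 M).sdim true + (evenOdd R h2 M).sdim false := Fintype.sum_bool _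
    intro S T hST
    rcases hcase S with rfl | rfl | rfl | rfl <;> rcases hcase T with rfl | rfl | rfl | rfl <;>
      first
      | exact Or.inl rfl
      | exact Or.inr (Or.inl ⟨rfl, rfl⟩)
      | exact Or.inr (Or.inr ⟨rfl, rfl⟩)
      | (exfalso
         simp only [hu, Finset.sum_empty, Finset.sum_singleton, hs1, hs2] at hST
         omega)
  obtain ⟨S, hS, hS', hS''⟩ := (evenOdd R h2 M).exists_of_diag hD n f hf h
  have hcase : ∀ S : Finset Bool, S.Nonempty → S ≠ Finset.univ → S = {true} ∨ S = {false} := by
    decide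
  rcases hcase S hS hS' with rfl | rfl
  · rw [Finset.sum_singleton] at hS''
    exact hpe hS''
  · rw [Finset.sum_singleton] at hS''
    apply hpe
    have h3 : pe R M = 𝟙 _ - po R M := by rw [← pe_add_po R h2 M]; abel
    rw [h3]
    exact sub_mem kalg_one hS''

lemma falg_diag {F : Subfield K} (n : ℕ) (f : (Fin n → ι) → K) (hf : ∀ w, f w ∈ F)
    (h : ∀ i, D.proj i ∈ FAlg R F M) : D.diag n f ∈ FAlg R F (tp M n) := by
  induction n with
  | zero =>
    rw [Decomposition.diag, Fintype.sum_unique]
    exact falg_smul (hf _) falg_one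
  | succ n ih =>
    rw [D.diag_succ]
    exact sum_mem fun i _ => falg_bx (ih _ fun w => hf _) (h i)

/-- **One nonscalar algebraic function of the parities of the factors decides the sign
conjecture.** -/
theorem parityOp_tfae (hC : RationalUnit C) (M : C) : List.TFAE [
    R.CPlus M,
    ∀ (n : ℕ) (f : (Fin n → Bool) → ℚ), ∃ g : tp M n ⟶ tp M n,
      R.H.map g = parityOp R M n fun w => (f w : K),
    ∃ (n : ℕ) (f : (Fin n → Bool) → K), (∃ w w', f w ≠ f w') ∧
      parityOp R M n f ∈ KAlg R (tp M n)] := by
  have hK := R_charZero R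
  have h2 : (2 : K) ≠ 0 := two_ne_zero
  have hcp : R.CPlus M → pe R M ∈ FAlg R ⊥ M := by
    intro h
    rw [cplus_iff] at h
    obtain ⟨g, hg⟩ := h
    have h3 : pe R M = R.H.map ((2 : ℚ)⁻¹ • (𝟙 M + g)) := by
      rw [R_smul, Functor.map_add, hg, CategoryTheory.Functor.map_id, pe]
      push_cast
      rfl
    rw [h3]
    exact falg_map _
  tfae_have 1 → 2 := by
    intro h n f
    apply exists_of_falg_bot
    rw [parityOp_eq h2]
    refine falg_diag _ n _ (fun w => SubfieldClass.ratCast_mem _ _) fun b => ?_
    cases b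
    · have h3 : po R M = 𝟙 _ - pe R M := by rw [← pe_add_po R h2 M]; abel
      change po R M ∈ _
      rw [h3]
      exact sub_mem falg_one (hcp h)
    · exact hcp h
  tfae_have 2 → 3 := by
    intro h
    obtain ⟨g, hg⟩ := h 1 fun w => if w 0 then 1 else 0
    refine ⟨1, _, ⟨fun _ => true, fun _ => false, ?_⟩, hg ▸ kalg_map g⟩
    simp
  tfae_have 3 → 1 := by
    rintro ⟨n, f, hf, h⟩
    exact cplus_of_parityOp hC f hf h
  tfae_finish

end

end Q56.PC
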