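import Pool.Agent.Q56.PC.ExtLaw

/-!
# One level of constant parity on a Young summand decides the sign conjecture
-/

set_option autoImplicit false
set_option linter.unusedSectionVars false
set_option linter.unusedSimpArgs false
set_option backward.isDefEq.respectTransparency false
set_option backward.defeqAttrib.useBackward true

open CategoryTheory Limits MonoidalCategory
open Pool.Agent.Y112.SR Pool.Agent.Y112.KD Pool.Agent.Y112.SC Q20.Cp

namespace Q56.PC

universe v u w

open Functor.LaxMonoidal Functor.OplaxMonoidal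

section

variable {C : Type u} [Category.{v} C] [Preadditive C] [Linear ℚ C] [MonoidalCategory C]
  [MonoidalPreadditive C] [MonoidalLinear ℚ C] [SymmetricCategory C]
  [RightRigidCategory C] {K : Type w} [Field K]
variable {R : SuperRealisation C K} {M : C}

lemma oddOp_EE (n : ℕ) (f : ℕ → K) :
    oddOp R M n f = ∑ k ∈ Finset.range (n + 1), f k • EE R M n (k : ℤ) := by
  induction n generalizing f with
  | zero =>
    rw [Finset.sum_range_one, EE_zero, if_pos (by norm_num), oddOp_zero]
  | succ n ih =>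
    rw [EE_sum R M n f, oddOp_succ, ih, ih fun k => f (k + 1), ← bx_sum_left, ← bx_sum_left,
      ← Finset.sum_add_distrib]
    refine Finset.sum_congr rfl fun k _ => ?_
    rw [bx_smul_left, bx_smul_left, bx_add_right, bx_smul_right, bx_smul_right]

lemma young_comm {n : ℕ} {e : End (tp M n)} (he : e ∈ Young M n) (f : ℕ → K) :
    R.H.map e ≫ oddOp R M n f = oddOp R M n f ≫ R.H.map e := by
  rw [oddOp_EE, Preadditive.comp_sum, Preadditive.sum_comp]
  refine Finset.sum_congr rfl fun k _ => ?_
  rw [Linear.comp_smul, Linear.smul_comp, EE_adjoin R he.1]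

lemma young_idem {n : ℕ} {e : End (tp M n)} (he : e ∈ Young M n) :
    R.H.map e ≫ R.H.map e = R.H.map e := by
  rw [← Functor.map_comp, ← End.mul_def, he.2]

lemma young_poly {n : ℕ} {e : End (tp M n)} (he : e ∈ Young M n) {f : ℕ → K}
    (h : R.H.map e ≫ oddOp R M n f ∈ KAlg R (tp M n)) (p : Polynomial K) :
    R.H.map e ≫ oddOp R M n (fun k => p.eval (f k)) ∈ KAlg R (tp M n) := by
  have hK := R_charZero R
  have h2 : (2 : K) ≠ 0 := two_ne_zero
  induction p using Polynomial.induction_on with
  | C c =>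
    simp only [Polynomial.eval_C]
    rw [oddOp_const h2, Linear.comp_smul, Category.comp_id]
    exact Submodule.smul_mem _ _ (kalg_map _)
  | add p q hp hq =>
    simp only [Polynomial.eval_add]
    rw [oddOp_add, Preadditive.comp_add]
    exact add_mem hp hq
  | monomial m c hp =>
    have h1 := kalg_comp hp h
    have h3 : ∀ g : ℕ → K, (R.H.map e ≫ oddOp R M n g) ≫ R.H.map e ≫ oddOp R M n f =
        R.H.map e ≫ oddOp R M n fun k => g k * f k := by
      intro g
      have h4 := young_comm (R := R) he g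
      have h5 := young_idem (R := R) he
      rw [Category.assoc, ← Category.assoc (oddOp R M n g), ← h4, Category.assoc,
        oddOp_comp h2, ← Category.assoc, h5]
    rw [h3] at h1
    have h2 : (fun k => Polynomial.eval (f k) (Polynomial.C c * Polynomial.X ^ m) * f k) =
        fun k => Polynomial.eval (f k) (Polynomial.C c * Polynomial.X ^ (m + 1)) := by
      funext w
      simp only [Polynomial.eval_mul, Polynomial.eval_C, Polynomial.eval_pow, Polynomial.eval_X]
      ring
    rwa [h2] at h1

lemma young_level {n : ℕ} {e : End (tp M n)} (he : e ∈ Young M n) {f : ℕ → K}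
    (h : R.H.map e ≫ oddOp R M n f ∈ KAlg R (tp M n)) (q : K) [DecidableEq K] :
    R.H.map e ≫ oddOp R M n (fun k => if f k = q then 1 else 0) ∈ KAlg R (tp M n) := by
  have h1 := young_poly he h (∏ r ∈ ((Finset.range (n + 1)).image f).erase q,
    Polynomial.C ((q - r)⁻¹) * (Polynomial.X - Polynomial.C r))
  have key : ∀ k ≤ n, Polynomial.eval (f k) (∏ r ∈ ((Finset.range (n + 1)).image f).erase q,
      Polynomial.C ((q - r)⁻¹) * (Polynomial.X - Polynomial.C r)) =
      if f k = q then 1 else 0 := by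
    intro k hk
    rw [Polynomial.eval_prod]
    split_ifs with h2
    · refine Finset.prod_eq_one ?_
      intro r hr
      have h3 : q - r ≠ 0 := sub_ne_zero.2 (Ne.symm (Finset.ne_of_mem_erase hr))
      simp only [Polynomial.eval_mul, Polynomial.eval_C, Polynomial.eval_sub, Polynomial.eval_X,
        h2]
      exact inv_mul_cancel₀ h3
    · refine Finset.prod_eq_zero (i := f k) ?_ ?_
      · exact Finset.mem_erase.2 ⟨h2, Finset.mem_image_of_mem f (Finset.mem_range.2 (by omega))⟩
      · simp
  rwa [oddOp_congr key] at h1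

lemma oddRank_ne {n : ℕ} {e : End (tp M n)} (he : e ∈ Young M n) {k : ℕ} (hk : k ≤ n)
    (h : R.H.map e ≫ EE R M n (k : ℤ) ≠ 0) : 0 < oddRank R e k := by
  have hK := R_charZero R
  have h2 : (2 : K) ≠ 0 := two_ne_zero
  rw [EE_piece R h2 hk e] at h
  have h3 := (evenOdd R h2 M).rank_ne (oddTypeN n k) he h
  rw [Decomposition.rank, ← EE_piece R h2 hk e] at h3
  exact Nat.pos_of_ne_zero h3

lemma oddRank_zero {n : ℕ} {e : End (tp M n)} {k : ℕ}
    (h : R.H.map e ≫ EE R M n (k : ℤ) = 0) : oddRank R e k = 0 := by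
  rw [oddRank, h, ModuleCat.hom_zero, LinearMap.range_zero, finrank_bot]

/-- **One level of constant parity decides.** -/
theorem cplus_of_level (hC : RationalUnit C) {n : ℕ} (hn : 1 ≤ n) {e : End (tp M n)}
    (he : e ∈ Young M n) {f : ℕ → K} (h : R.H.map e ≫ oddOp R M n f ∈ KAlg R (tp M n))
    {k₀ : ℕ} (hk₀ : k₀ ≤ n) (h0 : R.H.map e ≫ EE R M n (k₀ : ℤ) ≠ 0)
    (hpar : ∀ k ≤ n, f k = f k₀ → R.H.map e ≫ EE R M n (k : ℤ) ≠ 0 → (Even k ↔ Even k₀)) :
    R.CPlus M := by
  classical
  have hK := R_charZero R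
  have h2 : (2 : K) ≠ 0 := two_ne_zero
  by_contra hC'
  have hpe := exists_pe_of_not R hC hC'
  have hp : 0 < evenDim R M := by
    rcases Nat.eq_zero_or_pos (evenDim R M) with h | h
    · exfalso
      apply hpe
      have h3 : pe R M = 0 := (evenOdd R h2 M).proj_of_dim (i := true) h
      rw [h3]
      exact zero_mem _
    · exact h
  have hq : 0 < oddDim R M := by
    rcases Nat.eq_zero_or_pos (oddDim R M) with h | h
    · exfalso
      apply hpe
      have h3 : po R M = 0 := (evenOdd R h2 M).proj_of_dim (i := false) h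
      have h4 : pe R M = 𝟙 _ := by rw [← pe_add_po R h2 M, h3, add_zero]
      rw [h4]
      exact kalg_one
    · exact h
  have h1 := young_level he h (f k₀)
  apply hC'
  refine cplus_of_comb R hC he (fun k => if f k = f k₀ then 1 else 0) ?_ ?_
  · rw [oddOp_EE, Preadditive.comp_sum] at h1
    have h3 : ∀ k ∈ Finset.range (n + 1),
        R.H.map e ≫ ((if f k = f k₀ then (1 : K) else 0) • EE R M n (k : ℤ)) =
        (((if f k = f k₀ then (1 : ℚ) else 0) : ℚ) : K) • (R.H.map e ≫ EE R M n (k : ℤ)) := by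
      intro k _
      rw [Linear.comp_smul]
      congr 1
      split_ifs <;> simp
    rwa [Finset.sum_congr rfl h3] at h1
  · have hterm : ∀ k ∈ Finset.range (n + 1), (-1 : ℚ) ^ k * (if f k = f k₀ then (1 : ℚ) else 0) *
        (((n : ℚ) - k) * oddDim R M + k * evenDim R M) * oddRank R e k =
        (-1 : ℚ) ^ k₀ * ((if f k = f k₀ then (1 : ℚ) else 0) *
          ((((n : ℚ) - k) * oddDim R M + k * evenDim R M) * oddRank R e k)) := by
      intro k hk
      have hk' : k ≤ n := by have := Finset.mem_range.1 hk; omega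
      by_cases hfk : f k = f k₀
      · by_cases hz : R.H.map e ≫ EE R M n (k : ℤ) = 0
        · rw [oddRank_zero hz]
          simp
        · have h4 := hpar k hk' hfk hz
          have h5 : (-1 : ℚ) ^ k = (-1 : ℚ) ^ k₀ := by
            rcases Nat.even_or_odd k with h6 | h6
            · rw [h6.neg_one_pow, (h4.1 h6).neg_one_pow]
            · have h7 : Odd k₀ := by
                rw [← Nat.not_even_iff_odd] at h6 ⊢
                exact fun h => h6 (h4.2 h)
              rw [h6.neg_one_pow, h7.neg_one_pow]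
          rw [h5]
          ring
      · rw [if_neg hfk]
        ring
    rw [Finset.sum_congr rfl hterm, ← Finset.mul_sum]
    refine mul_ne_zero (pow_ne_zero _ (by norm_num)) (ne_of_gt ?_)
    have hnn : ∀ k ∈ Finset.range (n + 1), (0 : ℚ) ≤ (if f k = f k₀ then (1 : ℚ) else 0) *
        ((((n : ℚ) - k) * oddDim R M + k * evenDim R M) * oddRank R e k) := by
      intro k hk
      have hk' : (k : ℚ) ≤ n := by
        have := Finset.mem_range.1 hk
        have : k ≤ n := by omega
        exact_mod_cast this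
      have h5 : (0 : ℚ) ≤ (n : ℚ) - k := by linarith
      split_ifs <;> positivity
    refine Finset.sum_pos' hnn ⟨k₀, Finset.mem_range.2 (by omega), ?_⟩
    rw [if_pos rfl, one_mul]
    have hr : (0 : ℚ) < oddRank R e k₀ := by exact_mod_cast oddRank_ne he hk₀ h0
    have hp' : (0 : ℚ) < evenDim R M := by exact_mod_cast hp
    have hq' : (0 : ℚ) < oddDim R M := by exact_mod_cast hq
    refine mul_pos ?_ hr
    rcases Nat.eq_zero_or_pos k₀ with hk | hk
    · rw [hk]
      have hn' : (0 : ℚ) < n := by exact_mod_cast hn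
      push_cast
      have := mul_pos hn' hq'
      linarith
    · have h5 : (0 : ℚ) < k₀ := by exact_mod_cast hk
      have h6 : (0 : ℚ) ≤ (n : ℚ) - k₀ := by
        have : (k₀ : ℚ) ≤ n := by exact_mod_cast hk₀
        linarith
      have h7 := mul_pos h5 hp'
      have h8 := mul_nonneg h6 hq'.le
      linarith

/-- **One algebraic operator with a level of constant parity decides the sign conjecture.** -/
theorem young_tfae (hC : RationalUnit C) (M : C) (h0 : ¬ IsZero (R.H.obj M)) : List.TFAE [
    R.CPlus M,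
    ∀ (n : ℕ) (f : ℕ → ℚ), ∀ e ∈ Young M n, ∃ g : tp M n ⟶ tp M n,
      R.H.map g = R.H.map e ≫ oddOp R M n fun k => (f k : K),
    ∃ n ≥ 1, ∃ e ∈ Young M n, ∃ f : ℕ → K, R.H.map e ≫ oddOp R M n f ∈ KAlg R (tp M n) ∧
      ∃ k₀ ≤ n, R.H.map e ≫ EE R M n (k₀ : ℤ) ≠ 0 ∧
        ∀ k ≤ n, f k = f k₀ → R.H.map e ≫ EE R M n (k : ℤ) ≠ 0 → (Even k ↔ Even k₀)] := by
  have hK := R_charZero R
  have h2 : (2 : K) ≠ 0 := two_ne_zero
  tfae_have 1 → 2 := by
    intro h n f e he
    apply exists_of_falg_bot
    exact falg_comp (falg_map _) (falg_oddOp h n _ fun k => SubfieldClass.ratCast_mem _ _)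
  tfae_have 2 → 3 := by
    intro h
    have hone : (1 : End (tp M 1)) ∈ Young M 1 := ⟨one_mem _, one_mul 1⟩
    have hmap : R.H.map (1 : End (tp M 1)) = 𝟙 _ := CategoryTheory.Functor.map_id R.H _
    have hsum : EE R M 1 ((0 : ℕ) : ℤ) + EE R M 1 ((1 : ℕ) : ℤ) = 𝟙 _ := by
      have h3 := EE_one R h2 M 1
      rwa [Finset.sum_range_succ, Finset.sum_range_one] at h3
    have hne : 𝟙 (R.H.obj (tp M 1)) ≠ 0 := by
      intro h3
      apply h0
      refine IsZero.of_iso ?_ (R.H.mapIso (λ_ M)).symm
      exact (IsZero.iff_id_eq_zero _).2 h3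
    have hex : ∃ k : ℕ, k ≤ 1 ∧ EE R M 1 (k : ℤ) ≠ 0 := by
      by_contra h3
      push Not at h3
      apply hne
      rw [← hsum, h3 0 (by omega), h3 1 (by omega), add_zero]
    obtain ⟨k, hk1, hk⟩ := hex
    obtain ⟨g, hg⟩ := h 1 (fun k => (k : ℚ)) 1 hone
    refine ⟨1, le_refl 1, 1, hone, fun k => ((k : ℚ) : K), hg ▸ kalg_map g, k, hk1, ?_, ?_⟩
    · rwa [hmap, Category.id_comp]
    · intro l _ hl _
      have h4 : l = k := by
        have h5 : ((l : ℚ) : K) = ((k : ℚ) : K) := hl
        exact_mod_cast h5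
      rw [h4]
  tfae_have 3 → 1 := by
    rintro ⟨n, hn, e, he, f, hmem, k₀, hk₀, hne, hpar⟩
    exact cplus_of_level hC hn he hmem hk₀ hne hpar
  tfae_finish

end

end Q56.PC
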